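import Pool.Agent.Helper5.BD.Defs

/-!
# Project BD, module C8: crossings joined by the sides of the triangles
-/

noncomputable section

open Finset Helper5.CR Classical

namespace Helper5.BD

variable {V E X : Type} [Fintype V] [Fintype E] [Fintype X] {C : CSys V E X} {d : ℕ}

/-! ## Module C8 -/
section C8

/-- one orientation of the pair of edges of the crossing -/
theorem jn_A1_aux (O : Ori C d) (p : ℕ) (x : X) (e g h : E) (he : e ∈ O.A1 p)
    (hgh : (C.e₁ x = g ∧ C.e₂ x = h) ∨ (C.e₁ x = h ∧ C.e₂ x = g))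
    (hl : O.lo e = O.lo g ∨ O.lo e = O.hi g) (hh : O.hi e = O.lo h ∨ O.hi e = O.hi h) :
    O.N1 x ∨ O.N2 x ∨ O.G2 x ∨ O.ABC x ∨ O.G1 p x := by
  have hN1 : O.adj (O.lo g) (O.lo h) → O.N1 x := by
    intro ha
    rcases hgh with ⟨h1, h2⟩ | ⟨h1, h2⟩
    · show O.adj (O.lo (C.e₁ x)) (O.lo (C.e₂ x))
      rw [h1, h2]; exact ha
    · show O.adj (O.lo (C.e₁ x)) (O.lo (C.e₂ x))
      rw [h1, h2]; exact ha.symm
  have hN2 : O.arc (O.hi g) (O.lo h) ∨ O.arc (O.hi h) (O.lo g) → O.N2 x := by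
    intro ha
    show O.arc (O.hi (C.e₁ x)) (O.lo (C.e₂ x)) ∨ O.arc (O.hi (C.e₂ x)) (O.lo (C.e₁ x))
    rcases hgh with ⟨h1, h2⟩ | ⟨h1, h2⟩
    · rw [h1, h2]; exact ha
    · rw [h1, h2]; exact ha.symm
  have hcp : ∀ u v, (u = O.lo g ∨ u = O.hi g) → (v = O.lo h ∨ v = O.hi h) → O.cp x u v := by
    intro u v hu hv
    unfold Ori.cp
    rcases hgh with ⟨h1, h2⟩ | ⟨h1, h2⟩
    · rw [h1, h2]; exact Or.inl ⟨hu, hv⟩
    · rw [h1, h2]; exact Or.inr ⟨hv, hu⟩
  have hcp' : ∀ u v, (u = O.lo h ∨ u = O.hi h) → (v = O.lo g ∨ v = O.hi g) → O.cp x u v := by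
    intro u v hu hv
    unfold Ori.cp
    rcases hgh with ⟨h1, h2⟩ | ⟨h1, h2⟩
    · rw [h1, h2]; exact Or.inr ⟨hv, hu⟩
    · rw [h1, h2]; exact Or.inl ⟨hu, hv⟩
  have hABC : O.arc (O.lo g) (O.hi h) → O.arc (O.lo h) (O.hi g) → O.adj (O.hi g) (O.hi h) →
      O.ABC x := by
    intro a1 a2 a3
    show O.arc (O.lo (C.e₁ x)) (O.hi (C.e₂ x)) ∧ O.arc (O.lo (C.e₂ x)) (O.hi (C.e₁ x)) ∧
      O.adj (O.hi (C.e₁ x)) (O.hi (C.e₂ x))
    rcases hgh with ⟨h1, h2⟩ | ⟨h1, h2⟩
    · rw [h1, h2]; exact ⟨a1, a2, a3⟩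
    · rw [h1, h2]; exact ⟨a2, a1, a3.symm⟩
  have harc : ∀ f : E, O.arc (O.lo f) (O.hi f) := fun f => ⟨f, rfl, rfl⟩
  have he' : O.arc (O.lo e) (O.hi e) := harc e
  rcases hh with hh | hh
  · rcases hl with hl | hl
    · left
      apply hN1
      left
      rw [← hl, ← hh]; exact he'
    · right; left
      apply hN2
      left
      rw [← hl, ← hh]; exact he'
  · have hc : O.arc (O.lo h) (O.hi e) := by rw [hh]; exact harc h
    by_cases ha : O.adj (O.lo h) (O.lo e)
    · rcases hl with hl | hl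
      · left
        apply hN1
        rw [← hl]; exact ha.symm
      · rcases ha with ha | ha
        · by_cases hyb : O.adj (O.lo g) (O.hi h)
          · rcases hyb with hyb | hyb
            · right; right; right; left
              apply hABC hyb
              · rw [← hl]; exact ha
              · left
                rw [← hl, ← hh]; exact he'
            · right; left
              exact hN2 (Or.inr hyb)
          · right; right; left
            refine ⟨O.lo g, O.hi h, ⟨hyb, O.hi g, harc g, ?_⟩, hcp _ _ (Or.inl rfl) (Or.inr rfl)⟩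
            rw [← hl, ← hh]; exact he'
        · right; left
          apply hN2
          left
          rw [← hl]; exact ha
    · right; right; right; right
      refine ⟨O.lo h, O.lo e, ⟨ha, e, he, rfl, hc⟩, hcp' _ _ (Or.inl rfl) ?_⟩
      exact hl

/-- C8.  Proof: `x = {g, h}`, `a = lo e` an end of `g`, `b = hi e` an end of `h` (or the same with the
roles of the two edges of `x` exchanged).
`lo h = b`, `lo g = a`: `N1`. `lo h = b`, `hi g = a`: `N2`.
`hi h = b`, `c = lo h`: `{c, a}` is a cross pair. Not adjacent: `G1` (pair `(c, a)`, `e` itself).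
Adjacent and `lo g = a`: `N1`. Adjacent and `hi g = a`, `y = lo g`: arc `a → c` is `N2`; arc `c → a`:
the tops `a = hi g`, `b = hi h` are adjacent by `e`. If `{y, b}` is not adjacent then
`y → a → b` gives `G2`. If `b → y`: `N2`. If `y → b`: `ABC`. -/
theorem jn_A1 (O : Ori C d) (p : ℕ) (x : X) (e : E) (he : e ∈ O.A1 p) (hx : O.jn x e) :
    O.N1 x ∨ O.N2 x ∨ O.G2 x ∨ O.ABC x ∨ O.G1 p x := by
  rcases hx with ⟨h1, h2⟩ | ⟨h1, h2⟩
  · exact jn_A1_aux O p x e (C.e₁ x) (C.e₂ x) he (Or.inl ⟨rfl, rfl⟩) h1 h2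
  · exact jn_A1_aux O p x e (C.e₂ x) (C.e₁ x) he (Or.inr ⟨rfl, rfl⟩) h2 h1

/-- C8.  Proof: exchange the sums: `∑ e ∈ A1 p, cj e = ∑ x, #{e ∈ A1 p : jn x e}`, every term is at most
`4` (`card_jn_le_four`, C5) and is `0` unless `x` is of one of the five types (`jn_A1`). -/
theorem sum_cj_A1 (O : Ori C d) (p : ℕ)
    (h4 : ∀ x, (univ.filter (fun e => O.jn x e)).card ≤ 4)
    (hj : ∀ x e, e ∈ O.A1 p → O.jn x e → O.N1 x ∨ O.N2 x ∨ O.G2 x ∨ O.ABC x ∨ O.G1 p x) :
    ∑ e ∈ O.A1 p, O.cj e ≤ 4 * (Ori.cnt (fun x => O.N1 x) + Ori.cnt (fun x => O.N2 x) +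
      Ori.cnt (fun x => O.G2 x) + Ori.cnt (fun x => O.ABC x) + Ori.cnt (fun x => O.G1 p x)) := by
  have h1 : ∑ e ∈ O.A1 p, O.cj e = ∑ x : X, ((O.A1 p).filter (fun e => O.jn x e)).card := by
    simp only [Ori.cj, Finset.card_filter]
    rw [Finset.sum_comm]
  rw [h1]
  have h2 : ∀ x, ((O.A1 p).filter (fun e => O.jn x e)).card ≤
      4 * ((if O.N1 x then 1 else 0) + (if O.N2 x then 1 else 0) + (if O.G2 x then 1 else 0) +
        (if O.ABC x then 1 else 0) + (if O.G1 p x then 1 else 0)) := by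
    intro x
    by_cases hne : ((O.A1 p).filter (fun e => O.jn x e)).Nonempty
    · obtain ⟨e, he⟩ := hne
      rw [Finset.mem_filter] at he
      have hle : ((O.A1 p).filter (fun e => O.jn x e)).card ≤ 4 :=
        (Finset.card_le_card (Finset.filter_subset_filter _ (Finset.subset_univ _))).trans (h4 x)
      have hge : 1 ≤ (if O.N1 x then 1 else 0) + (if O.N2 x then 1 else 0) +
          (if O.G2 x then 1 else 0) + (if O.ABC x then 1 else 0) + (if O.G1 p x then 1 else 0) := by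
        rcases hj x e he.1 he.2 with h | h | h | h | h <;> rw [if_pos h] <;> omega
      omega
    · rw [Finset.not_nonempty_iff_eq_empty] at hne
      rw [hne, Finset.card_empty]
      exact Nat.zero_le _
  refine (Finset.sum_le_sum fun x _ => h2 x).trans (le_of_eq ?_)
  rw [← Finset.mul_sum]
  simp only [Finset.sum_add_distrib, Ori.cnt, Finset.card_filter]

end C8

end Helper5.BD
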