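import Pool.Agent.Helper9.BD.GA1

/-!
# Project BD, module GN2: suppressing a point with one pass
-/

noncomputable section

open Finset Helper5.CR Classical Equiv Equiv.Perm

namespace Helper5.BD

variable {V E : Type} [Fintype E] {src tgt : E → V}

/-! ## Module GN2 -/
section GN2

/-- Statement of `planar_suppress` (module GA1). -/
def SuppressStmt : Prop := ∀ {D : Type} [Fintype D] {σ α : Perm D} (_ : Planar σ α)
    (_ : ∀ d, α (α d) = d) (_ : ∀ d, α d ≠ d) (u v : D) (_ : u ≠ v) (_ : σ u = v)
    (_ : σ v = u) (_ : α u ≠ v),
    ∃ σ' α' : Perm {d : D // d ≠ u ∧ d ≠ v}, Planar σ' α' ∧ (∀ d, (σ' d).1 = σ d.1) ∧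
      (∀ d, α' (α' d) = d) ∧ (∀ d, α' d ≠ d) ∧ (∀ d, d.1 = α u → (α' d).1 = α v) ∧
      (∀ d, d.1 = α v → (α' d).1 = α u) ∧
      ∀ d, d.1 ≠ α u → d.1 ≠ α v → (α' d).1 = α d.1

/-- walks in a part of the map -/
theorem walk_val {D X S : Type} {i : S → D} {pt : D → X} {α : Perm D} {α' : Perm S} :
    ∀ (l : List S) (x y : X), (∀ d ∈ l, i (α' d) = α (i d)) →
      (IsWalk (fun d => pt (i d)) α' x y l ↔ IsWalk pt α x y (l.map i)) := by
  intro l
  induction l with
  | nil => intro x y _; exact Iff.rfl
  | cons d l ih =>
    intro x y h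
    have h1 := h d (by simp)
    show (pt (i d) = x ∧ IsWalk (fun d => pt (i d)) α' (pt (i (α' d))) y l) ↔
      (pt (i d) = x ∧ IsWalk pt α (pt (α (i d))) y (l.map i))
    rw [h1, ih _ _ (fun d hd => h d (List.mem_cons_of_mem _ hd))]

/-- lists in a part -/
theorem exists_lift {D : Type} {p : D → Prop} (l : List D) (h : ∀ d ∈ l, p d) :
    ∃ l' : List {d // p d}, l'.map Subtype.val = l := by
  induction l with
  | nil => exact ⟨[], rfl⟩
  | cons d l ih =>
    obtain ⟨l', hl'⟩ := ih (fun d hd => h d (List.mem_cons_of_mem _ hd))
    exact ⟨⟨d, h d (by simp)⟩ :: l', by rw [List.map_cons, hl']⟩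

/-- counting in a part -/
theorem count_val {D : Type} [DecidableEq D] {p : D → Prop} (i : DecidableEq {d // p d})
    (l : List {d // p d}) (d : {d // p d}) :
    @List.count _ (@instBEqOfDecidableEq _ i) d l = (l.map Subtype.val).count d.1 := by
  unfold List.count
  rw [List.countP_map]
  refine List.countP_congr fun x _ => ?_
  constructor
  · intro h
    have h' : x = d := of_decide_eq_true h
    subst h'
    simp
  · intro h
    have h' : x.1 = d.1 := by simpa using h
    exact decide_eq_true (Subtype.ext h')

/-- GN2, with the statement of GA1 as a hypothesis. -/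
theorem exists_suppress_of (hGA : SuppressStmt) (P : PreDrawing src tgt) (hU : ∀ d, P.Used d)
    (e : E) (l₁ l₂ : List P.D) (c b : P.D) (hr : P.route e = l₁ ++ c :: b :: l₂)
    (hb : P.passes (P.pt b) = 1) :
    ∃ P' : PreDrawing src tgt, (∀ d, P'.Used d) ∧ Nat.card P'.D < Nat.card P.D ∧
      ∃ j : P.X → P'.X, Function.Injective j ∧
        ∀ f, ipts P' f = ((ipts P f).filter (fun x => decide (x ≠ P.pt b))).map j := by
  -- counting in one route
  have hone : ∀ f d, (P.route f).count d + (P.route f).count (P.α d) ≤ 1 := by
    intro f d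
    exact (Finset.single_le_sum (f := fun f => (P.route f).count d +
      (P.route f).count (P.α d)) (fun _ _ => Nat.zero_le _) (Finset.mem_univ f)).trans
      (P.route_use d)
  have mc : c ∈ P.route e := by rw [hr]; simp
  have mb : b ∈ P.route e := by rw [hr]; simp
  have h1c : 1 ≤ (P.route e).count c := List.count_pos_iff.2 mc
  have h1b : 1 ≤ (P.route e).count b := List.count_pos_iff.2 mb
  have nac : P.α c ∉ P.route e := by
    intro h
    have := List.count_pos_iff.2 h
    have := hone e c
    omega
  have nab : P.α b ∉ P.route e := by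
    intro h
    have := List.count_pos_iff.2 h
    have := hone e b
    omega
  have hcb : c ≠ b := by
    rintro rfl
    have := hone e c
    rw [hr, List.count_append, List.count_cons_self, List.count_cons_self] at this
    omega
  have hcnt_c : l₁.count c + l₂.count c = 0 := by
    have := hone e c
    rw [hr, List.count_append, List.count_cons_self, List.count_cons_of_ne hcb.symm] at this
    omega
  have hcnt_b : l₁.count b + l₂.count b = 0 := by
    have := hone e b
    rw [hr, List.count_append, List.count_cons_of_ne hcb, List.count_cons_self] at this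
    omega
  have ncl₁ : c ∉ l₁ := List.count_eq_zero.1 (by omega)
  have ncl₂ : c ∉ l₂ := List.count_eq_zero.1 (by omega)
  have nbl₁ : b ∉ l₁ := List.count_eq_zero.1 (by omega)
  have nbl₂ : b ∉ l₂ := List.count_eq_zero.1 (by omega)
  have hout : ∀ f, f ≠ e → ∀ d, (d ∈ P.route e ∨ P.α d ∈ P.route e) → d ∉ P.route f := by
    intro f hf d hd h
    exact (P.use_le (Ne.symm hf) hd (Or.inl h)).1 rfl
  have iac : P.α c ∈ P.route e ∨ P.α (P.α c) ∈ P.route e := Or.inr (by rw [P.α_invol]; exact mc)
  have iab : P.α b ∈ P.route e ∨ P.α (P.α b) ∈ P.route e := Or.inr (by rw [P.α_invol]; exact mb)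
  have p1 := P.pt_next hr
  have d1 : P.α c ≠ b := P.use_self hr
  -- the darts at the point
  have hdarts : ∀ d, P.pt d = P.pt b → d = P.α c ∨ d = b := by
    intro d hd
    have hcard := P.card_used (P.pt b) (fun v => P.route_inner e b (P.mem_tail hr) v)
    rw [hb, Nat.card_eq_fintype_card, Fintype.card_subtype] at hcard
    have hsub : ({P.α c, b} : Finset P.D) ⊆
        Finset.univ.filter (fun d => P.pt d = P.pt b ∧ P.Used d) := by
      intro x hx
      simp only [Finset.mem_insert, Finset.mem_singleton] at hx
      rw [Finset.mem_filter]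
      refine ⟨Finset.mem_univ _, ?_, hU x⟩
      rcases hx with rfl | rfl
      · exact p1
      · rfl
    have hc2 : ({P.α c, b} : Finset P.D).card = 2 := Finset.card_pair d1
    have heq := Finset.eq_of_subset_of_card_le hsub (by rw [hcard, hc2])
    have hmem : d ∈ Finset.univ.filter (fun d => P.pt d = P.pt b ∧ P.Used d) :=
      Finset.mem_filter.2 ⟨Finset.mem_univ _, hd, hU d⟩
    rw [← heq] at hmem
    simpa only [Finset.mem_insert, Finset.mem_singleton] using hmem
  have hpσ : ∀ d, P.pt (P.σ d) = P.pt d := fun d =>
    (P.pt_iff _ _).2 (sameCycle_apply_left.2 (SameCycle.refl _ _))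
  have hσ1 : P.σ (P.α c) = b := by
    rcases hdarts (P.σ (P.α c)) ((hpσ _).trans p1) with h | h
    · exfalso
      obtain ⟨n, hn⟩ := (P.pt_iff _ _).1 p1
      rw [zpow_apply_eq_self_of_apply_eq_self h] at hn
      exact d1 hn
    · exact h
  have hσ2 : P.σ b = P.α c := by
    rcases hdarts (P.σ b) (hpσ _) with h | h
    · exact h
    · exact absurd (P.σ.injective (hσ1.trans h.symm)) d1
  obtain ⟨σ', α', hpl, hs1, hinv, hne, ha1, ha2, ha3⟩ := hGA P.planar P.α_invol P.α_ne (P.α c) b
    d1 hσ1 hσ2 (by rw [P.α_invol]; exact hcb)
  rw [P.α_invol] at ha1 ha2 ha3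
  -- the new routes
  set r : E → List P.D := Function.update P.route e (l₁ ++ c :: l₂) with hrdef
  have re : r e = l₁ ++ c :: l₂ := by rw [hrdef, Function.update_self]
  have ro : ∀ f, f ≠ e → r f = P.route f := fun f hf => by
    rw [hrdef, Function.update_of_ne hf]
  have hsubl : ∀ f, (r f).Sublist (P.route f) := by
    intro f
    by_cases hf : f = e
    · subst hf
      rw [re, hr]
      exact List.Sublist.append_left (List.Sublist.cons_cons c (List.sublist_cons_self b l₂)) l₁
    · rw [ro f hf]
  have hmem : ∀ f, ∀ d ∈ r f, d ≠ P.α c ∧ d ≠ b := by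
    intro f d hd
    by_cases hf : f = e
    · subst hf
      refine ⟨fun h => nac (h ▸ (hsubl f).subset hd), fun h => ?_⟩
      rw [re, h, List.mem_append, List.mem_cons] at hd
      rcases hd with hd | hd | hd
      · exact nbl₁ hd
      · exact hcb hd.symm
      · exact nbl₂ hd
    · rw [ro f hf] at hd
      exact ⟨fun h => hout f hf _ iac (h ▸ hd), fun h => hout f hf _ (Or.inl mb) (h ▸ hd)⟩
  have hnab : ∀ f, P.α b ∉ r f := by
    intro f h
    by_cases hf : f = e
    · subst hf
      exact nab ((hsubl f).subset h)
    · exact hout f hf _ iab (by rw [← ro f hf]; exact h)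
  choose rt hrt using fun f => exists_lift (p := fun d => d ≠ P.α c ∧ d ≠ b) (r f) (hmem f)
  have hpow : ∀ (n : ℕ) (d : {d : P.D // d ≠ P.α c ∧ d ≠ b}),
      ((σ' ^ n) d).1 = (P.σ ^ n) d.1 := by
    intro n
    induction n with
    | zero => intro d; rfl
    | succ n ih =>
      intro d
      rw [pow_succ', pow_succ', Perm.mul_apply, Perm.mul_apply, hs1, ih]
  have hval : ∀ f, ∀ d ∈ rt f, d.1 ∈ r f := fun f d hd => by
    rw [← hrt f]
    exact List.mem_map_of_mem hd
  have htail : ∀ f, (rt f).tail.map Subtype.val = (r f).tail := fun f => by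
    rw [← hrt f, List.map_tail]
  have htsub : ∀ f, ∀ d ∈ (r f).tail, d ∈ (P.route f).tail := by
    intro f d hd
    by_cases hf : f = e
    · subst hf
      rw [re] at hd
      rw [hr]
      cases l₁ with
      | nil =>
        simp only [List.nil_append, List.tail_cons] at hd ⊢
        exact List.mem_cons_of_mem _ hd
      | cons a l =>
        simp only [List.cons_append, List.tail_cons, List.mem_append, List.mem_cons] at hd ⊢
        tauto
    · rwa [ro f hf] at hd
  let P' : PreDrawing src tgt :=
    { D := {d : P.D // d ≠ P.α c ∧ d ≠ b}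
      X := P.X
      finD := inferInstance
      finX := P.finX
      σ := σ'
      α := α'
      α_invol := hinv
      α_ne := hne
      planar := hpl
      pt := fun d => P.pt d.1
      pt_iff := by
        intro d d'
        constructor
        · intro h
          obtain ⟨n, hn⟩ := ((P.pt_iff _ _).1 h).exists_nat_pow_eq
          refine ⟨(n : ℤ), ?_⟩
          rw [zpow_natCast]
          exact Subtype.ext ((hpow n d).trans hn)
        · intro h
          obtain ⟨n, hn⟩ := h.exists_nat_pow_eq
          refine (P.pt_iff _ _).2 ⟨(n : ℤ), ?_⟩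
          rw [zpow_natCast, ← hpow, hn]
      loc := P.loc
      loc_inj := P.loc_inj
      route := rt
      route_walk := by
        intro f
        by_cases hf : f = e
        · subst hf
          have h0 := hrt f
          rw [re] at h0
          obtain ⟨m₁, m', h1, h2, h3⟩ := List.map_eq_append_iff.1 h0
          obtain ⟨c', m₂, h4, h5, h6⟩ := List.map_eq_cons_iff.1 h3
          have hw := P.route_walk f
          rw [hr, M8.isWalk_append] at hw
          obtain ⟨z, w1, w2⟩ := hw
          have hc1 : ∀ d ∈ m₁, (α' d).1 = P.α d.1 := by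
            intro d hd
            have hd' : d.1 ∈ l₁ := by rw [← h2]; exact List.mem_map_of_mem hd
            refine ha3 d (fun h => ncl₁ (h ▸ hd')) (fun h => nab ?_)
            rw [← h, hr]; simp [hd']
          have hc2 : ∀ d ∈ m₂, (α' d).1 = P.α d.1 := by
            intro d hd
            have hd' : d.1 ∈ l₂ := by rw [← h6]; exact List.mem_map_of_mem hd
            refine ha3 d (fun h => ncl₂ (h ▸ hd')) (fun h => nab ?_)
            rw [← h, hr]; simp [hd']
          rw [h1, h4, M8.isWalk_append]
          refine ⟨z, (walk_val (i := Subtype.val) m₁ _ _ hc1).2 (by rw [h2]; exact w1), ?_, ?_⟩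
          · show P.pt c'.1 = z
            rw [h5]; exact w2.1
          · show IsWalk (fun d : {d : P.D // d ≠ P.α c ∧ d ≠ b} => P.pt d.1) α' (P.pt (α' c').1)
              (P.loc (tgt f)) m₂
            rw [ha1 c' h5]
            exact (walk_val (i := Subtype.val) m₂ _ _ hc2).2 (by rw [h6]; exact w2.2.2)
        · refine (walk_val (i := Subtype.val) (rt f) _ _ fun d hd => ?_).2
            (by rw [hrt f, ro f hf]; exact P.route_walk f)
          have hd' := hval f d hd
          rw [ro f hf] at hd'
          exact ha3 d (fun h => hout f hf c (Or.inl mc) (h ▸ hd'))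
            (fun h => hout f hf _ iab (h ▸ hd'))
      route_inner := by
        intro f d hd v
        have h1 : d.1 ∈ (r f).tail := by rw [← htail f]; exact List.mem_map_of_mem hd
        exact P.route_inner f d.1 (htsub f _ h1) v
      route_use := by
        intro d
        have hle : ∀ f d, (r f).count d ≤ (P.route f).count d := fun f d =>
          (hsubl f).count_le d
        have h0 : ∀ f, (r f).count (P.α b) = 0 := fun f => List.count_eq_zero.2 (hnab f)
        have hsum : ∑ f, ((r f).count d.1 + (r f).count (α' d).1) ≤ 1 := by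
          by_cases h1 : d.1 = c
          · rw [h1, ha1 d h1]
            refine (Finset.sum_le_sum fun f _ => ?_).trans (P.route_use c)
            have := hle f c
            have := h0 f
            omega
          · by_cases h2 : d.1 = P.α b
            · rw [h2, ha2 d h2]
              refine (Finset.sum_le_sum fun f _ => ?_).trans (P.route_use c)
              have := hle f c
              have := h0 f
              omega
            · rw [ha3 d h1 h2]
              refine (Finset.sum_le_sum fun f _ => ?_).trans (P.route_use d.1)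
              have := hle f d.1
              have := hle f (P.α d.1)
              omega
        refine (Finset.sum_le_sum fun f _ => ?_).trans hsum
        rw [count_val, count_val, hrt f] }
  have hrmem : ∀ f (d : {d : P.D // d ≠ P.α c ∧ d ≠ b}), d.1 ∈ r f → d ∈ rt f := by
    intro f d hd
    rw [← hrt f] at hd
    obtain ⟨d', h1, h2⟩ := List.mem_map.1 hd
    rwa [← Subtype.ext h2]
  -- the passes
  have hpass : ∑ f, ((P.route f).tail.map P.pt).count (P.pt b) = 1 := hb
  have hbe : 1 ≤ ((P.route e).tail.map P.pt).count (P.pt b) :=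
    List.count_pos_iff.2 (List.mem_map_of_mem (P.mem_tail hr))
  have hbe2 : ((P.route e).tail.map P.pt).count (P.pt b) ≤ 1 :=
    (Finset.single_le_sum (f := fun f => ((P.route f).tail.map P.pt).count (P.pt b))
      (fun _ _ => Nat.zero_le _) (Finset.mem_univ e)).trans hpass.le
  have hbf : ∀ f, f ≠ e → P.pt b ∉ (P.route f).tail.map P.pt := by
    intro f hf h
    have h1 : 1 ≤ ((P.route f).tail.map P.pt).count (P.pt b) := List.count_pos_iff.2 h
    have h2 : ∑ g ∈ ({e, f} : Finset E), ((P.route g).tail.map P.pt).count (P.pt b) ≤ 1 :=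
      (Finset.sum_le_sum_of_subset (Finset.subset_univ _)).trans hpass.le
    rw [Finset.sum_pair (Ne.symm hf)] at h2
    omega
  refine ⟨P', fun d => ?_, ?_, fun x => x, fun x y h => h, fun f => ?_⟩
  · by_cases h1 : d.1 = c
    · exact ⟨e, Or.inl (hrmem e d (by rw [re, h1]; simp))⟩
    · by_cases h2 : d.1 = P.α b
      · exact ⟨e, Or.inr (hrmem e (α' d) (by rw [re, ha2 d h2]; simp))⟩
      · obtain ⟨f, hf⟩ := hU d.1
        have key : ∀ x, x ∈ P.route f → x ≠ b → x ∈ r f := by
          intro x hx hxb
          by_cases hfe : f = e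
          · subst hfe
            rw [hr] at hx
            rw [re]
            simp only [List.mem_append, List.mem_cons] at hx ⊢
            tauto
          · rw [ro f hfe]; exact hx
        rcases hf with hf | hf
        · exact ⟨f, Or.inl (hrmem f d (key _ hf d.2.2))⟩
        · refine ⟨f, Or.inr (hrmem f (α' d) ?_)⟩
          rw [ha3 d h1 h2]
          exact key _ hf fun h => h2 ((P.α_invol d.1).symm.trans (congrArg P.α h))
  · exact Finite.card_subtype_lt (x := b) (fun h => h.2 rfl)
  · have hL : ipts P' f = (r f).tail.map P.pt := by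
      show (rt f).tail.map (fun d => P.pt d.1) = _
      rw [← htail f, List.map_map]
      rfl
    rw [hL]
    have hmapid : ∀ l : List P.X, l.map (fun x => x) = l := fun l => List.map_id' l
    show (r f).tail.map P.pt =
      (((P.route f).tail.map P.pt).filter (fun x => decide (x ≠ P.pt b))).map (fun x => x)
    rw [hmapid]
    by_cases hf : f = e
    · subst hf
      rw [re]
      rw [hr] at hbe hbe2 ⊢
      cases l₁ with
      | nil =>
        simp only [List.nil_append, List.tail_cons, List.map_cons] at hbe hbe2 ⊢
        rw [List.count_cons_self] at hbe2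
        have hz : (l₂.map P.pt).count (P.pt b) = 0 := by omega
        rw [List.filter_cons_of_neg (by simp), List.filter_eq_self.2]
        intro x hx
        have : x ≠ P.pt b := fun h => List.count_eq_zero.1 hz (h ▸ hx)
        simpa using this
      | cons a l =>
        simp only [List.cons_append, List.tail_cons, List.map_append, List.map_cons] at hbe hbe2 ⊢
        rw [List.count_append] at hbe2
        have hc0 : P.pt c ≠ P.pt b := by
          intro h
          rw [h, List.count_cons_self, List.count_cons_self] at hbe2
          omega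
        rw [List.count_cons_of_ne hc0, List.count_cons_self] at hbe2
        have hz1 : (l.map P.pt).count (P.pt b) = 0 := by omega
        have hz2 : (l₂.map P.pt).count (P.pt b) = 0 := by omega
        rw [List.filter_append, List.filter_cons_of_pos (by simpa using hc0),
          List.filter_cons_of_neg (by simp), List.filter_eq_self.2, List.filter_eq_self.2]
        · intro x hx
          have : x ≠ P.pt b := fun h => List.count_eq_zero.1 hz2 (h ▸ hx)
          simpa using this
        · intro x hx
          have : x ≠ P.pt b := fun h => List.count_eq_zero.1 hz1 (h ▸ hx)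
          simpa using this
    · rw [ro f hf, List.filter_eq_self.2]
      intro x hx
      have : x ≠ P.pt b := fun h => hbf f hf (h ▸ hx)
      simpa using this

/-- GN2.  Proof: `pt b` is not a vertex (`route_inner`), so `PreDrawing.card_used` (with all darts used)
gives exactly two darts at `pt b`: `P.α c` and `b` (different by `use_self`); so `σ` exchanges them.
`planar_suppress` with `u = P.α c`, `v = b` (`α u = c ≠ b` by `route_use`). New routes: `e` gets
`l₁ ++ c :: l₂`, other edges as before (they contain neither `b` nor `α c` nor `c`, `α b`). Same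
`X`, `j = id`. -/
theorem exists_suppress (P : PreDrawing src tgt) (hU : ∀ d, P.Used d) (e : E)
    (l₁ l₂ : List P.D) (c b : P.D) (hr : P.route e = l₁ ++ c :: b :: l₂)
    (hb : P.passes (P.pt b) = 1) :
    ∃ P' : PreDrawing src tgt, (∀ d, P'.Used d) ∧ Nat.card P'.D < Nat.card P.D ∧
      ∃ j : P.X → P'.X, Function.Injective j ∧
        ∀ f, ipts P' f = ((ipts P f).filter (fun x => decide (x ≠ P.pt b))).map j :=
  exists_suppress_of (fun hp hα hne u v huv h1 h2 h3 => planar_suppress hp hα hne u v huv h1 h2 h3)
    P hU e l₁ l₂ c b hr hb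

end GN2

end Helper5.BD
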