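import Mathlib

/-!
Bounded degree: unirationality of varieties given by `s` polynomials of degree `≤ d`.
Definitions.
-/

namespace Pool.Agent.Helper97.BD

open MvPolynomial

universe u

/-- composition with the linear map `w ↦ ∑ t, w t • A t` from `k^τ` to `k^σ` -/
noncomputable def lsub {k : Type u} [Field k] {σ τ : Type*} [Fintype τ] (A : τ → σ → k) :
    MvPolynomial σ k →ₐ[k] MvPolynomial τ k :=
  aeval (fun v => ∑ t, C (A t v) * X t)

/-- index set of the coefficients of a tuple of forms of degrees `d i` in the variables `τ` -/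
abbrev Idx {ι : Type*} (d : ι → ℕ) (τ : Type*) := {p : ι × (τ →₀ ℕ) // p.2.degree = d p.1}

instance {ι τ : Type*} [Finite ι] [Finite τ] (d : ι → ℕ) : Finite (Idx d τ) := by
  classical
  have h : Set.Finite {p : ι × (τ →₀ ℕ) | p.2.degree = d p.1} := by
    have : {p : ι × (τ →₀ ℕ) | p.2.degree = d p.1} ⊆
        ⋃ i : ι, (fun γ => (i, γ)) '' {γ : τ →₀ ℕ | γ.degree ≤ d i} := by
      rintro ⟨i, γ⟩ h
      simp only [Set.mem_iUnion]
      exact ⟨i, γ, le_of_eq h, rfl⟩
    exact (Set.finite_iUnion fun i => (Finsupp.finite_of_degree_le (d i)).image _).subset this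
  exact h.to_subtype

/-- A nontrivial combination of the forms of one degree `D` is a polynomial in `b` forms of each
degree `1, …, D - 1`. -/
def Low {k : Type u} [Field k] {σ ι : Type*} [Fintype ι] (d : ι → ℕ)
    (F : ι → MvPolynomial σ k) (b : ℕ) : Prop :=
  ∃ (D : ℕ) (c : ι → k) (Θ : Fin b → ℕ → MvPolynomial σ k),
    (∃ i, c i ≠ 0) ∧ (∀ i, c i ≠ 0 → d i = D) ∧ (∀ l e, (Θ l e).IsHomogeneous e) ∧
    (∑ i, C (c i) * F i) ∈ Algebra.adjoin k {f | ∃ l e, 1 ≤ e ∧ e < D ∧ f = Θ l e}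

/-- the point `ξ` has transcendence degree at least `n - c` over `k` -/
def HT {k : Type u} [Field k] {n : ℕ} {Ω : Type u} [Field Ω] [Algebra k Ω] (c : ℕ)
    (ξ : Fin n → Ω) : Prop :=
  ∃ T : Finset (Fin n), n ≤ T.card + c ∧ AlgebraicIndependent k (fun v : T => ξ v)

/-- the lifting property of a tuple of polynomials at points of transcendence degree `≥ n - c` -/
def LP {k : Type u} [Field k] {n : ℕ} {ι : Type} (c : ℕ) (F : ι → MvPolynomial (Fin n) k) :
    Prop :=
  ∀ (Ω : Type u) [Field Ω] [IsAlgClosed Ω] [Algebra k Ω] (ξ : Fin n → Ω) (_ : HT (k := k) c ξ)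
    (O : Type u) [CommRing O] [Algebra k O] (π : O →ₐ[k] Ω) (_ : Function.Surjective π)
    (_ : ∀ a, π a ≠ 0 → IsUnit a) (p : ι → O) (_ : ∀ i, π (p i) = aeval ξ (F i)),
    ∃ x : Fin n → O, (∀ i, aeval x (F i) = p i) ∧ ∀ v, π (x v) = ξ v

/-- the expansion of `F (x + ∑ r, u r • e r)` in powers of `u` -/
noncomputable def ue {k : Type u} [Field k] {σ ρ : Type*} [Fintype ρ] (e : ρ → σ → k)
    (F : MvPolynomial σ k) : MvPolynomial ρ (MvPolynomial σ k) :=
  aeval (fun v => C (X v) + ∑ r, C (C (e r v)) * X r) F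

/-- the coefficient of `u^β` in `F (x + ∑ r, u r • e r)` -/
noncomputable def ug {k : Type u} [Field k] {σ ρ : Type*} [Fintype ρ] (e : ρ → σ → k)
    (F : MvPolynomial σ k) (β : ρ →₀ ℕ) : MvPolynomial σ k :=
  coeff β (ue e F)

/-- the family `F (A₀ w + λ (t·w) x)`, as a polynomial in `w` over `k[x][λ]` -/
noncomputable def pert {k : Type u} [Field k] {σ τ : Type*} [Fintype τ] (A₀ : τ → σ → k)
    (t : τ → k) : MvPolynomial σ k →ₐ[k] MvPolynomial τ (Polynomial (MvPolynomial σ k)) :=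
  aeval (fun v => ∑ j, C (Polynomial.C (C (A₀ j v)) +
    Polynomial.X * Polynomial.C (C (t j) * X v)) * X j)

/-- index set of the derived gates -/
abbrev Der {ι : Type*} (d : ι → ℕ) (i₀ : ι) (ρ : Type*) :=
  {p : ι × (ρ →₀ ℕ) // p.2.degree < d p.1 ∧ p ≠ (i₀, 0)}

instance {ι ρ : Type*} [Finite ι] [Finite ρ] (d : ι → ℕ) (i₀ : ι) : Finite (Der d i₀ ρ) := by
  classical
  have h : Set.Finite {p : ι × (ρ →₀ ℕ) | p.2.degree < d p.1 ∧ p ≠ (i₀, 0)} := by
    have : {p : ι × (ρ →₀ ℕ) | p.2.degree < d p.1 ∧ p ≠ (i₀, 0)} ⊆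
        ⋃ i : ι, (fun γ => (i, γ)) '' {γ : ρ →₀ ℕ | γ.degree ≤ d i} := by
      rintro ⟨i, γ⟩ h
      simp only [Set.mem_iUnion]
      exact ⟨i, γ, le_of_lt h.1, rfl⟩
    exact (Set.finite_iUnion fun i => (Finsupp.finite_of_degree_le (d i)).image _).subset this
  exact h.to_subtype

end Pool.Agent.Helper97.BD
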