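import Mathlib
import Pool.Agent.Helper97.BD.Defs

/-!
BD MODULE A1: algebraicity of a point (MP_1dc56d_ag, bounded degree). Notation: Defs.lean.

PROOF. Let M be the K-span in Ω of the monomials ω^α = α.prod (fun p a => ω p ^ a) with α p < e p for
all p (finitely many α). Claim: ω^α is in M for every α : ι →₀ ℕ. Strong induction on α.degree. If
α p < e p for all p, clear. Otherwise e p ≤ α p for some p, α = α' + single p (e p),
ω^α = ω^α' * aeval ω (Ψ p), which is a K-combination of ω^(α' + m) with m in the support of Ψ p,
m.degree ≤ totalDegree < e p, so the degree of α' + m is less than that of α. Hence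
Algebra.adjoin K (Set.range ω) (spanned by all ω^α, or: the image of aeval ω) is contained in the finite
dimensional M, so it is finite dimensional over K, and each ω p is algebraic (integral) over K.
-/

namespace Pool.Agent.Helper97.BD

open MvPolynomial

universe u

theorem isAlgebraic_of_top {K Ω ι : Type*} [Field K] [Field Ω] [Algebra K Ω] [Fintype ι]
    (ω : ι → Ω) (e : ι → ℕ) (Ψ : ι → MvPolynomial ι K) (hΨ : ∀ p, (Ψ p).totalDegree < e p)
    (hω : ∀ p, ω p ^ e p = aeval ω (Ψ p)) : ∀ p, IsAlgebraic K (ω p) := by
  classical
  set ev : (ι →₀ ℕ) → Ω := fun α => α.prod (fun p a => ω p ^ a) with hev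
  have ev_add : ∀ α β, ev (α + β) = ev α * ev β := by
    intro α β
    exact Finsupp.prod_add_index' (fun _ => pow_zero _) (fun _ _ _ => pow_add _ _ _)
  have ev_single : ∀ p a, ev (Finsupp.single p a) = ω p ^ a := by
    intro p a
    exact Finsupp.prod_single_index (pow_zero _)
  have haev : ∀ P : MvPolynomial ι K, aeval ω P = ∑ m ∈ P.support, P.coeff m • ev m := by
    intro P
    conv_lhs => rw [P.as_sum]
    rw [map_sum]
    refine Finset.sum_congr rfl fun m _ => ?_
    rw [aeval_monomial, Algebra.smul_def]
  set M : Submodule K Ω := Submodule.span K (ev '' {α | ∀ p, α p < e p}) with hM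
  have key : ∀ (N : ℕ) (α : ι →₀ ℕ), α.degree = N → ev α ∈ M := by
    intro N
    induction N using Nat.strong_induction_on with
    | _ N ih =>
      intro α hα
      by_cases hall : ∀ p, α p < e p
      · exact Submodule.subset_span ⟨α, hall, rfl⟩
      · push Not at hall
        obtain ⟨p, hp⟩ := hall
        set α' := α - Finsupp.single p (e p) with hα'
        have hle : Finsupp.single p (e p) ≤ α := by
          rw [Finsupp.single_le_iff]; exact hp
        have hsum : α = α' + Finsupp.single p (e p) := (tsub_add_cancel_of_le hle).symm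
        have hdeg : α'.degree + e p = N := by
          rw [← hα, hsum, map_add, Finsupp.degree_single]
        rw [hsum, ev_add, ev_single, hω p, haev, Finset.mul_sum]
        refine Submodule.sum_mem _ fun m hm => ?_
        have h1 : ev α' * (Ψ p).coeff m • ev m = (Ψ p).coeff m • ev (α' + m) := by
          rw [ev_add, mul_smul_comm]
        rw [h1]
        refine Submodule.smul_mem _ _ (ih (α' + m).degree ?_ _ rfl)
        have h2 : m.degree ≤ (Ψ p).totalDegree := by
          exact le_totalDegree hm
        have h3 := hΨ p
        rw [map_add]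
        omega
  have hfin : Set.Finite {α : ι →₀ ℕ | ∀ p, α p < e p} := by
    refine (Set.finite_Iic (Finsupp.equivFunOnFinite.symm e)).subset ?_
    intro α hα
    exact fun p => (hα p).le
  haveI hMfin : FiniteDimensional K M :=
    FiniteDimensional.span_of_finite K (hfin.image ev)
  set A := (aeval ω : MvPolynomial ι K →ₐ[K] Ω).range with hA
  have hAM : Subalgebra.toSubmodule A ≤ M := by
    rintro x ⟨P, rfl⟩
    show aeval ω P ∈ M
    rw [haev]
    exact Submodule.sum_mem _ fun m _ => Submodule.smul_mem _ _ (key _ m rfl)
  haveI : FiniteDimensional K (Subalgebra.toSubmodule A) :=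
    Submodule.finiteDimensional_of_le hAM
  haveI : FiniteDimensional K A := this
  intro p
  have h1 : IsIntegral K (⟨ω p, ⟨X p, by simp⟩⟩ : A) := Algebra.IsIntegral.isIntegral _
  have h2 : IsIntegral K (A.val ⟨ω p, ⟨X p, by simp⟩⟩) := h1.map A.val
  exact h2.isAlgebraic

end Pool.Agent.Helper97.BD
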