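import Mathlib
import Pool.Agent.Helper97.BD.Defs

/-!
BD MODULE A2: shifting a form by constants changes only lower terms (MP_1dc56d_ag, bounded degree). Notation: Defs.lean.

PROOF. For a linear form L v = ∑ t, C (A t v) * X t (homogeneous of degree 1) and constants c v: for a
monomial m of degree n, ∏ v, (L v + C (c v)) ^ m v - ∏ v, L v ^ m v has totalDegree < n if n ≥ 1 and is
0 if n = 0. Suggested formulation: call (Q, n) good if n = 0 and ... or prove by induction on the
monomial (or over products) the statement: P = ∏ (L + c), P' = ∏ L with P - P' in the span of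
polynomials of totalDegree ≤ n - 1, P.totalDegree ≤ n, and (n = 0 → P = P'):
P1 * P2 - P1' * P2' = P1 * (P2 - P2') + (P1 - P1') * P2'. Then sum over the monomials of F, all of
degree D ≥ 1 (F homogeneous). For D ≥ 1 the bound < D is the bound ≤ D - 1.
-/

namespace Pool.Agent.Helper97.BD

open MvPolynomial

universe u

/-- `P`, `P'` are of degree at most `n` and differ by lower terms -/
def A2R {K ι : Type*} [Field K] (n : ℕ) (P P' : MvPolynomial ι K) : Prop :=
  P.totalDegree ≤ n ∧ P'.totalDegree ≤ n ∧ (P = P' ∨ (P - P').totalDegree < n)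

theorem A2_mul {K ι : Type*} [Field K] {n₁ n₂ : ℕ} {P₁ P₁' P₂ P₂' : MvPolynomial ι K}
    (h₁ : A2R n₁ P₁ P₁') (h₂ : A2R n₂ P₂ P₂') : A2R (n₁ + n₂) (P₁ * P₂) (P₁' * P₂') := by
  obtain ⟨a1, a2, a3⟩ := h₁
  obtain ⟨b1, b2, b3⟩ := h₂
  refine ⟨(totalDegree_mul _ _).trans (by omega), (totalDegree_mul _ _).trans (by omega), ?_⟩
  have e : P₁ * P₂ - P₁' * P₂' = P₁ * (P₂ - P₂') + (P₁ - P₁') * P₂' := by ring
  rcases a3 with rfl | a3
  · rcases b3 with rfl | b3
    · exact Or.inl rfl
    · right
      rw [e, sub_self, zero_mul, add_zero]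
      exact lt_of_le_of_lt (totalDegree_mul _ _) (by omega)
  · right
    rw [e]
    refine lt_of_le_of_lt (totalDegree_add _ _) (max_lt ?_ ?_)
    · rcases b3 with rfl | b3
      · rw [sub_self, mul_zero, totalDegree_zero]
        omega
      · exact lt_of_le_of_lt (totalDegree_mul _ _) (by omega)
    · exact lt_of_le_of_lt (totalDegree_mul _ _) (by omega)

theorem A2_one {K ι : Type*} [Field K] : A2R 0 (1 : MvPolynomial ι K) 1 :=
  ⟨by rw [totalDegree_one], by rw [totalDegree_one], Or.inl rfl⟩

theorem A2_pow {K ι : Type*} [Field K] {n : ℕ} {P P' : MvPolynomial ι K}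
    (h : A2R n P P') (m : ℕ) : A2R (m * n) (P ^ m) (P' ^ m) := by
  induction m with
  | zero =>
    rw [zero_mul, pow_zero, pow_zero]
    exact A2_one
  | succ m ih =>
    rw [pow_succ, pow_succ, add_mul, one_mul]
    exact A2_mul ih h

theorem A2_prod {K ι σ : Type*} [Field K] (s : Finset σ) (n : σ → ℕ)
    (P P' : σ → MvPolynomial ι K) (h : ∀ v ∈ s, A2R (n v) (P v) (P' v)) :
    A2R (∑ v ∈ s, n v) (∏ v ∈ s, P v) (∏ v ∈ s, P' v) := by
  classical
  induction s using Finset.induction_on with
  | empty =>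
    rw [Finset.sum_empty, Finset.prod_empty, Finset.prod_empty]
    exact A2_one
  | insert v s hv ih =>
    rw [Finset.sum_insert hv, Finset.prod_insert hv, Finset.prod_insert hv]
    exact A2_mul (h v (Finset.mem_insert_self v s))
      (ih fun w hw => h w (Finset.mem_insert_of_mem hw))

theorem totalDegree_shift {K : Type*} [Field K] {σ ι : Type*} [Fintype ι] (A : ι → σ → K)
    (c : σ → K) (F : MvPolynomial σ K) {D : ℕ} (hD : 1 ≤ D) (hF : F.IsHomogeneous D) :
    (aeval (fun v => (∑ t, C (A t v) * X t : MvPolynomial ι K) + C (c v)) F -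
      aeval (fun v => (∑ t, C (A t v) * X t : MvPolynomial ι K)) F).totalDegree < D := by
  have hL : ∀ v, (∑ t, C (A t v) * X t : MvPolynomial ι K).totalDegree ≤ 1 := by
    intro v
    refine totalDegree_finsetSum_le fun t _ => ?_
    refine (totalDegree_mul _ _).trans ?_
    rw [totalDegree_C, totalDegree_X]
  have hbase : ∀ v, A2R 1 ((∑ t, C (A t v) * X t : MvPolynomial ι K) + C (c v))
      (∑ t, C (A t v) * X t) := by
    intro v
    refine ⟨(totalDegree_add _ _).trans (max_le (hL v) ?_), hL v, Or.inr ?_⟩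
    · rw [totalDegree_C]
      exact Nat.zero_le 1
    · rw [add_sub_cancel_left, totalDegree_C]
      exact Nat.zero_lt_one
  rw [aeval_def, aeval_def, eval₂_eq, eval₂_eq, ← Finset.sum_sub_distrib]
  have key : (∑ d ∈ F.support, (algebraMap K (MvPolynomial ι K) (F.coeff d) *
      ∏ i ∈ d.support, ((∑ t, C (A t i) * X t : MvPolynomial ι K) + C (c i)) ^ d i -
      algebraMap K (MvPolynomial ι K) (F.coeff d) *
      ∏ i ∈ d.support, (∑ t, C (A t i) * X t : MvPolynomial ι K) ^ d i)).totalDegree ≤ D - 1 := by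
    refine totalDegree_finsetSum_le fun d hd => ?_
    have hdeg : ∑ i ∈ d.support, d i * 1 = D := by
      have h1 : d.degree = D := by
        rw [Finsupp.degree_eq_weight_one]
        exact hF (mem_support_iff.1 hd)
      rw [← h1, Finsupp.degree_apply]
      simp
    obtain ⟨-, -, h3⟩ := A2_prod d.support (fun i => d i * 1)
      (fun i => ((∑ t, C (A t i) * X t : MvPolynomial ι K) + C (c i)) ^ d i)
      (fun i => (∑ t, C (A t i) * X t : MvPolynomial ι K) ^ d i)
      (fun i _ => A2_pow (hbase i) (d i))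
    rw [hdeg] at h3
    rw [← mul_sub, algebraMap_eq]
    refine (totalDegree_mul _ _).trans ?_
    rw [totalDegree_C, zero_add]
    rcases h3 with h3 | h3
    · rw [h3, sub_self, totalDegree_zero]
      exact Nat.zero_le _
    · omega
  omega

end Pool.Agent.Helper97.BD
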