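import Mathlib
import Pool.Agent.Helper97.BD.A1
import Pool.Agent.Helper97.BD.A2

/-!
BD MODULE A3: a point is algebraic over its gates and n - card ι linear forms (MP_1dc56d_ag, bounded degree). Notation: Defs.lean.

PROOF. The vectors A p : Fin n → k are linearly independent: if ∑ p, w p • A p = 0 then
0 = F (∑ p, w p • A p) evaluated for F = G p gives (d p ≥ 1, G p homogeneous) w p ^ d p = 0. (From hA:
eval w (lsub A (G p)) = w p ^ d p, and eval w (lsub A F) = eval (fun v => ∑ p, w p * A p v) F.) Extend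
to a basis of Fin n → k: there are m vectors B j with m + card ι = n such that A, B together form a
basis (Sum.elim A B; e.g. from a complement of the span, or exists_linearIndependent_extend). Over Ω
write ξ v = ∑ p, ω p * A p v + ∑ j, b j * B j v (coordinates: the basis over k remains a basis after
scalar extension; concretely take the inverse matrix with entries in k). Let L be as in the statement,
K = L. Then all b j ∈ L; put c v = ∑ j, b j * B j v ∈ L. Over L the polynomial
P = aeval (fun v => ∑ p, C (A p v) * X p + C (c v)) (G p mapped to L) has aeval ω P = aeval ξ (G p) = g ∈ L,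
and by A2 P = X p ^ d p + (totalDegree < d p). So ω p ^ d p = aeval ω (Ψ p) with Ψ p = C g - (P - X p ^ d p)
of totalDegree < d p; A1 gives that ω p is algebraic over L, hence in L by hypothesis; so ξ v ∈ L.
-/

namespace Pool.Agent.Helper97.BD

open MvPolynomial

universe u

theorem A3_basis {k : Type*} [Field k] {n : ℕ} {ι : Type*} [Fintype ι] (A : ι → Fin n → k)
    (hA : LinearIndependent k A) :
    ∃ (m : ℕ) (B : Module.Basis (ι ⊕ Fin m) k (Fin n → k)), m + Fintype.card ι = n ∧
      ∀ i, B (Sum.inl i) = A i := by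
  obtain ⟨W', hW'⟩ := Submodule.exists_isCompl (Submodule.span k (Set.range A))
  let b1 : Module.Basis ι k (Submodule.span k (Set.range A)) := Module.Basis.span hA
  let b2 := Module.finBasis k W'
  let B := (b1.prod b2).map (Submodule.prodEquivOfIsCompl _ _ hW')
  refine ⟨Module.finrank k W', B, ?_, ?_⟩
  · have h1 := Module.finrank_eq_card_basis B
    rw [Fintype.card_sum, Fintype.card_fin, Module.finrank_fin_fun] at h1
    omega
  · intro i
    have h1 : (b1 i : Fin n → k) = A i := congrArg Subtype.val (Module.Basis.span_apply hA i)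
    rw [← h1]
    simp [B]

theorem A3_eval {k Ω ι : Type*} [Field k] [Field Ω] [Algebra k Ω] [Fintype ι] {n : ℕ}
    (A : ι → Fin n → k) (ω : ι → Ω) (F : MvPolynomial (Fin n) k) :
    aeval ω (lsub A F) = aeval (fun v => ∑ t, algebraMap k Ω (A t v) * ω t) F := by
  unfold lsub
  rw [comp_aeval_apply]
  congr 2
  funext v
  simp

theorem A3_indep {k : Type*} [Field k] {n : ℕ} {ι : Type*} [Fintype ι] (d : ι → ℕ)
    (hd : ∀ p, 1 ≤ d p) (G : ι → MvPolynomial (Fin n) k) (hG : ∀ p, (G p).IsHomogeneous (d p))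
    (A : ι → Fin n → k) (hA : ∀ p, lsub A (G p) = X p ^ d p) : LinearIndependent k A := by
  rw [Fintype.linearIndependent_iff]
  intro w hw p
  have h1 := A3_eval A w (G p)
  have h2 : (fun v => ∑ t, algebraMap k k (A t v) * w t) = 0 := by
    funext v
    have := congrFun hw v
    simp only [Finset.sum_apply, Pi.smul_apply, smul_eq_mul, Pi.zero_apply] at this
    rw [Pi.zero_apply, ← this]
    exact Finset.sum_congr rfl fun t _ => mul_comm _ _
  rw [h2, hA p, map_pow, aeval_X, aeval_zero, constantCoeff_eq,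
    (hG p).coeff_eq_zero (by simpa using (Nat.one_le_iff_ne_zero.1 (hd p)).symm), map_zero] at h1
  exact pow_eq_zero_iff (Nat.one_le_iff_ne_zero.1 (hd p)) |>.1 h1

theorem flat {k : Type u} [Field k] {n : ℕ} {ι : Type*} [Fintype ι] (d : ι → ℕ)
    (hd : ∀ p, 1 ≤ d p) (G : ι → MvPolynomial (Fin n) k) (hG : ∀ p, (G p).IsHomogeneous (d p))
    (A : ι → Fin n → k) (hA : ∀ p, lsub A (G p) = X p ^ d p) {Ω : Type u} [Field Ω] [Algebra k Ω]
    (ξ : Fin n → Ω) :
    ∃ (m : ℕ) (b : Fin m → Ω), m + Fintype.card ι = n ∧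
      ∀ L : IntermediateField k Ω, (∀ x : Ω, IsAlgebraic L x → x ∈ L) →
        (∀ p, aeval ξ (G p) ∈ L) → (∀ j, b j ∈ L) → ∀ v, ξ v ∈ L := by
  classical
  obtain ⟨m, B, hm, hB⟩ := A3_basis A (A3_indep d hd G hG A hA)
  -- coordinates
  set ζ : ι ⊕ Fin m → Ω := fun q => ∑ v, ξ v * algebraMap k Ω (B.repr (Pi.single v 1) q) with hζ
  have hcoord : ∀ v, ξ v = ∑ q, ζ q * algebraMap k Ω (B q v) := by
    intro v
    have h1 : ∀ u : Fin n, ∑ q, algebraMap k Ω (B.repr (Pi.single u 1) q) * algebraMap k Ω (B q v) =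
        if u = v then 1 else 0 := by
      intro u
      have h2 := congrFun (B.sum_repr (Pi.single u (1 : k))) v
      simp only [Finset.sum_apply, Pi.smul_apply, smul_eq_mul] at h2
      simp only [← map_mul, ← map_sum, h2, Pi.single_apply]
      by_cases h : u = v
      · rw [if_pos h.symm, if_pos h, map_one]
      · rw [if_neg (Ne.symm h), if_neg h, map_zero]
    simp only [hζ, Finset.sum_mul]
    rw [Finset.sum_comm]
    simp only [mul_assoc, ← Finset.mul_sum, h1]
    simp
  refine ⟨m, fun j => ζ (Sum.inr j), hm, fun L hL hGL hbL => ?_⟩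
  have hkL : ∀ c : k, algebraMap k Ω c ∈ L := fun c => L.algebraMap_mem c
  -- the constants
  have hc : ∀ v, ∑ j, ζ (Sum.inr j) * algebraMap k Ω (B (Sum.inr j) v) ∈ L := fun v =>
    sum_mem fun j _ => mul_mem (hbL j) (hkL _)
  have hξ : ∀ v, ξ v = ∑ p, algebraMap k Ω (A p v) * ζ (Sum.inl p) +
      ∑ j, ζ (Sum.inr j) * algebraMap k Ω (B (Sum.inr j) v) := by
    intro v
    rw [hcoord v, Fintype.sum_sum_type]
    congr 1
    exact Finset.sum_congr rfl fun p _ => by rw [hB p, mul_comm]
  let c' : Fin n → L := fun v => ⟨_, hc v⟩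
  let A' : ι → Fin n → L := fun t v => algebraMap k L (A t v)
  let G' : ι → MvPolynomial (Fin n) L := fun p => map (algebraMap k L) (G p)
  have hG' : ∀ p, (G' p).IsHomogeneous (d p) := fun p => (hG p).map _
  have hshift := fun p => totalDegree_shift A' c' (G' p) (hd p) (hG' p)
  -- the top part
  have htop : ∀ p, aeval (fun v => (∑ t, C (A' t v) * X t : MvPolynomial ι L)) (G' p) =
      X p ^ d p := by
    intro p
    have h1 := congrArg (map (algebraMap k L)) (hA p)
    rw [map_pow, map_X] at h1
    rw [← h1]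
    unfold lsub
    have h2 : ∀ q : MvPolynomial ι k, map (algebraMap k L) q = mapAlgHom (Algebra.ofId k L) q :=
      fun q => rfl
    rw [h2, comp_aeval_apply, aeval_map_algebraMap]
    congr 2
    funext v
    rw [← h2, map_sum]
    refine Finset.sum_congr rfl fun t _ => ?_
    rw [map_mul, map_C, map_X]
  have hval : ∀ p, aeval (fun p => ζ (Sum.inl p)) (aeval (fun v => (∑ t, C (A' t v) * X t :
      MvPolynomial ι L) + C (c' v)) (G' p)) = aeval ξ (G p) := by
    intro p
    rw [comp_aeval_apply, aeval_map_algebraMap]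
    congr 2
    funext v
    rw [hξ v, map_add, map_sum, aeval_C]
    congr 1
    refine Finset.sum_congr rfl fun t _ => ?_
    rw [map_mul, aeval_C, aeval_X]
    rfl
  have hωL : ∀ p, ζ (Sum.inl p) ∈ L := by
    intro p
    refine hL _ (isAlgebraic_of_top (K := L) (fun p => ζ (Sum.inl p)) d (fun p =>
      C ⟨_, hGL p⟩ - (aeval (fun v => (∑ t, C (A' t v) * X t : MvPolynomial ι L) + C (c' v)) (G' p) -
        X p ^ d p)) ?_ ?_ p)
    · intro p
      refine (totalDegree_sub _ _).trans_lt (max_lt ?_ ?_)
      · rw [totalDegree_C]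
        exact hd p
      · have h1 := hshift p
        rwa [htop p] at h1
    · intro p
      rw [map_sub, map_sub, hval p, aeval_C, map_pow, aeval_X]
      change _ = aeval ξ (G p) - (aeval ξ (G p) - ζ (Sum.inl p) ^ d p)
      ring
  intro v
  rw [hξ v]
  exact add_mem (sum_mem fun p _ => mul_mem (hkL _) (hωL p)) (hc v)

end Pool.Agent.Helper97.BD
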