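import Mathlib
import Pool.Agent.Helper97.BD.Defs

/-!
BD MODULE A4: transcendence degree bound (MP_1dc56d_ag, bounded degree). Notation: Defs.lean.

PROOF. Let T be as in HT. Let K = IntermediateField.adjoin k (S ∪ range ξ) (or work in Ω directly with the
algebraic closure of adjoin k S in Ω, an intermediate field L: all ξ v ∈ L, S ⊆ L and L is algebraic
over adjoin k S). The trdeg of L over k is at most S.card (a transcendence basis can be chosen inside
S: exists_isTranscendenceBasis_subset or Algebra.trdeg_le_of..., IsTranscendenceBasis.cardinalMk_eq),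
and the algebraically independent family (ξ v) for v in T in L has T.card ≤ trdeg
(AlgebraicIndependent.cardinalMk_le_trdeg or similar). So T.card ≤ S.card. Any route is fine.
-/

namespace Pool.Agent.Helper97.BD

open MvPolynomial

universe u

theorem HT.card_le {k : Type u} [Field k] {n : ℕ} {Ω : Type u} [Field Ω] [Algebra k Ω] {c : ℕ}
    {ξ : Fin n → Ω} (h : HT (k := k) c ξ) (S : Finset Ω)
    (hS : ∀ v, IsAlgebraic (IntermediateField.adjoin k (S : Set Ω)) (ξ v)) : n ≤ S.card + c := by
  classical
  obtain ⟨T, hT, hind⟩ := h
  have hSalg : ∀ v, IsAlgebraic (Algebra.adjoin k (S : Set Ω)) (ξ v) := fun v =>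
    IntermediateField.isAlgebraic_adjoin_iff.1 (hS v)
  set I : Set Ω := Set.range (fun v : T => ξ v) with hI
  have hIndep : (AlgebraicIndependent.matroid k Ω).Indep I := by
    rw [AlgebraicIndependent.matroid_indep_iff]
    exact hind.to_subtype_range
  have hcl : I ⊆ (AlgebraicIndependent.matroid k Ω).closure (S : Set Ω) := by
    rw [AlgebraicIndependent.matroid_closure_eq]
    rintro x ⟨v, rfl⟩
    exact hSalg v
  have h1 : I.encard ≤ (S : Set Ω).encard := by
    have h2 := hIndep.encard_le_eRk_of_subset hcl
    rw [Matroid.eRk_closure_eq] at h2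
    exact h2.trans (Matroid.eRk_le_encard _ _)
  have h3 : I.encard = T.card := by
    rw [hI, ← Set.image_univ, (AlgebraicIndependent.injective hind).encard_image, Set.encard_univ]
    simp
  rw [h3, Set.encard_coe_eq_coe_finsetCard] at h1
  have h4 : T.card ≤ S.card := by exact_mod_cast h1
  omega

end Pool.Agent.Helper97.BD
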