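import Mathlib
import Pool.Agent.Helper97.BD.Defs

/-!
BD MODULE UgA: derived forms (MP_1dc56d_ag, bounded degree). Notation: Defs.lean.

PROOF. ue e F is the polynomial F (x + ∑ r, u r • e r) in u over k[x], ug e F β its coefficient.
(ug_homog, general form) call Q : MvPolynomial ρ (MvPolynomial σ k) good of weight n if for all β,
coeff β Q = 0 when β.degree > n, and coeff β Q is homogeneous of degree n - β.degree when
β.degree ≤ n. Closed under sums and products (weights add, sums over antidiagonals), C (X v) and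
C (C a) * X r have weight 1, constants of k have weight 0. F is a sum of monomials of degree D.
(ug_zero) compose ue e with constantCoeff: MvPolynomial σ k → MvPolynomial σ k, the identity.
(ug_top) for β.degree > D it is 0 by the general form. For β.degree = D it is homogeneous of degree 0,
that is C of its value at x = 0; and MvPolynomial.map (constantCoeff or eval 0) (ue e F) = lsub e F = 0.
-/

namespace Pool.Agent.Helper97.BD

open MvPolynomial

universe u

/-- the coefficient of `u^β` is homogeneous of degree `n - β.degree` -/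
def ugAG {k : Type u} [Field k] {σ ρ : Type*} (n : ℕ) (Q : MvPolynomial ρ (MvPolynomial σ k)) :
    Prop := ∀ β : ρ →₀ ℕ, (n < β.degree → coeff β Q = 0) ∧
      (β.degree ≤ n → (coeff β Q).IsHomogeneous (n - β.degree))

theorem ugAG_sum {k : Type u} [Field k] {σ ρ ι : Type*} {n : ℕ} (s : Finset ι)
    (Q : ι → MvPolynomial ρ (MvPolynomial σ k)) (h : ∀ i ∈ s, ugAG n (Q i)) :
    ugAG n (∑ i ∈ s, Q i) := by
  intro β
  rw [coeff_sum]
  exact ⟨fun hβ => Finset.sum_eq_zero fun i hi => (h i hi β).1 hβ,
    fun hβ => IsHomogeneous.sum _ _ _ fun i hi => (h i hi β).2 hβ⟩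

theorem ugAG_add {k : Type u} [Field k] {σ ρ : Type*} {n : ℕ}
    {A B : MvPolynomial ρ (MvPolynomial σ k)} (hA : ugAG n A) (hB : ugAG n B) :
    ugAG n (A + B) := by
  intro β
  rw [coeff_add]
  exact ⟨fun hβ => by rw [(hA β).1 hβ, (hB β).1 hβ, add_zero],
    fun hβ => ((hA β).2 hβ).add ((hB β).2 hβ)⟩

theorem ugAG_mul {k : Type u} [Field k] {σ ρ : Type*} {m n : ℕ}
    {A B : MvPolynomial ρ (MvPolynomial σ k)} (hA : ugAG m A) (hB : ugAG n B) :
    ugAG (m + n) (A * B) := by
  classical
  intro β
  rw [coeff_mul]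
  have hdeg : ∀ p ∈ Finset.HasAntidiagonal.antidiagonal β, p.1.degree + p.2.degree = β.degree := by
    intro p hp
    rw [Finset.HasAntidiagonal.mem_antidiagonal] at hp
    rw [← hp, map_add]
  refine ⟨fun hβ => Finset.sum_eq_zero fun p hp => ?_,
    fun hβ => IsHomogeneous.sum _ _ _ fun p hp => ?_⟩
  · have h1 := hdeg p hp
    rcases Nat.lt_or_ge m p.1.degree with h2 | h2
    · rw [(hA p.1).1 h2, zero_mul]
    · rw [(hB p.2).1 (by omega), mul_zero]
  · have h1 := hdeg p hp
    rcases Nat.lt_or_ge m p.1.degree with h2 | h2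
    · rw [(hA p.1).1 h2, zero_mul]; exact isHomogeneous_zero _ _ _
    · rcases Nat.lt_or_ge n p.2.degree with h3 | h3
      · rw [(hB p.2).1 h3, mul_zero]; exact isHomogeneous_zero _ _ _
      · have h4 : m + n - β.degree = (m - p.1.degree) + (n - p.2.degree) := by omega
        rw [h4]
        exact ((hA p.1).2 h2).mul ((hB p.2).2 h3)

theorem ugAG_CC {k : Type u} [Field k] {σ ρ : Type*} (a : k) :
    ugAG 0 (C (C a) : MvPolynomial ρ (MvPolynomial σ k)) := by
  classical
  intro β
  rw [coeff_C]
  refine ⟨fun hβ => ?_, fun hβ => ?_⟩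
  · rw [if_neg]
    rintro rfl
    simp at hβ
  · rw [Nat.zero_sub]
    split_ifs
    · exact isHomogeneous_C _ _
    · exact isHomogeneous_zero _ _ _

theorem ugAG_one {k : Type u} [Field k] {σ ρ : Type*} :
    ugAG 0 (1 : MvPolynomial ρ (MvPolynomial σ k)) := by
  have := ugAG_CC (σ := σ) (ρ := ρ) (1 : k)
  simpa using this

theorem ugAG_CX {k : Type u} [Field k] {σ ρ : Type*} (v : σ) :
    ugAG 1 (C (X v) : MvPolynomial ρ (MvPolynomial σ k)) := by
  classical
  intro β
  rw [coeff_C]
  refine ⟨fun hβ => ?_, fun hβ => ?_⟩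
  · rw [if_neg]
    rintro rfl
    simp at hβ
  · split_ifs with h
    · rw [← h]
      simpa using isHomogeneous_X k v
    · exact isHomogeneous_zero _ _ _

theorem ugAG_X {k : Type u} [Field k] {σ ρ : Type*} (r : ρ) :
    ugAG 1 (X r : MvPolynomial ρ (MvPolynomial σ k)) := by
  classical
  intro β
  rw [coeff_X]
  refine ⟨fun hβ => ?_, fun hβ => ?_⟩
  · rw [if_neg]
    rintro rfl
    simp at hβ
  · split_ifs with h
    · rw [← h]
      simpa using isHomogeneous_one σ k
    · exact isHomogeneous_zero _ _ _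

theorem ugAG_pow {k : Type u} [Field k] {σ ρ : Type*} {m : ℕ}
    {A : MvPolynomial ρ (MvPolynomial σ k)} (hA : ugAG m A) (n : ℕ) :
    ugAG (m * n) (A ^ n) := by
  induction n with
  | zero => simpa using ugAG_one
  | succ n ih =>
    rw [pow_succ, Nat.mul_succ]
    exact ugAG_mul ih hA

theorem ugAG_prod {k : Type u} [Field k] {σ ρ ι : Type*} (s : Finset ι) (m : ι → ℕ)
    (Q : ι → MvPolynomial ρ (MvPolynomial σ k)) (h : ∀ i ∈ s, ugAG (m i) (Q i)) :
    ugAG (∑ i ∈ s, m i) (∏ i ∈ s, Q i) := by
  classical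
  induction s using Finset.induction_on with
  | empty => simpa using ugAG_one
  | insert i s hi ih =>
    rw [Finset.sum_insert hi, Finset.prod_insert hi]
    exact ugAG_mul (h i (Finset.mem_insert_self _ _))
      (ih fun j hj => h j (Finset.mem_insert_of_mem hj))

theorem ugAG_ue {k : Type u} [Field k] {σ ρ : Type*} [Fintype ρ] (e : ρ → σ → k)
    (F : MvPolynomial σ k) {D : ℕ} (hF : F.IsHomogeneous D) : ugAG D (ue e F) := by
  classical
  unfold ue
  rw [aeval_def, eval₂_eq]
  refine ugAG_sum _ _ fun m hm => ?_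
  have hD : ∑ i ∈ m.support, 1 * m i = D := by
    have h1 := hF (mem_support_iff.1 hm)
    rw [Finsupp.weight_apply] at h1
    simp only [Finsupp.sum, Pi.one_apply, smul_eq_mul, mul_one] at h1
    simpa using h1
  have h2 : ugAG (0 + ∑ i ∈ m.support, 1 * m i)
      (algebraMap k (MvPolynomial ρ (MvPolynomial σ k)) (coeff m F) *
        ∏ i ∈ m.support, (C (X i) + ∑ r, C (C (e r i)) * X r :
          MvPolynomial ρ (MvPolynomial σ k)) ^ m i) := by
    refine ugAG_mul (ugAG_CC _) (ugAG_prod _ _ _ fun i _ => ugAG_pow ?_ _)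
    refine ugAG_add (ugAG_CX _) (ugAG_sum _ _ fun r _ => ?_)
    have := ugAG_mul (ugAG_CC (σ := σ) (ρ := ρ) (e r i)) (ugAG_X (k := k) (σ := σ) r)
    simpa using this
  rw [zero_add, hD] at h2
  exact h2

theorem ug_homog {k : Type u} [Field k] {σ ρ : Type*} [Fintype ρ] (e : ρ → σ → k)
    (F : MvPolynomial σ k) {D : ℕ} (hF : F.IsHomogeneous D) (β : ρ →₀ ℕ) (hβ : β.degree ≤ D) :
    (ug e F β).IsHomogeneous (D - β.degree) :=
  (ugAG_ue e F hF β).2 hβ

theorem ug_zero {k : Type u} [Field k] {σ ρ : Type*} [Fintype ρ] (e : ρ → σ → k)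
    (F : MvPolynomial σ k) : ug e F 0 = F := by
  have h : (constantCoeff).comp
      (aeval (fun v => C (X v) + ∑ r, C (C (e r v)) * X r) : MvPolynomial σ k →ₐ[k]
        MvPolynomial ρ (MvPolynomial σ k)).toRingHom = RingHom.id (MvPolynomial σ k) := by
    apply MvPolynomial.ringHom_ext
    · intro a
      show constantCoeff (aeval _ (C a)) = C a
      rw [aeval_C]
      show constantCoeff (C (C a)) = C a
      rw [constantCoeff_C]
    · intro v
      show constantCoeff (aeval _ (X v)) = X v
      rw [aeval_X, map_add, constantCoeff_C, map_sum]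
      simp
  exact RingHom.congr_fun h F

theorem ug_top {k : Type u} [Field k] {σ ρ : Type*} [Fintype ρ] (e : ρ → σ → k)
    (F : MvPolynomial σ k) {D : ℕ} (hF : F.IsHomogeneous D) (he : lsub e F = 0) (β : ρ →₀ ℕ)
    (hβ : D ≤ β.degree) : ug e F β = 0 := by
  rcases hβ.lt_or_eq with h1 | h1
  · exact (ugAG_ue e F hF β).1 h1
  · have h2 := (ugAG_ue e F hF β).2 h1.symm.le
    rw [h1, Nat.sub_self] at h2
    have h3 : ug e F β = C (coeff 0 (ug e F β)) := by
      rw [← totalDegree_eq_zero_iff_eq_C]
      exact Nat.le_zero.1 h2.totalDegree_le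
    have h : (map constantCoeff).comp
        (aeval (fun v => C (X v) + ∑ r, C (C (e r v)) * X r) : MvPolynomial σ k →ₐ[k]
          MvPolynomial ρ (MvPolynomial σ k)).toRingHom = (lsub e).toRingHom := by
      apply MvPolynomial.ringHom_ext
      · intro a
        show map constantCoeff (aeval _ (C a)) = lsub e (C a)
        rw [aeval_C, lsub, aeval_C]
        show map constantCoeff (C (C a)) = C a
        rw [map_C, constantCoeff_C]
      · intro v
        show map constantCoeff (aeval _ (X v)) = lsub e (X v)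
        rw [aeval_X, lsub, aeval_X, map_add, map_sum, map_C, constantCoeff_X, C_0, zero_add]
        refine Finset.sum_congr rfl fun r _ => ?_
        rw [map_mul, map_C, map_X, constantCoeff_C]
    have h4 : coeff 0 (ug e F β) = 0 := by
      have h5 := RingHom.congr_fun h F
      have h6 : coeff β (map constantCoeff (ue e F)) = 0 := by
        refine (congrArg (coeff β) h5).trans ?_
        show coeff β (lsub e F) = 0
        rw [he, coeff_zero]
      rw [coeff_map] at h6
      exact h6
    rw [h3, h4, C_0]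

end Pool.Agent.Helper97.BD
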