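import Mathlib
import Pool.Agent.Helper97.BD.A3
import Pool.Agent.Helper97.BD.A4
import Pool.Agent.Helper97.BD.UgA
import Pool.Agent.Helper97.QW.Coords2

/-!
BD MODULE A5: existence of a good direction (MP_1dc56d_ag, bounded degree). Notation: Defs.lean.

PROOF. ρ = Fin (c+1) × Fin R, g (i, β) = aeval ξ (ug e (F i) β). Let Q be the set of all g p for p in Der
except the p = (i₀, single (a, r) 1), and Ω₀ = the algebraic closure in Ω of
IntermediateField.adjoin k Q, an algebraically closed intermediate field (Mathlib: algebraicClosure;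
IsAlgClosed instance, or build it). For each a : Fin (c+1) consider the polynomials over Ω₀ in the
variables Fin R, indexed by pairs (i, m) with 1 ≤ m < d i and not (i = i₀ and m = 1):
q (i, m) = ∑ β ∈ finsuppAntidiag m with support in the block a, g (i, β) • ∏ r, X r ^ β (a, r).
(index them by Σ i, Fin (d i), with the polynomial 0 for the excluded pairs.)
They vanish at 0 and there are at most ∑ i, d i < R of them, so by QW.exists_common_zero' over Ω₀
there is u a : Fin R → Ω₀ nonzero with q (i, m) (u a) = 0 for all (i, m). Put w a (a', r) = u a r if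
a' = a and 0 otherwise. Then the first family of sums in the statement is zero for w a (for β not
supported in the block a the product is 0). The last sum is
∑ r, g (i₀, single (a, r) 1) * u a r (degree one β are the singles; d i₀ ≥ 2).
CLAIM: for some a this is nonzero, and then w = w a works. Suppose it is 0 for all a. Choose
r a with u a (r a) nonzero. Let T = Der minus the c + 1 elements p a = (i₀, single (a, r a) 1)
(distinct), S the finite set of g p, p ∈ T, together with the b j of A3 (flat applied to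
G p = ug e (F p.1.1) p.1.2, degrees d p.1.1 - p.1.2.degree ≥ 1, homogeneous by UgA). S has at most
(card Der - (c+1)) + m elements with m + card Der = n. Let L be the algebraic closure in Ω of
adjoin k S. Ω₀ ≤ L (Q is contained in S). For each a the relation expresses
g (p a) = - (∑ over r ≠ r a of g (i₀, single (a, r) 1) * u a r) / u a (r a) ∈ L. So all g p ∈ L and all
b j ∈ L, so all ξ v ∈ L by flat, that is algebraic over adjoin k S, and HT.card_le gives
n ≤ S.card + c ≤ n - (c+1) + c, a contradiction.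
-/

namespace Pool.Agent.Helper97.BD

open MvPolynomial

universe u

/-- relative algebraic closure of the field generated by a set -/
noncomputable def A5_acl (k : Type u) [Field k] {Ω : Type u} [Field Ω] [Algebra k Ω]
    (S : Set Ω) : IntermediateField k Ω :=
  (algebraicClosure (IntermediateField.adjoin k S) Ω).restrictScalars k

section

variable {k : Type u} [Field k] {Ω : Type u} [Field Ω] [Algebra k Ω]

theorem A5_mem {S : Set Ω} {x : Ω} :
    x ∈ A5_acl k S ↔ IsAlgebraic (IntermediateField.adjoin k S) x := by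
  unfold A5_acl
  rw [IntermediateField.mem_restrictScalars, mem_algebraicClosure_iff]

theorem A5_subset {S : Set Ω} {x : Ω} (hx : x ∈ S) : x ∈ A5_acl k S := by
  rw [A5_mem]
  exact isAlgebraic_algebraMap (R := IntermediateField.adjoin k S) (A := Ω)
    ⟨x, IntermediateField.subset_adjoin k S hx⟩

theorem A5_closed {S : Set Ω} {x : Ω} (hx : IsAlgebraic (A5_acl k S) x) : x ∈ A5_acl k S := by
  have h1 : IsAlgebraic (algebraicClosure (IntermediateField.adjoin k S) Ω) x := hx
  rw [← mem_algebraicClosure_iff, algebraicClosure.algebraicClosure_eq_bot,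
    IntermediateField.mem_bot] at h1
  obtain ⟨y, rfl⟩ := h1
  exact y.2

instance A5_isAlgClosed [IsAlgClosed Ω] (S : Set Ω) : IsAlgClosed (A5_acl k S) := by
  have h1 : IsAlgClosed (algebraicClosure (IntermediateField.adjoin k S) Ω) :=
    IsAlgClosure.isAlgClosed (IntermediateField.adjoin k S)
  exact h1

theorem A5_le {S : Set Ω} {L : IntermediateField k Ω} (hL : ∀ x : Ω, IsAlgebraic L x → x ∈ L)
    (hS : ∀ x ∈ S, x ∈ L) : A5_acl k S ≤ L := by
  intro x hx
  rw [A5_mem] at hx
  apply hL
  have hle : IntermediateField.adjoin k S ≤ L := IntermediateField.adjoin_le_iff.2 hS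
  let _ : Algebra (IntermediateField.adjoin k S) L :=
    (IntermediateField.inclusion hle).toRingHom.toAlgebra
  have _ : IsScalarTower (IntermediateField.adjoin k S) L Ω :=
    IsScalarTower.of_algebraMap_eq fun _ => rfl
  exact hx.extendScalars (R := IntermediateField.adjoin k S) (S := L)
    (IntermediateField.inclusion_injective hle)

end

theorem A5_block {K : Type u} {Ω : Type u} [Field K] [IsAlgClosed K] [Field Ω] [Algebra K Ω]
    {c R : ℕ} {ι : Type} [Fintype ι] (d : ι → ℕ) (i₀ : ι) (hR : ∑ i, d i < R)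
    (g : ι → (Fin (c + 1) × Fin R →₀ ℕ) → Ω)
    (hgQ : ∀ i (m : ℕ) (β : Fin (c + 1) × Fin R →₀ ℕ), 1 ≤ m → m < d i →
      ¬(i = i₀ ∧ m = 1) → β.degree = m → ∃ x : K, algebraMap K Ω x = g i β)
    (a : Fin (c + 1)) : ∃ u : Fin R → K, u ≠ 0 ∧
      ∀ i m, 1 ≤ m → m < d i → ¬(i = i₀ ∧ m = 1) →
        ∑ β ∈ Finset.univ.finsuppAntidiag m,
          g i β * (β.prod fun q n => (if q.1 = a then algebraMap K Ω (u q.2) else 0) ^ n) = 0 := by
  classical
  have hdeg : ∀ (m : ℕ) (β : Fin (c + 1) × Fin R →₀ ℕ),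
      β ∈ (Finset.univ : Finset (Fin (c + 1) × Fin R)).finsuppAntidiag m ↔ β.degree = m := by
    intro m β
    rw [Finset.mem_finsuppAntidiag, Finsupp.degree_eq_sum]
    simp
  obtain ⟨γ, hγ⟩ : ∃ γ : ι → (Fin (c + 1) × Fin R →₀ ℕ) → K, ∀ i (m : ℕ)
      (β : Fin (c + 1) × Fin R →₀ ℕ), 1 ≤ m → m < d i →
      ¬(i = i₀ ∧ m = 1) → β.degree = m → algebraMap K Ω (γ i β) = g i β := by
    refine ⟨fun i β => if h : ∃ x : K, algebraMap K Ω x = g i β then h.choose else 0, ?_⟩
    intro i m β h1 h2 h3 h4
    have h := hgQ i m β h1 h2 h3 h4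
    dsimp only
    rw [dif_pos h]
    exact h.choose_spec
  let q : (Σ i, Fin (d i)) → MvPolynomial (Fin R) K := fun im =>
    if 1 ≤ (im.2 : ℕ) ∧ ¬(im.1 = i₀ ∧ (im.2 : ℕ) = 1) then
      ∑ β ∈ (Finset.univ : Finset (Fin (c + 1) × Fin R)).finsuppAntidiag (im.2 : ℕ),
        C (γ im.1 β) * (β.prod fun q n => (if q.1 = a then X q.2 else 0) ^ n)
    else 0
  obtain ⟨u, hu0, hu1⟩ := Pool.Agent.Helper97.QW.exists_common_zero' (k := K)
    (σ := Fin R) (ι := Σ i, Fin (d i)) (by simpa using hR) q (by
      intro im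
      simp only [q]
      split_ifs with h
      · rw [map_sum]
        refine Finset.sum_eq_zero fun β hβ => ?_
        rw [map_mul, map_finsuppProd]
        rw [hdeg] at hβ
        obtain ⟨s, hs⟩ : ∃ s, β s ≠ 0 := by
          by_contra hcon
          push Not at hcon
          have h1 : β = 0 := Finsupp.ext hcon
          rw [h1, map_zero] at hβ
          omega
        have h2 : (β.prod fun q n => (eval (0 : Fin R → K))
            ((if q.1 = a then X q.2 else 0) ^ n)) = 0 := by
          refine Finset.prod_eq_zero (Finsupp.mem_support_iff.2 hs) ?_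
          change (eval (0 : Fin R → K)) ((if s.1 = a then X s.2 else 0) ^ (β s)) = 0
          rw [map_pow]
          split_ifs
          · rw [eval_X, Pi.zero_apply, zero_pow hs]
          · rw [map_zero, zero_pow hs]
        rw [h2, mul_zero]
      · rw [map_zero])
  refine ⟨u, hu0, fun i m hm hmd hne => ?_⟩
  have h1 := hu1 ⟨i, ⟨m, hmd⟩⟩
  simp only [q] at h1
  rw [if_pos ⟨hm, hne⟩, map_sum] at h1
  have h2 := congrArg (algebraMap K Ω) h1
  rw [map_zero, map_sum] at h2
  refine Eq.trans (Finset.sum_congr rfl fun β hβ => ?_) h2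
  rw [hdeg] at hβ
  rw [map_mul, eval_C, map_mul, map_finsuppProd, map_finsuppProd, hγ i m β hm hmd hne hβ]
  congr 1
  refine Finsupp.prod_congr fun q _ => ?_
  rw [map_pow, map_pow]
  congr 1
  split_ifs
  · rw [eval_X]
  · rw [map_zero, map_zero]

theorem exists_dir {k : Type u} [Field k] {n c R : ℕ} {ι : Type} [Fintype ι] (d : ι → ℕ)
    (hd : ∀ i, 1 ≤ d i) (i₀ : ι) (h2 : 2 ≤ d i₀) (hR : ∑ i, d i < R)
    (F : ι → MvPolynomial (Fin n) k) (hF : ∀ i, (F i).IsHomogeneous (d i))
    (e : Fin (c + 1) × Fin R → Fin n → k) (he : ∀ i, lsub e (F i) = 0)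
    [Fintype (Der d i₀ (Fin (c + 1) × Fin R))]
    (A : Der d i₀ (Fin (c + 1) × Fin R) → Fin n → k)
    (hA : ∀ p : Der d i₀ (Fin (c + 1) × Fin R),
      lsub A (ug e (F p.1.1) p.1.2) = X p ^ (d p.1.1 - p.1.2.degree))
    {Ω : Type u} [Field Ω] [IsAlgClosed Ω] [Algebra k Ω] (ξ : Fin n → Ω) (hξ : HT (k := k) c ξ) :
    ∃ w : Fin (c + 1) × Fin R → Ω, w ≠ 0 ∧
      (∀ i m, 1 ≤ m → m < d i → ¬(i = i₀ ∧ m = 1) →
        ∑ β ∈ Finset.univ.finsuppAntidiag m,
          aeval ξ (ug e (F i) β) * (β.prod fun r a => w r ^ a) = 0) ∧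
      ∑ β ∈ Finset.univ.finsuppAntidiag 1,
          aeval ξ (ug e (F i₀) β) * (β.prod fun r a => w r ^ a) ≠ 0 := by
  classical
  have hdeg : ∀ (m : ℕ) (β : Fin (c + 1) × Fin R →₀ ℕ),
      β ∈ (Finset.univ : Finset (Fin (c + 1) × Fin R)).finsuppAntidiag m ↔ β.degree = m := by
    intro m β
    rw [Finset.mem_finsuppAntidiag, Finsupp.degree_eq_sum]
    simp
  obtain ⟨g, hg⟩ : ∃ g : ι → (Fin (c + 1) × Fin R →₀ ℕ) → Ω, ∀ i β,
      g i β = aeval ξ (ug e (F i) β) := ⟨_, fun i β => rfl⟩
  simp only [← hg]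
  set Q : Set Ω := {x | ∃ p : Der d i₀ (Fin (c + 1) × Fin R),
    (¬ ∃ q, p.1 = (i₀, Finsupp.single q 1)) ∧ x = g p.1.1 p.1.2} with hQ
  have hgQ : ∀ i (m : ℕ) (β : Fin (c + 1) × Fin R →₀ ℕ), 1 ≤ m → m < d i →
      ¬(i = i₀ ∧ m = 1) → β.degree = m → g i β ∈ A5_acl k Q := by
    intro i m β hm hmd hne hβ
    refine A5_subset ⟨⟨(i, β), by dsimp only; omega, ?_⟩, ?_, rfl⟩
    · intro h
      have h1 : β = 0 := congrArg Prod.snd h
      rw [h1, map_zero] at hβ
      omega
    · rintro ⟨q, hq⟩
      apply hne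
      refine ⟨congrArg Prod.fst hq, ?_⟩
      have h1 : β = Finsupp.single q 1 := congrArg Prod.snd hq
      rw [← hβ, h1, Finsupp.degree_single]
  -- the direction in the block `a`
  have hu : ∀ a : Fin (c + 1), ∃ u : Fin R → A5_acl k Q, u ≠ 0 ∧
      ∀ i m, 1 ≤ m → m < d i → ¬(i = i₀ ∧ m = 1) →
        ∑ β ∈ Finset.univ.finsuppAntidiag m,
          g i β * (β.prod fun q n => (if q.1 = a then (u q.2 : Ω) else 0) ^ n) = 0 :=
    fun a => A5_block d i₀ hR g (fun i m β h1 h2 h3 h4 =>
      ⟨⟨g i β, hgQ i m β h1 h2 h3 h4⟩, rfl⟩) a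
  choose u hu0 hu1 using hu
  by_contra hcon
  -- all the linear sums vanish
  have hlin : ∀ a : Fin (c + 1), ∑ r : Fin R, g i₀ (Finsupp.single (a, r) 1) * (u a r : Ω) = 0 := by
    intro a
    by_contra hne
    apply hcon
    refine ⟨fun q => if q.1 = a then (u a q.2 : Ω) else 0, ?_, hu1 a, ?_⟩
    · intro h0
      apply hu0 a
      funext r
      have h1 := congrFun h0 (a, r)
      dsimp only at h1
      rw [if_pos rfl] at h1
      exact Subtype.ext h1
    · have h1 : ∑ β ∈ (Finset.univ : Finset (Fin (c + 1) × Fin R)).finsuppAntidiag 1,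
          g i₀ β * (β.prod fun q n => (if q.1 = a then (u a q.2 : Ω) else 0) ^ n) =
          ∑ q : Fin (c + 1) × Fin R, g i₀ (Finsupp.single q 1) *
            (if q.1 = a then (u a q.2 : Ω) else 0) := by
        symm
        refine Finset.sum_bij (fun q _ => Finsupp.single q 1) (fun q _ => ?_) (fun q _ q' _ h => ?_)
          (fun β hβ => ?_) (fun q _ => ?_)
        · rw [hdeg, Finsupp.degree_single]
        · exact (Finsupp.single_left_injective one_ne_zero) h
        · rw [hdeg] at hβ
          obtain ⟨q, hq⟩ := (Finsupp.sum_eq_one_iff β).1 hβ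
          exact ⟨q, Finset.mem_univ _, hq.symm⟩
        · have h6 : ((Finsupp.single q 1).prod
              fun q n => (if q.1 = a then (u a q.2 : Ω) else 0) ^ n) =
              (if q.1 = a then (u a q.2 : Ω) else 0) ^ 1 := Finsupp.prod_single_index (pow_zero _)
          rw [h6, pow_one]
      rw [h1, Fintype.sum_prod_type, Finset.sum_eq_single_of_mem a (Finset.mem_univ a)
        (fun a' _ ha' => by simp [ha'])]
      simpa using hne
  have hr : ∀ a, ∃ r, u a r ≠ 0 := by
    intro a
    by_contra h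
    push Not at h
    exact hu0 a (funext h)
  choose r hr using hr
  let pa : Fin (c + 1) → Der d i₀ (Fin (c + 1) × Fin R) := fun a =>
    ⟨(i₀, Finsupp.single (a, r a) 1), by
      dsimp only
      rw [Finsupp.degree_single]
      omega, by
      intro h
      have h1 := congrArg Prod.snd h
      dsimp only at h1
      exact one_ne_zero (Finsupp.single_eq_zero.1 h1)⟩
  have hpa : Function.Injective pa := by
    intro a a' h
    have h1 : Finsupp.single (a, r a) 1 = Finsupp.single (a', r a') 1 :=
      congrArg (fun p : Der d i₀ (Fin (c + 1) × Fin R) => p.1.2) h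
    exact congrArg Prod.fst (Finsupp.single_left_injective one_ne_zero h1)
  obtain ⟨m, b, hm, hflat⟩ := flat (fun p : Der d i₀ (Fin (c + 1) × Fin R) =>
      d p.1.1 - p.1.2.degree) (fun p => by have := p.2.1; omega)
    (fun p => ug e (F p.1.1) p.1.2) (fun p => ug_homog e (F p.1.1) (hF p.1.1) p.1.2 p.2.1.le)
    A hA ξ
  let S : Finset Ω := ((Finset.univ \ Finset.univ.image pa).image (fun p => g p.1.1 p.1.2)) ∪
    Finset.univ.image b
  have hScard : S.card + (c + 1) ≤ Fintype.card (Der d i₀ (Fin (c + 1) × Fin R)) + m := by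
    have h1 : S.card ≤ _ := Finset.card_union_le _ _
    have h2 := Finset.card_image_le (s := Finset.univ \ Finset.univ.image pa)
      (f := fun p : Der d i₀ (Fin (c + 1) × Fin R) => g p.1.1 p.1.2)
    have h3 := Finset.card_image_le (s := (Finset.univ : Finset (Fin m))) (f := b)
    have h4 := Finset.card_sdiff_add_card_eq_card (Finset.subset_univ (Finset.univ.image pa))
    rw [Finset.card_image_of_injective _ hpa, Finset.card_univ, Finset.card_univ,
      Fintype.card_fin] at h4
    rw [Finset.card_univ, Fintype.card_fin] at h3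
    omega
  have hSL : ∀ p : Der d i₀ (Fin (c + 1) × Fin R), (∀ a, p ≠ pa a) →
      g p.1.1 p.1.2 ∈ A5_acl k (S : Set Ω) := by
    intro p hp
    refine A5_subset (Finset.mem_coe.2 (Finset.mem_union_left _ (Finset.mem_image.2 ⟨p, ?_, rfl⟩)))
    rw [Finset.mem_sdiff]
    refine ⟨Finset.mem_univ _, fun h => ?_⟩
    obtain ⟨a, -, ha⟩ := Finset.mem_image.1 h
    exact hp a ha.symm
  have hQL : A5_acl k Q ≤ A5_acl k (S : Set Ω) := by
    refine A5_le (fun x hx => A5_closed hx) ?_
    rintro x ⟨p, hp, rfl⟩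
    refine hSL p fun a ha => hp ⟨(a, r a), ?_⟩
    rw [ha]
  have hpaL : ∀ a, g i₀ (Finsupp.single (a, r a) 1) ∈ A5_acl k (S : Set Ω) := by
    intro a
    have h1 := hlin a
    rw [← Finset.add_sum_erase _ _ (Finset.mem_univ (r a))] at h1
    have h2 : ∑ r' ∈ Finset.univ.erase (r a), g i₀ (Finsupp.single (a, r') 1) * (u a r' : Ω) ∈
        A5_acl k (S : Set Ω) := by
      refine sum_mem fun r' hr' => mul_mem ?_ (hQL (u a r').2)
      have h3 := hSL ⟨(i₀, Finsupp.single (a, r') 1), by
        dsimp only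
        rw [Finsupp.degree_single]
        omega, by
        intro h
        have h1 := congrArg Prod.snd h
        dsimp only at h1
        exact one_ne_zero (Finsupp.single_eq_zero.1 h1)⟩ (by
        intro a' ha'
        have h4 : Finsupp.single (a, r') 1 = Finsupp.single (a', r a') 1 :=
          congrArg (fun p : Der d i₀ (Fin (c + 1) × Fin R) => p.1.2) ha'
        have h5 := Finsupp.single_left_injective one_ne_zero h4
        obtain ⟨rfl, h6⟩ := Prod.mk.inj h5
        exact (Finset.ne_of_mem_erase hr') h6)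
      exact h3
    have h3 : (u a (r a) : Ω) ≠ 0 := fun h => hr a (Subtype.ext h)
    have h4 : g i₀ (Finsupp.single (a, r a) 1) =
        -(∑ r' ∈ Finset.univ.erase (r a), g i₀ (Finsupp.single (a, r') 1) * (u a r' : Ω)) /
          (u a (r a) : Ω) := by
      rw [eq_div_iff h3]
      exact eq_neg_of_add_eq_zero_left h1
    rw [h4]
    exact div_mem (neg_mem h2) (hQL (u a (r a)).2)
  have hξL : ∀ v, ξ v ∈ A5_acl k (S : Set Ω) := by
    refine hflat _ (fun x hx => A5_closed hx) (fun p => ?_) (fun j => ?_)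
    · rw [← hg]
      by_cases hp : ∃ a, p = pa a
      · obtain ⟨a, rfl⟩ := hp
        exact hpaL a
      · push Not at hp
        exact hSL p hp
    · exact A5_subset (Finset.mem_coe.2 (Finset.mem_union_right _
        (Finset.mem_image_of_mem b (Finset.mem_univ j))))
  have hfin := hξ.card_le S (fun v => A5_mem.1 (hξL v))
  omega

end Pool.Agent.Helper97.BD
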