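import Mathlib
import Pool.Agent.Helper97.BD.UgA

/-!
BD MODULE UgB: expansion along a line in the direction of the subspace (MP_1dc56d_ag, bounded degree). Notation: Defs.lean.

PROOF. Let Y : MvPolynomial ρ O be MvPolynomial.map (aeval y) (ue e F); then
aeval (fun r => τ * w r) Y (or eval₂) is aeval (fun v => y v + τ * ∑ r, w r * algebraMap k O (e r v)) F
(compare algebra homs on X v). On the other hand the value of Y is the sum over β in its support of
coeff β Y * ∏ r, (τ * w r) ^ β r, where coeff β Y = aeval y (ug e F β), which is 0 for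
β.degree ≥ D by ug_top; so the sum may be taken over the disjoint union over m < D of the sets
Finset.univ.finsuppAntidiag m (= all β of degree m, Finset.mem_finsuppAntidiag), and
β.prod (fun r a => (τ * w r) ^ a) = τ ^ m * β.prod (fun r a => w r ^ a).
-/

namespace Pool.Agent.Helper97.BD

open MvPolynomial

universe u

theorem UgB_hom {k : Type u} [Field k] {σ ρ : Type*} [Fintype ρ] (e : ρ → σ → k)
    (F : MvPolynomial σ k) {O : Type*} [CommRing O] [Algebra k O] (y : σ → O) (w : ρ → O)
    (τ : O) :
    eval₂ ((aeval y : MvPolynomial σ k →ₐ[k] O) : MvPolynomial σ k →+* O)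
      (fun r => τ * w r) (ue e F) =
      aeval (fun v => y v + τ * ∑ r, w r * algebraMap k O (e r v)) F := by
  induction F using MvPolynomial.induction_on with
  | C a =>
    have h1 : ue e (C a) = C (C a) := by
      rw [ue, aeval_C]
      rfl
    rw [h1, eval₂_C, RingHom.coe_coe, aeval_C, aeval_C]
  | add p q hp hq =>
    have h1 : ue e (p + q) = ue e p + ue e q := by
      rw [ue, map_add]
      rfl
    rw [h1, eval₂_add, hp, hq, map_add]
  | mul_X p v hp =>
    have h1 : ue e (p * X v) = ue e p * (C (X v) + ∑ r, C (C (e r v)) * X r) := by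
      rw [ue, map_mul, aeval_X]
      rfl
    rw [h1, eval₂_mul, hp, map_mul, aeval_X]
    congr 1
    rw [eval₂_add, eval₂_C, eval₂_sum, RingHom.coe_coe, aeval_X]
    congr 1
    rw [Finset.mul_sum]
    refine Finset.sum_congr rfl fun r _ => ?_
    rw [eval₂_mul, eval₂_C, eval₂_X, RingHom.coe_coe, aeval_C]
    ring

theorem ug_line {k : Type u} [Field k] {σ ρ : Type*} [Fintype ρ] [DecidableEq ρ] (e : ρ → σ → k)
    (F : MvPolynomial σ k) {D : ℕ} (hF : F.IsHomogeneous D) (he : lsub e F = 0)
    {O : Type*} [CommRing O] [Algebra k O] (y : σ → O) (w : ρ → O) (τ : O) :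
    aeval (fun v => y v + τ * ∑ r, w r * algebraMap k O (e r v)) F =
      ∑ m ∈ Finset.range D, τ ^ m * ∑ β ∈ Finset.univ.finsuppAntidiag m,
        aeval y (ug e F β) * β.prod fun r a => w r ^ a := by
  rw [← UgB_hom, eval₂_eq']
  have h1 : ∀ m ∈ Finset.range D, τ ^ m * ∑ β ∈ Finset.univ.finsuppAntidiag m,
      aeval y (ug e F β) * (β.prod fun r a => w r ^ a) =
      ∑ β ∈ Finset.univ.finsuppAntidiag m, aeval y (ug e F β) * ∏ r, (τ * w r) ^ β r := by
    intro m _
    rw [Finset.mul_sum]
    refine Finset.sum_congr rfl fun β hβ => ?_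
    rw [Finset.mem_finsuppAntidiag] at hβ
    have h2 : (β.prod fun r a => w r ^ a) = ∏ r, w r ^ β r :=
      Finsupp.prod_fintype _ _ (fun r => pow_zero _)
    have h3 : ∏ r, (τ * w r) ^ β r = τ ^ m * ∏ r, w r ^ β r := by
      rw [← hβ.1, ← Finset.prod_pow_eq_pow_sum, ← Finset.prod_mul_distrib]
      exact Finset.prod_congr rfl fun r _ => mul_pow _ _ _
    rw [h2, h3]
    ring
  rw [Finset.sum_congr rfl h1]
  have hdisj : ∀ m ∈ Finset.range D, ∀ m' ∈ Finset.range D, m ≠ m' →
      Disjoint ((Finset.univ : Finset ρ).finsuppAntidiag m)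
        ((Finset.univ : Finset ρ).finsuppAntidiag m') := by
    intro m _ m' _ hmm
    rw [Finset.disjoint_left]
    intro β h2 h3
    rw [Finset.mem_finsuppAntidiag] at h2 h3
    exact hmm (h2.1.symm.trans h3.1)
  rw [← Finset.sum_biUnion (fun m hm m' hm' h => hdisj m hm m' hm' h)]
  refine Finset.sum_subset ?_ ?_
  · intro β hβ
    rw [Finset.mem_biUnion]
    refine ⟨β.degree, ?_, ?_⟩
    · rw [Finset.mem_range]
      by_contra hcon
      exact (mem_support_iff.1 hβ) (ug_top e F hF he β (not_lt.1 hcon))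
    · rw [Finset.mem_finsuppAntidiag]
      exact ⟨(Finsupp.degree_eq_sum β).symm, Finset.subset_univ _⟩
  · intro β _ hβ
    rw [notMem_support_iff] at hβ
    rw [hβ, map_zero, zero_mul]

end Pool.Agent.Helper97.BD
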