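import Mathlib
import Pool.Agent.Helper97.BD.UgB

/-!
BD MODULE A6: the lifting step (MP_1dc56d_ag, bounded degree). Notation: Defs.lean.

PROOF. Let Ω, ξ, O, π, p be as in LP. Take w from hdir and r₀ with w r₀ nonzero. Choose a section
s : Ω → O of π with s 0 = 0. w' r = s (w r); w' r₀ is a unit, with inverse v. For i and m put
cc i m = ∑ β ∈ Finset.univ.finsuppAntidiag m, s (aeval ξ (ug e (F i) β)) * β.prod (fun r a => w' r ^ a);
then π (cc i m) is the sum in hdir, so it is 0 for 1 ≤ m < d i unless (i, m) = (i₀, 1), and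
μ = cc i₀ 1 is a unit. Define P (i, β) : O for β nonzero by s (aeval ξ (ug e (F i) β)) minus, if
β = single r₀ m with m ≥ 1 and not (i = i₀ and m = 1), the term cc i m * v ^ m. Then
π (P (i, β)) = aeval ξ (ug e (F i) β), and for 1 ≤ m < d i
∑ β ∈ finsuppAntidiag m, P (i, β) * β.prod (fun r a => w' r ^ a) = cc i m - cc i m * v^m * w' r₀ ^ m = 0
unless (i, m) = (i₀, 1), where it is μ. Apply hG to ξ, O, π and the values P (i, β) for β nonzero, p i for
(i, 0), i ≠ i₀ (ug_zero: ug e (F i) 0 = F i). We get y : Fin n → O with π y = ξ,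
aeval y (ug e (F i) β) = P (i, β) for β nonzero of degree < d i and aeval y (F i) = p i for i ≠ i₀. For τ : O let
x v = y v + τ * ∑ r, w' r * algebraMap k O (e r v). By ug_line (sum over m < d i; the term m = 0 is
aeval y (F i), finsuppAntidiag 0 = {0}) aeval x (F i) = aeval y (F i) = p i for i ≠ i₀ and
aeval x (F i₀) = aeval y (F i₀) + τ * μ. Take τ = μ⁻¹ * (p i₀ - aeval y (F i₀)); π τ = 0 since
π (p i₀) = aeval ξ (F i₀) = π (aeval y (F i₀)). So π (x v) = ξ v.
-/

namespace Pool.Agent.Helper97.BD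

open MvPolynomial

universe u

theorem lp_step {k : Type u} [Field k] {n c : ℕ} {ι ρ : Type} [Finite ι] [Fintype ρ]
    [DecidableEq ρ] (d : ι → ℕ) (hd : ∀ i, 1 ≤ d i) (i₀ : ι) (h2 : 2 ≤ d i₀)
    (F : ι → MvPolynomial (Fin n) k) (hF : ∀ i, (F i).IsHomogeneous (d i))
    (e : ρ → Fin n → k) (he : ∀ i, lsub e (F i) = 0)
    (hG : LP c (fun p : Der d i₀ ρ => ug e (F p.1.1) p.1.2))
    (hdir : ∀ (Ω : Type u) [Field Ω] [IsAlgClosed Ω] [Algebra k Ω] (ξ : Fin n → Ω),
      HT (k := k) c ξ → ∃ w : ρ → Ω, w ≠ 0 ∧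
      (∀ i m, 1 ≤ m → m < d i → ¬(i = i₀ ∧ m = 1) →
        ∑ β ∈ Finset.univ.finsuppAntidiag m,
          aeval ξ (ug e (F i) β) * (β.prod fun r a => w r ^ a) = 0) ∧
      ∑ β ∈ Finset.univ.finsuppAntidiag 1,
          aeval ξ (ug e (F i₀) β) * (β.prod fun r a => w r ^ a) ≠ 0) :
    LP c F := by
  classical
  intro Ω _ _ _ ξ hξ O _ _ π hπ hunit p hp
  obtain ⟨w, hw0, hw1, hw2⟩ := hdir Ω ξ hξ
  obtain ⟨r₀, hr₀⟩ : ∃ r, w r ≠ 0 := by
    by_contra h
    push Not at h
    exact hw0 (funext h)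
  obtain ⟨s, hs⟩ := hπ.hasRightInverse
  obtain ⟨w', hw'⟩ : ∃ w' : ρ → O, ∀ r, π (w' r) = w r := ⟨fun r => s (w r), fun r => hs _⟩
  obtain ⟨v, hv⟩ : ∃ v, w' r₀ * v = 1 :=
    (hunit (w' r₀) (by rw [hw']; exact hr₀)).exists_right_inv
  obtain ⟨cc, hcc⟩ : ∃ cc : ι → ℕ → O, ∀ i m, cc i m = ∑ β ∈ Finset.univ.finsuppAntidiag m,
      s (aeval ξ (ug e (F i) β)) * β.prod fun r a => w' r ^ a := ⟨_, fun i m => rfl⟩
  have hπcc : ∀ i m, π (cc i m) = ∑ β ∈ Finset.univ.finsuppAntidiag m,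
      aeval ξ (ug e (F i) β) * (β.prod fun r a => w r ^ a) := by
    intro i m
    rw [hcc, map_sum]
    refine Finset.sum_congr rfl fun β _ => ?_
    rw [map_mul, hs, map_finsuppProd]
    simp only [map_pow, hw']
  have hdeg : ∀ (m : ℕ) (β : ρ →₀ ℕ), β ∈ Finset.univ.finsuppAntidiag m ↔ β.degree = m := by
    intro m β
    rw [Finset.mem_finsuppAntidiag, Finsupp.degree_eq_sum]
    simp
  obtain ⟨P, hP⟩ : ∃ P : ι → (ρ →₀ ℕ) → O, ∀ i β, P i β = s (aeval ξ (ug e (F i) β)) -
      if β = Finsupp.single r₀ β.degree ∧ ¬(i = i₀ ∧ β.degree = 1) then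
        cc i β.degree * v ^ β.degree else 0 := ⟨_, fun i β => rfl⟩
  -- the values reduce correctly
  have hπP : ∀ i β, β ≠ 0 → β.degree < d i → π (P i β) = aeval ξ (ug e (F i) β) := by
    intro i β hβ hβd
    rw [hP, map_sub, hs]
    split_ifs with h
    · have h1 : 1 ≤ β.degree := by
        rw [Nat.one_le_iff_ne_zero]
        intro h2
        rw [Finsupp.degree_eq_zero_iff] at h2
        exact hβ h2
      rw [map_mul, hπcc, hw1 i β.degree h1 hβd h.2, zero_mul, sub_zero]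
    · rw [map_zero, sub_zero]
  -- the sums
  have hsum : ∀ i m, 1 ≤ m → m < d i → ∑ β ∈ Finset.univ.finsuppAntidiag m,
      P i β * (β.prod fun r a => w' r ^ a) = if i = i₀ ∧ m = 1 then cc i m else 0 := by
    intro i m hm hmd
    have h1 : ∑ β ∈ Finset.univ.finsuppAntidiag m, P i β * (β.prod fun r a => w' r ^ a) =
        cc i m - ∑ β ∈ Finset.univ.finsuppAntidiag m,
          (if β = Finsupp.single r₀ m ∧ ¬(i = i₀ ∧ m = 1) then cc i m * v ^ m else 0) *
            β.prod fun r a => w' r ^ a := by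
      rw [hcc i m, ← Finset.sum_sub_distrib]
      refine Finset.sum_congr rfl fun β hβ => ?_
      rw [hdeg] at hβ
      rw [hP, hβ, sub_mul, hcc i m]
    rw [h1]
    have h2 : Finsupp.single r₀ m ∈ (Finset.univ : Finset ρ).finsuppAntidiag m := by
      rw [hdeg]
      simp
    rw [Finset.sum_eq_single_of_mem _ h2 (fun β _ hne => by
      rw [if_neg (fun h => hne h.1), zero_mul])]
    have h6 : ((Finsupp.single r₀ m).prod fun r a => w' r ^ a) = w' r₀ ^ m :=
      Finsupp.prod_single_index (pow_zero _)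
    rw [h6]
    split_ifs with h3 h4 h4
    · exact absurd h4 h3.2
    · have h5 : v ^ m * w' r₀ ^ m = 1 := by rw [← mul_pow, mul_comm, hv, one_pow]
      rw [mul_assoc, h5, mul_one, sub_self]
    · rw [zero_mul, sub_zero]
    · exact absurd ⟨rfl, h4⟩ h3
  -- apply the hypothesis on the derived gates
  obtain ⟨y, hy1, hy2⟩ := hG Ω ξ hξ O π hπ hunit
    (fun q => if q.1.2 = 0 then p q.1.1 else P q.1.1 q.1.2) (by
      rintro ⟨⟨i, β⟩, hβ1, hβ2⟩
      dsimp only
      split_ifs with h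
      · rw [h, ug_zero]
        exact hp i
      · exact hπP i β h hβ1)
  have hyP : ∀ i β, β ≠ 0 → β.degree < d i → aeval y (ug e (F i) β) = P i β := by
    intro i β h1 h2
    have h3 := hy1 ⟨(i, β), h2, fun h => h1 (congrArg Prod.snd h)⟩
    dsimp only at h3
    rwa [if_neg h1] at h3
  have hy0 : ∀ i, i ≠ i₀ → aeval y (F i) = p i := by
    intro i hi
    have h3 := hy1 ⟨(i, 0), by simpa using Nat.lt_of_lt_of_le Nat.zero_lt_one (hd i),
      fun h => hi (congrArg Prod.fst h)⟩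
    dsimp only at h3
    rwa [if_pos rfl, ug_zero] at h3
  have hμ : IsUnit (cc i₀ 1) := hunit _ (by rw [hπcc]; exact hw2)
  obtain ⟨μ', hμ'⟩ := hμ.exists_right_inv
  obtain ⟨τ, hτ⟩ : ∃ τ, τ = μ' * (p i₀ - aeval y (F i₀)) := ⟨_, rfl⟩
  have hπτ : π τ = 0 := by
    have h1 : π (aeval y (F i₀)) = aeval ξ (F i₀) := by
      rw [comp_aeval_apply]
      simp only [hy2]
    rw [hτ, map_mul, map_sub, h1, hp, sub_self, mul_zero]
  have hline : ∀ i, aeval (fun v => y v + τ * ∑ r, w' r * algebraMap k O (e r v)) (F i) =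
      aeval y (F i) + if i = i₀ then τ * cc i₀ 1 else 0 := by
    intro i
    rw [ug_line e (F i) (hF i) (he i) y w' τ]
    obtain ⟨D, hD⟩ : ∃ D, d i = D + 1 := ⟨d i - 1, by have := hd i; omega⟩
    rw [hD, Finset.sum_range_succ', Finset.finsuppAntidiag_zero, Finset.sum_singleton, ug_zero,
      pow_zero, one_mul, Finsupp.prod_zero_index, mul_one, add_comm]
    congr 1
    have h1 : ∀ m ∈ Finset.range D, τ ^ (m + 1) * ∑ β ∈ Finset.univ.finsuppAntidiag (m + 1),
        aeval y (ug e (F i) β) * (β.prod fun r a => w' r ^ a) =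
        if i = i₀ ∧ m = 0 then τ * cc i₀ 1 else 0 := by
      intro m hm
      rw [Finset.mem_range] at hm
      have h2 : ∑ β ∈ Finset.univ.finsuppAntidiag (m + 1),
          aeval y (ug e (F i) β) * (β.prod fun r a => w' r ^ a) =
          ∑ β ∈ Finset.univ.finsuppAntidiag (m + 1), P i β * (β.prod fun r a => w' r ^ a) := by
        refine Finset.sum_congr rfl fun β hβ => ?_
        rw [hdeg] at hβ
        rw [hyP i β (fun h => by rw [h, map_zero] at hβ; omega) (by omega)]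
      rw [h2, hsum i (m + 1) (by omega) (by omega)]
      by_cases h3 : i = i₀ ∧ m = 0
      · obtain ⟨rfl, rfl⟩ := h3
        simp
      · rw [if_neg h3, if_neg (fun h => h3 ⟨h.1, by omega⟩), mul_zero]
    rw [Finset.sum_congr rfl h1]
    by_cases h4 : i = i₀
    · have h5 : 0 ∈ Finset.range D := by
        rw [Finset.mem_range]
        rw [h4] at hD
        omega
      rw [if_pos h4, Finset.sum_eq_single_of_mem 0 h5 (fun m _ hm => by
        rw [if_neg (fun h => hm h.2)]), if_pos ⟨h4, rfl⟩]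
    · rw [if_neg h4]
      exact Finset.sum_eq_zero fun m _ => if_neg fun h => h4 h.1
  refine ⟨fun v => y v + τ * ∑ r, w' r * algebraMap k O (e r v), fun i => ?_, fun v => ?_⟩
  · rw [hline i]
    by_cases hi : i = i₀
    · rw [if_pos hi, hi, hτ]
      have h1 : μ' * (p i₀ - aeval y (F i₀)) * cc i₀ 1 =
          (cc i₀ 1 * μ') * (p i₀ - aeval y (F i₀)) := by ring
      rw [h1, hμ', one_mul]
      ring
    · rw [if_neg hi, add_zero, hy0 i hi]
  · rw [map_add, map_mul, hπτ, zero_mul, add_zero, hy2]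

end Pool.Agent.Helper97.BD
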