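import Mathlib
import Pool.Agent.Helper97.BD.Defs

/-!
BD MODULE A7: linear gates (MP_1dc56d_ag, bounded degree). Notation: Defs.lean.

PROOF. Let Ω, ξ, O, π, p be as in LP; choose y v with π (y v) = ξ v and put
x v = y v + ∑ i, (p i - aeval y (F i)) * algebraMap k O (A i v). F i is linear (homogeneous of degree 1):
for points y, z of O^n and scalars, aeval (y + ∑ j, c j • a j) (F i) = aeval y (F i) + ∑ j, c j * aeval (a j) (F i)
(F i = ∑ v, C (coeff (single v 1) (F i)) * X v). And aeval (A j) (F i) = coeff of X j in lsub A (F i) = X i,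
that is 1 if i = j and 0 otherwise. So aeval x (F i) = p i; and π of the correction is 0 as
π (p i) = aeval ξ (F i) = π (aeval y (F i)).
-/

namespace Pool.Agent.Helper97.BD

open MvPolynomial

universe u

/-- a linear form -/
theorem A7_form {k : Type u} [Field k] {σ : Type*} [Fintype σ] (F : MvPolynomial σ k)
    (hF : F.IsHomogeneous 1) :
    F = ∑ v, C (coeff (Finsupp.single v 1) F) * X v := by
  classical
  ext m
  rw [coeff_sum]
  by_cases hm : m.degree = 1
  · have h1 : m ∈ Set.range (fun a : σ => Finsupp.single a 1) := by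
      rw [Finsupp.range_single_one]
      exact hm
    obtain ⟨v, rfl⟩ := h1
    rw [Finset.sum_eq_single v]
    · simp [coeff_C_mul, coeff_X]
    · intro w _ hw
      rw [coeff_C_mul, coeff_X, if_neg, mul_zero]
      intro h
      exact hw ((Finsupp.single_left_inj one_ne_zero).1 h)
    · intro h
      exact absurd (Finset.mem_univ v) h
  · rw [hF.coeff_eq_zero hm]
    symm
    apply Finset.sum_eq_zero
    intro v _
    rw [coeff_C_mul, coeff_X, if_neg, mul_zero]
    intro h
    apply hm
    rw [← h, Finsupp.degree_single]

/-- values of a linear form -/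
theorem A7_aeval {k : Type u} [Field k] {σ : Type*} [Fintype σ] (F : MvPolynomial σ k)
    (hF : F.IsHomogeneous 1) {B : Type*} [CommRing B] [Algebra k B] (x : σ → B) :
    aeval x F = ∑ v, algebraMap k B (coeff (Finsupp.single v 1) F) * x v := by
  conv_lhs => rw [A7_form F hF]
  simp only [map_sum, map_mul, aeval_C, aeval_X]

/-- coefficients of the composition with a linear map -/
theorem A7_coef {k : Type u} [Field k] {σ ι : Type*} [Fintype σ] [Fintype ι] [DecidableEq ι]
    (F : MvPolynomial σ k) (hF : F.IsHomogeneous 1) (A : ι → σ → k) (i : ι)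
    (h : lsub A F = X i) (j : ι) :
    ∑ v, coeff (Finsupp.single v 1) F * A j v = if i = j then 1 else 0 := by
  have h1 : coeff (Finsupp.single j 1) (lsub A F) = coeff (Finsupp.single j 1) (X i) := by
    rw [h]
  unfold lsub at h1
  rw [A7_aeval F hF, coeff_X, coeff_sum] at h1
  have h2 : (∑ v, coeff (Finsupp.single j 1) (algebraMap k (MvPolynomial ι k)
      (coeff (Finsupp.single v 1) F) * ∑ t, C (A t v) * X t)) =
      ∑ v, coeff (Finsupp.single v 1) F * A j v := by
    apply Finset.sum_congr rfl
    intro v _
    rw [algebraMap_eq, coeff_C_mul, coeff_sum]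
    congr 1
    rw [Finset.sum_eq_single j]
    · simp [coeff_C_mul, coeff_X]
    · intro w _ hw
      rw [coeff_C_mul, coeff_X, if_neg, mul_zero]
      intro h
      exact hw ((Finsupp.single_left_inj one_ne_zero).1 h)
    · intro h
      exact absurd (Finset.mem_univ j) h
  rw [← h2, h1]
  by_cases hij : i = j
  · rw [if_pos hij, if_pos (by rw [hij])]
  · rw [if_neg hij, if_neg (fun h => hij ((Finsupp.single_left_inj one_ne_zero).1 h))]

theorem lp_linear {k : Type u} [Field k] {n c : ℕ} {ι : Type} [Fintype ι]
    (F : ι → MvPolynomial (Fin n) k) (hF : ∀ i, (F i).IsHomogeneous 1) (A : ι → Fin n → k)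
    (hA : ∀ i, lsub A (F i) = X i) : LP c F := by
  classical
  intro Ω _ _ _ ξ _ O _ _ π hπ _ p hp
  choose y hy using fun v => hπ (ξ v)
  refine ⟨fun v => y v + ∑ i, (p i - aeval y (F i)) * algebraMap k O (A i v), fun i => ?_,
    fun v => ?_⟩
  · rw [A7_aeval (F i) (hF i)]
    have h1 : ∀ j, ∑ v, algebraMap k O (coeff (Finsupp.single v 1) (F i)) *
        algebraMap k O (A j v) = if i = j then 1 else 0 := by
      intro j
      have h2 := congrArg (algebraMap k O) (A7_coef (F i) (hF i) A i (hA i) j)
      rw [map_sum] at h2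
      simp only [map_mul] at h2
      rw [h2]
      split_ifs <;> simp
    have h3 : ∑ v, algebraMap k O (coeff (Finsupp.single v 1) (F i)) *
        (y v + ∑ j, (p j - aeval y (F j)) * algebraMap k O (A j v)) =
        ∑ v, algebraMap k O (coeff (Finsupp.single v 1) (F i)) * y v +
        ∑ j, (p j - aeval y (F j)) * ∑ v, algebraMap k O (coeff (Finsupp.single v 1) (F i)) *
          algebraMap k O (A j v) := by
      simp only [mul_add, Finset.sum_add_distrib, Finset.mul_sum]
      congr 1
      rw [Finset.sum_comm]
      apply Finset.sum_congr rfl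
      intro j _
      apply Finset.sum_congr rfl
      intro v _
      ring
    rw [h3, ← A7_aeval (F i) (hF i)]
    simp only [h1]
    simp
  · rw [map_add, hy, map_sum]
    have h1 : ∀ i, π (aeval y (F i)) = aeval ξ (F i) := by
      intro i
      have h2 : π (aeval y (F i)) = aeval (fun v => π (y v)) (F i) := by
        rw [← MvPolynomial.comp_aeval_apply]
      rw [h2]
      simp only [hy]
    have h3 : ∑ i, π ((p i - aeval y (F i)) * algebraMap k O (A i v)) = 0 := by
      apply Finset.sum_eq_zero
      intro i _
      rw [map_mul, map_sub, hp, h1, sub_self, zero_mul]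
    rw [h3, add_zero]

end Pool.Agent.Helper97.BD
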