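import Mathlib
import Pool.Agent.Helper97.BD.Defs

/-!
BD MODULE A8: the multisets of degrees decrease (MP_1dc56d_ag, bounded degree). Notation: Defs.lean.

PROOF. IsDershowitzMannaLT M N: exist X Y Z with Z nonempty, M = X + Y, N = X + Z and every y in Y is
below some z in Z (see Mathlib/Data/Multiset/DershowitzManna.lean). Take X = the degrees d i, i ≠ i₀, and
Z = {d i₀}. (A8a) Der d i₀ ρ splits into the p with p.1.2 = 0 (these are the (i, 0), i ≠ i₀, of degree
d i, all present as d i ≥ 1) and the others, with d p.1.1 - p.1.2.degree < d p.1.1 ≤ d i₀: this is Y.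
(A8b) F' : Y = the p.2.1 + 1 ≤ d i₀ - 1 < d i₀.
-/

namespace Pool.Agent.Helper97.BD

open MvPolynomial

universe u

theorem A8_erase {ι : Type} [Fintype ι] [DecidableEq ι] (d : ι → ℕ) (i₀ : ι) :
    (Finset.univ : Finset ι).val.map d =
      (Finset.univ : Finset {i // i ≠ i₀}).val.map (fun i => d i.1) + {d i₀} := by
  have h1 : (Finset.univ : Finset ι).val = (Finset.univ.erase i₀ : Finset ι).val + {i₀} := by
    rw [Finset.erase_val, add_comm, Multiset.singleton_add]
    exact (Multiset.cons_erase (Finset.mem_univ i₀)).symm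
  rw [h1, Multiset.map_add, Multiset.map_singleton]
  congr 1
  refine Multiset.map_eq_map_of_bij_of_nodup _ _ (Finset.nodup _) (Finset.nodup _)
    (fun a ha => ⟨a, (Finset.mem_erase.1 ha).1⟩) (fun a ha => Finset.mem_univ _)
    (fun a₁ _ a₂ _ h => congrArg Subtype.val h) (fun b _ => ?_) (fun a ha => rfl)
  exact ⟨b.1, Finset.mem_erase.2 ⟨b.2, Finset.mem_univ _⟩, rfl⟩

theorem der_lt {ι ρ : Type} [Fintype ι] [Finite ρ] (d : ι → ℕ) (hd : ∀ i, 1 ≤ d i) (i₀ : ι)
    (hmax : ∀ i, d i ≤ d i₀) [Fintype (Der d i₀ ρ)] :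
    Multiset.IsDershowitzMannaLT
      ((Finset.univ : Finset (Der d i₀ ρ)).val.map fun p => d p.1.1 - p.1.2.degree)
      ((Finset.univ : Finset ι).val.map d) := by
  classical
  refine ⟨(Finset.univ : Finset {i // i ≠ i₀}).val.map (fun i => d i.1),
    ((Finset.univ : Finset (Der d i₀ ρ)).filter fun p => ¬ p.1.2 = 0).val.map
      (fun p => d p.1.1 - p.1.2.degree), {d i₀}, ?_, ?_, A8_erase d i₀, ?_⟩
  · simp
  · have h1 : (Finset.univ : Finset (Der d i₀ ρ)).val =
        ((Finset.univ : Finset (Der d i₀ ρ)).filter fun p => p.1.2 = 0).val +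
        ((Finset.univ : Finset (Der d i₀ ρ)).filter fun p => ¬ p.1.2 = 0).val := by
      rw [Finset.filter_val, Finset.filter_val, Multiset.filter_add_not]
    rw [h1, Multiset.map_add]
    congr 1
    refine Multiset.map_eq_map_of_bij_of_nodup _ _ (Finset.nodup _) (Finset.nodup _)
      (fun p hp => ⟨p.1.1, fun h => p.2.2 (Prod.ext h (Finset.mem_filter.1 hp).2)⟩)
      (fun a ha => Finset.mem_univ _) (fun a₁ h₁ a₂ h₂ h => ?_) (fun b _ => ?_) (fun a ha => ?_)
    · apply Subtype.ext
      apply Prod.ext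
      · exact congrArg Subtype.val h
      · rw [(Finset.mem_filter.1 h₁).2, (Finset.mem_filter.1 h₂).2]
    · refine ⟨⟨(b.1, 0), ?_, fun h => b.2 (congrArg Prod.fst h)⟩, ?_, rfl⟩
      · have := hd b.1
        simp only [map_zero]
        omega
      · exact Finset.mem_filter.2 ⟨Finset.mem_univ _, rfl⟩
    · have := (Finset.mem_filter.1 ha).2
      simp only [this, map_zero, Nat.sub_zero]
  · intro y hy
    obtain ⟨p, hp, rfl⟩ := Multiset.mem_map.1 hy
    have h1 : ¬ p.1.2 = 0 := (Finset.mem_filter.1 hp).2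
    have h2 : p.1.2.degree ≠ 0 := fun h => h1 ((Finsupp.degree_eq_zero_iff _).1 h)
    have h3 := hd p.1.1
    have h4 := hmax p.1.1
    exact ⟨d i₀, Multiset.mem_singleton_self _, by omega⟩

theorem replace_lt {ι : Type} [Fintype ι] [DecidableEq ι] (d : ι → ℕ) (i₀ : ι) (b : ℕ) :
    Multiset.IsDershowitzMannaLT
      ((Finset.univ : Finset ({i // i ≠ i₀} ⊕ (Fin b × Fin (d i₀ - 1)))).val.map
        (Sum.elim (fun i => d i.1) (fun p => p.2.1 + 1)))
      ((Finset.univ : Finset ι).val.map d) := by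
  refine ⟨(Finset.univ : Finset {i // i ≠ i₀}).val.map (fun i => d i.1),
    (Finset.univ : Finset (Fin b × Fin (d i₀ - 1))).val.map (fun p => p.2.1 + 1),
    {d i₀}, ?_, ?_, A8_erase d i₀, ?_⟩
  · simp
  · rw [← Finset.univ_disjSum_univ, Finset.val_disjSum, Multiset.disjSum, Multiset.map_add,
      Multiset.map_map, Multiset.map_map]
    rfl
  · intro y hy
    obtain ⟨p, hp, rfl⟩ := Multiset.mem_map.1 hy
    exact ⟨d i₀, Multiset.mem_singleton_self _, by have := p.2.2; omega⟩

end Pool.Agent.Helper97.BD
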