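import Mathlib
import Pool.Agent.Helper97.BD.Defs

/-!
BD MODULE Cf: the coefficient forms of the generic composition (MP_1dc56d_ag, bounded degree). Notation: Defs.lean.

PROOF. cf F γ is the coefficient of w^γ in F (∑ j, w j • A j) as a polynomial in the entries of A.
(cf_homog) call Q : MvPolynomial τ (MvPolynomial (τ × σ) k) good of weight n if every coeff γ Q is
homogeneous of degree n; this is closed under sums, products (weights add), the generator
∑ j, C (X (j, v)) * X j has weight 1, constants have weight 0; F is a sum of monomials of degree D.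
(cf_eval) MvPolynomial.map (eval (fun q => A q.1 q.2)) (gen F) = lsub A F, take coefficients.
(cf_rank_one) MvPolynomial.map of the k-algebra hom φ : X (j, v) ↦ C (t j) * X v sends gen F to
aeval (fun v => C (X v) * ∑ j, C (C (t j)) * X j) F, which for F homogeneous of degree D equals
C F * (∑ j, C (C (t j)) * X j) ^ D (check on monomials of degree D), and
(∑ j, C (C (t j)) * X j) ^ D = MvPolynomial.map C ((∑ j, C (t j) * X j) ^ D).
Take coefficients (coeff_map, coeff_C_mul).
-/

namespace Pool.Agent.Helper97.BD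

open MvPolynomial

universe u

/-- the coefficient of `w^γ` in `F (∑ j, w j • A j)`, a form in the entries of `A` -/
noncomputable def cf {k : Type u} [Field k] {σ τ : Type*} [Fintype τ] (F : MvPolynomial σ k)
    (γ : τ →₀ ℕ) : MvPolynomial (τ × σ) k :=
  coeff γ (aeval (fun v => ∑ j, C (X (j, v)) * X j :
    σ → MvPolynomial τ (MvPolynomial (τ × σ) k)) F)

/-- the generic composition -/
noncomputable def cfgen {k : Type u} [Field k] {σ τ : Type*} [Fintype τ] (F : MvPolynomial σ k) :
    MvPolynomial τ (MvPolynomial (τ × σ) k) :=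
  aeval (fun v => ∑ j, C (X (j, v)) * X j :
    σ → MvPolynomial τ (MvPolynomial (τ × σ) k)) F

/-- all coefficients are homogeneous of degree `n` -/
def cfG {k : Type u} [Field k] {κ τ : Type*} (n : ℕ) (Q : MvPolynomial τ (MvPolynomial κ k)) :
    Prop := ∀ γ, (coeff γ Q).IsHomogeneous n

theorem cfG_sum {k : Type u} [Field k] {κ τ ι : Type*} {n : ℕ} (s : Finset ι)
    (Q : ι → MvPolynomial τ (MvPolynomial κ k)) (h : ∀ i ∈ s, cfG n (Q i)) :
    cfG n (∑ i ∈ s, Q i) := by
  intro γ
  rw [coeff_sum]
  exact IsHomogeneous.sum _ _ _ fun i hi => h i hi γ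

theorem cfG_mul {k : Type u} [Field k] {κ τ : Type*} {m n : ℕ}
    {A B : MvPolynomial τ (MvPolynomial κ k)} (hA : cfG m A) (hB : cfG n B) :
    cfG (m + n) (A * B) := by
  classical
  intro γ
  rw [coeff_mul]
  exact IsHomogeneous.sum _ _ _ fun p _ => (hA p.1).mul (hB p.2)

theorem cfG_CC {k : Type u} [Field k] {κ τ : Type*} (a : k) :
    cfG 0 (C (C a) : MvPolynomial τ (MvPolynomial κ k)) := by
  classical
  intro γ
  rw [coeff_C]
  split_ifs
  · exact isHomogeneous_C _ _
  · exact isHomogeneous_zero _ _ _

theorem cfG_one {k : Type u} [Field k] {κ τ : Type*} :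
    cfG 0 (1 : MvPolynomial τ (MvPolynomial κ k)) := by
  have := cfG_CC (κ := κ) (τ := τ) (1 : k)
  simpa using this

theorem cfG_pow {k : Type u} [Field k] {κ τ : Type*} {m : ℕ}
    {A : MvPolynomial τ (MvPolynomial κ k)} (hA : cfG m A) (n : ℕ) :
    cfG (m * n) (A ^ n) := by
  induction n with
  | zero => simpa using cfG_one
  | succ n ih =>
    rw [pow_succ, Nat.mul_succ]
    exact cfG_mul ih hA

theorem cfG_prod {k : Type u} [Field k] {κ τ ι : Type*} (s : Finset ι) (m : ι → ℕ)
    (Q : ι → MvPolynomial τ (MvPolynomial κ k)) (h : ∀ i ∈ s, cfG (m i) (Q i)) :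
    cfG (∑ i ∈ s, m i) (∏ i ∈ s, Q i) := by
  classical
  induction s using Finset.induction_on with
  | empty => simpa using cfG_one
  | insert i s hi ih =>
    rw [Finset.sum_insert hi, Finset.prod_insert hi]
    exact cfG_mul (h i (Finset.mem_insert_self _ _))
      (ih fun j hj => h j (Finset.mem_insert_of_mem hj))

theorem cf_homog {k : Type u} [Field k] {σ τ : Type*} [Fintype τ] {F : MvPolynomial σ k} {D : ℕ}
    (hF : F.IsHomogeneous D) (γ : τ →₀ ℕ) : (cf F γ).IsHomogeneous D := by
  classical
  have key : cfG D (cfgen (τ := τ) F) := by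
    unfold cfgen
    rw [aeval_def, eval₂_eq]
    refine cfG_sum _ _ fun m hm => ?_
    have hD : ∑ i ∈ m.support, 1 * m i = D := by
      have h1 := hF (mem_support_iff.1 hm)
      rw [Finsupp.weight_apply] at h1
      simp only [Finsupp.sum, Pi.one_apply, smul_eq_mul, mul_one] at h1
      simpa using h1
    have h2 : cfG (0 + ∑ i ∈ m.support, 1 * m i)
        (algebraMap k (MvPolynomial τ (MvPolynomial (τ × σ) k)) (coeff m F) *
          ∏ i ∈ m.support, (∑ j, C (X (j, i)) * X j :
            MvPolynomial τ (MvPolynomial (τ × σ) k)) ^ m i) := by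
      refine cfG_mul (cfG_CC _) (cfG_prod _ _ _ fun i _ => cfG_pow ?_ _)
      refine cfG_sum _ _ fun j _ => ?_
      intro γ
      rw [coeff_C_mul, coeff_X']
      split_ifs
      · rw [mul_one]; exact isHomogeneous_X _ _
      · rw [mul_zero]; exact isHomogeneous_zero _ _ _
    rw [zero_add, hD] at h2
    exact h2
  exact key γ

theorem cf_eval {k : Type u} [Field k] {σ τ : Type*} [Fintype τ] (F : MvPolynomial σ k)
    (γ : τ →₀ ℕ) (A : τ → σ → k) :
    eval (fun q : τ × σ => A q.1 q.2) (cf F γ) = coeff γ (lsub A F) := by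
  have h : (map (eval (fun q : τ × σ => A q.1 q.2))).comp
      (aeval (fun v => ∑ j, C (X (j, v)) * X j :
        σ → MvPolynomial τ (MvPolynomial (τ × σ) k)) : MvPolynomial σ k →ₐ[k] _).toRingHom =
      (lsub A).toRingHom := by
    apply MvPolynomial.ringHom_ext
    · intro a
      show map _ (aeval _ (C a)) = lsub A (C a)
      rw [aeval_C]
      show map _ (C (C a)) = aeval _ (C a)
      rw [map_C, eval_C, aeval_C]
      rfl
    · intro v
      show map _ (aeval _ (X v)) = lsub A (X v)
      rw [aeval_X, lsub, aeval_X, map_sum]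
      refine Finset.sum_congr rfl fun j _ => ?_
      rw [map_mul, map_C, map_X, eval_X]
  have h2 := RingHom.congr_fun h F
  show eval _ (coeff γ _) = _
  rw [← coeff_map]
  exact congrArg (coeff γ) h2

theorem cf_rank_one {k : Type u} [Field k] {σ τ : Type*} [Fintype τ] {F : MvPolynomial σ k} {D : ℕ}
    (hF : F.IsHomogeneous D) (γ : τ →₀ ℕ) (t : τ → k) :
    aeval (fun q : τ × σ => C (t q.1) * X q.2) (cf F γ) =
      C (coeff γ ((∑ j, C (t j) * X j : MvPolynomial τ k) ^ D)) * F := by
  classical
  set φ : MvPolynomial (τ × σ) k →+* MvPolynomial σ k :=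
    (aeval (fun q : τ × σ => C (t q.1) * X q.2) : MvPolynomial (τ × σ) k →ₐ[k]
      MvPolynomial σ k).toRingHom with hφ
  set T : MvPolynomial τ (MvPolynomial σ k) := ∑ j, C (C (t j)) * X j with hT
  have h : (map φ).comp
      (aeval (fun v => ∑ j, C (X (j, v)) * X j :
        σ → MvPolynomial τ (MvPolynomial (τ × σ) k)) : MvPolynomial σ k →ₐ[k] _).toRingHom =
      (aeval (fun v => C (X v) * T) : MvPolynomial σ k →ₐ[k]
        MvPolynomial τ (MvPolynomial σ k)).toRingHom := by
    apply MvPolynomial.ringHom_ext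
    · intro a
      show map φ (aeval _ (C a)) = aeval _ (C a)
      rw [aeval_C, aeval_C]
      show map φ (C (C a)) = C (C a)
      rw [map_C]
      congr 1
      show aeval _ (C a) = C a
      rw [aeval_C]; rfl
    · intro v
      show map φ (aeval _ (X v)) = aeval _ (X v)
      rw [aeval_X, aeval_X, map_sum, hT, Finset.mul_sum]
      refine Finset.sum_congr rfl fun j _ => ?_
      rw [map_mul, map_C, map_X]
      have : φ (X (j, v)) = C (t j) * X v := by
        show aeval _ (X (j, v)) = _
        rw [aeval_X]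
      rw [this, C_mul]
      ring
  have h2 := RingHom.congr_fun h F
  have h3 : (aeval (fun v => C (X v) * T) : MvPolynomial σ k →ₐ[k]
      MvPolynomial τ (MvPolynomial σ k)) F = C F * T ^ D := by
    rw [aeval_def, eval₂_eq]
    conv_rhs => rw [F.as_sum, map_sum, Finset.sum_mul]
    refine Finset.sum_congr rfl fun m hm => ?_
    have hD : ∑ i ∈ m.support, m i = D := by
      have h1 := hF (mem_support_iff.1 hm)
      rw [Finsupp.weight_apply] at h1
      simpa [Finsupp.sum] using h1
    rw [monomial_eq, Finsupp.prod, C_mul, map_prod]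
    simp only [mul_pow, Finset.prod_mul_distrib, Finset.prod_pow_eq_pow_sum, hD, map_pow]
    show C (C (coeff m F)) * _ = _
    ring
  have h4 : T ^ D = map C ((∑ j, C (t j) * X j : MvPolynomial τ k) ^ D) := by
    rw [map_pow, hT, map_sum]
    congr 1
    refine Finset.sum_congr rfl fun j _ => ?_
    rw [map_mul, map_C, map_X]
  show φ (coeff γ _) = _
  rw [← coeff_map]
  refine (congrArg (coeff γ) h2).trans ?_
  show coeff γ ((aeval (fun v => C (X v) * T) : MvPolynomial σ k →ₐ[k]
      MvPolynomial τ (MvPolynomial σ k)) F) = _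
  rw [h3, coeff_C_mul, h4, coeff_map, mul_comm]

end Pool.Agent.Helper97.BD
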