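import Mathlib
import Pool.Agent.Helper97.BD.Defs

/-!
BD MODULE Ja: tangent vectors kill the ideal of a preimage (MP_1dc56d_ag, bounded degree). Notation: Defs.lean.

PROOF. The map δ(P) = ∑ v, D v * aeval ξ (pderiv v P) is k-linear and satisfies
δ (A * B) = aeval ξ A * δ B + aeval ξ B * δ A. On aeval f Q it is
∑ j, aeval ξ (aeval f (pderiv j Q)) * δ (f j) (chain rule; by MvPolynomial.induction_on Q), which is 0 by
hD. The ideal J.map (aeval f) is the span of the aeval f Q, Q ∈ J (Ideal.map, span_induction or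
Submodule.span_induction): for B = aeval f Q with Q ∈ J and any A, δ (A * B) =
aeval ξ A * δ B + aeval ξ B * δ A = 0, as δ B = 0 and aeval ξ B = 0 by h0.
-/

namespace Pool.Agent.Helper97.BD

open MvPolynomial

universe u

theorem tangent {k : Type u} [Field k] {n s : ℕ}
    (f : Fin s → MvPolynomial (Fin n) k) (J : Ideal (MvPolynomial (Fin s) k))
    {Ω : Type u} [Field Ω] [Algebra k Ω] (ξ : Fin n → Ω)
    (h0 : ∀ P ∈ J.map (aeval f : MvPolynomial (Fin s) k →ₐ[k] MvPolynomial (Fin n) k),
      aeval ξ P = 0)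
    (D : Fin n → Ω) (hD : ∀ j, ∑ v, D v * aeval ξ (pderiv v (f j)) = 0)
    (P : MvPolynomial (Fin n) k)
    (hP : P ∈ J.map (aeval f : MvPolynomial (Fin s) k →ₐ[k] MvPolynomial (Fin n) k)) :
    ∑ v, D v * aeval ξ (pderiv v P) = 0 := by
  set δ : MvPolynomial (Fin n) k → Ω := fun P => ∑ v, D v * aeval ξ (pderiv v P) with hδ
  have δ_add : ∀ A B, δ (A + B) = δ A + δ B := by
    intro A B
    simp only [hδ, map_add, mul_add, Finset.sum_add_distrib]
  have δ_mul : ∀ A B, δ (A * B) = aeval ξ A * δ B + aeval ξ B * δ A := by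
    intro A B
    simp only [hδ]
    rw [Finset.mul_sum, Finset.mul_sum, ← Finset.sum_add_distrib]
    refine Finset.sum_congr rfl fun v _ => ?_
    rw [Derivation.leibniz, smul_eq_mul, smul_eq_mul, map_add, map_mul, map_mul]
    ring
  have δ_C : ∀ a, δ (C a) = 0 := by
    intro a
    simp [hδ]
  have δ_f : ∀ Q : MvPolynomial (Fin s) k, δ (aeval f Q) = 0 := by
    intro Q
    induction Q using MvPolynomial.induction_on with
    | C a =>
      rw [aeval_C]
      exact δ_C a
    | add p q hp hq => rw [map_add, δ_add, hp, hq, add_zero]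
    | mul_X p j hp =>
      rw [map_mul, δ_mul, hp, aeval_X, mul_zero, add_zero]
      have : δ (f j) = 0 := hD j
      rw [this, mul_zero]
  show δ P = 0
  refine Submodule.span_induction (p := fun P _ => δ P = 0) ?_ ?_ ?_ ?_ hP
  · rintro x ⟨Q, _, rfl⟩
    exact δ_f Q
  · simp [hδ]
  · intro x y _ _ hx hy
    rw [δ_add, hx, hy, add_zero]
  · intro a x hx' hx
    rw [smul_eq_mul, δ_mul, hx, mul_zero, zero_add, h0 x hx', zero_mul]

end Pool.Agent.Helper97.BD
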