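import Mathlib
import Pool.Agent.Helper97.BD.Defs

/-!
BD MODULE Jb: a separable relation (MP_1dc56d_ag, bounded degree). Notation: Defs.lean.

PROOF. By hdep there is a nonzero polynomial P with variables in insert u T and aeval ξ P = 0
(rename a relation from the subtype to Fin n). Choose one, P, with degreeOf u P minimal. By hT
degreeOf u P is positive (otherwise P would be a nonzero relation of the ξ v, v ∈ T). In characteristic
0, P' = pderiv u P is nonzero, has its variables in insert u T and degreeOf u P' < degreeOf u P; by
minimality aeval ξ P' is nonzero. For v not in insert u T, v is not in P.vars, so pderiv v P = 0.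
-/

namespace Pool.Agent.Helper97.BD

open MvPolynomial

universe u

theorem exists_sep {k : Type u} [Field k] [CharZero k] {n : ℕ} {Ω : Type u} [Field Ω]
    [Algebra k Ω] (ξ : Fin n → Ω) (T : Finset (Fin n)) (u : Fin n) (hu : u ∉ T)
    (hT : AlgebraicIndependent k (fun v : T => ξ v))
    (hdep : ¬ AlgebraicIndependent k (fun v : (insert u T : Finset (Fin n)) => ξ v)) :
    ∃ P : MvPolynomial (Fin n) k, aeval ξ P = 0 ∧ aeval ξ (pderiv u P) ≠ 0 ∧
      ∀ v, v ∉ T → v ≠ u → pderiv v P = 0 := by
  classical
  have hex : ∃ m : ℕ, ∃ P : MvPolynomial (Fin n) k, P ≠ 0 ∧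
      (P.vars : Set (Fin n)) ⊆ (insert u T : Finset (Fin n)) ∧ aeval ξ P = 0 ∧
      degreeOf u P = m := by
    rw [algebraicIndependent_iff] at hdep
    push Not at hdep
    obtain ⟨p, hp0, hpne⟩ := hdep
    refine ⟨_, rename (fun v : (insert u T : Finset (Fin n)) => (v : Fin n)) p, ?_, ?_, ?_, rfl⟩
    · intro h
      apply hpne
      exact rename_injective _ Subtype.val_injective (by rw [h, map_zero])
    · intro v hv
      have := vars_rename (fun v : (insert u T : Finset (Fin n)) => (v : Fin n)) p hv
      rw [Finset.mem_image] at this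
      obtain ⟨w, _, rfl⟩ := this
      exact w.2
    · rw [aeval_rename]
      exact hp0
  obtain ⟨P, hP0, hPv, hPξ, hPd⟩ := Nat.find_spec hex
  have hmin : ∀ Q : MvPolynomial (Fin n) k, Q ≠ 0 →
      (Q.vars : Set (Fin n)) ⊆ (insert u T : Finset (Fin n)) → aeval ξ Q = 0 →
      degreeOf u P ≤ degreeOf u Q := by
    intro Q h1 h2 h3
    rw [hPd]
    exact Nat.find_min' hex ⟨Q, h1, h2, h3, rfl⟩
  have hpos : 0 < degreeOf u P := by
    by_contra h
    have h0 : degreeOf u P = 0 := by omega
    have hu' : u ∉ P.vars := by
      rw [mem_vars_iff_degreeOf_ne_zero]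
      exact fun h => h h0
    have hsub : (P.vars : Set (Fin n)) ⊆ Set.range (fun v : T => (v : Fin n)) := by
      intro v hv
      have h1 := hPv hv
      rw [Finset.coe_insert] at h1
      rcases h1 with rfl | h1
      · exact absurd hv hu'
      · exact ⟨⟨v, h1⟩, rfl⟩
    obtain ⟨q, hq⟩ := exists_rename_eq_of_vars_subset_range P _ Subtype.val_injective hsub
    rw [algebraicIndependent_iff] at hT
    apply hP0
    rw [← hq, hT q ?_, map_zero]
    rw [← hq, aeval_rename] at hPξ
    exact hPξ
  have hcoef : ∀ m, (pderiv u P).coeff m = P.coeff (m + Finsupp.single u 1) * ((m u : k) + 1) := by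
    intro m
    rw [coeff_pderiv]
  refine ⟨P, hPξ, ?_, ?_⟩
  · intro hzero
    have hlt : degreeOf u (pderiv u P) < degreeOf u P := by
      rw [degreeOf_lt_iff hpos]
      intro m hm
      rw [mem_support_iff, hcoef] at hm
      have h1 : P.coeff (m + Finsupp.single u 1) ≠ 0 := left_ne_zero_of_mul hm
      have h2 := monomial_le_degreeOf u (mem_support_iff.2 h1)
      simp only [Finsupp.coe_add, Pi.add_apply, Finsupp.single_eq_same] at h2
      omega
    have hne : pderiv u P ≠ 0 := by
      intro h
      have : degreeOf u P ≤ 0 := by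
        rw [degreeOf_le_iff]
        intro m hm
        by_contra h1
        have h2 : m = (m - Finsupp.single u 1) + Finsupp.single u 1 := by
          rw [tsub_add_cancel_of_le]
          rw [Finsupp.single_le_iff]; omega
        have h3 := hcoef (m - Finsupp.single u 1)
        rw [h, coeff_zero, ← h2] at h3
        rcases mul_eq_zero.1 h3.symm with h4 | h4
        · exact (mem_support_iff.1 hm) h4
        · have h5 : (((m - Finsupp.single u 1 : Fin n →₀ ℕ) u : k) + 1) ≠ 0 :=
            Nat.cast_add_one_ne_zero _
          exact h5 h4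
      omega
    have hv' : ((pderiv u P).vars : Set (Fin n)) ⊆ (insert u T : Finset (Fin n)) := by
      intro v hv
      apply hPv
      rw [Finset.mem_coe, mem_vars_iff_degreeOf_ne_zero] at hv ⊢
      intro h0
      apply hv
      have : degreeOf v (pderiv u P) ≤ 0 := by
        rw [degreeOf_le_iff]
        intro m hm
        rw [mem_support_iff, hcoef] at hm
        have h1 : P.coeff (m + Finsupp.single u 1) ≠ 0 := left_ne_zero_of_mul hm
        have h2 := monomial_le_degreeOf v (mem_support_iff.2 h1)
        rw [h0] at h2
        simp only [Finsupp.coe_add, Pi.add_apply] at h2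
        omega
      omega
    exact absurd (hmin _ hne hv' hzero) (by omega)
  · intro v hvT hvu
    apply pderiv_eq_zero_of_notMem_vars
    intro hv
    have h1 := hPv hv
    rw [Finset.coe_insert] at h1
    rcases h1 with h1 | h1
    · exact hvu h1
    · exact hvT h1

end Pool.Agent.Helper97.BD
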