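import Mathlib
import Pool.Agent.Helper97.BD.Ja
import Pool.Agent.Helper97.BD.Jb

/-!
BD MODULE Jc: codimension of a preimage (MP_1dc56d_ag, bounded degree). Notation: Defs.lean.

PROOF. Choose T : Finset (Fin n) maximal with (ξ v), v ∈ T, algebraically independent over k (the empty
set is independent, Ω is a field; finitely many T). CLAIM: if D : Fin n → Ω satisfies
∑ v, D v * aeval ξ (pderiv v (f j)) = 0 for all j and D v = 0 for all v ∈ T, then D = 0: let u ∉ T; by
maximality and exists_sep there is P with aeval ξ P = 0, so P ∈ J.map (aeval f) by hξ, and by tangent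
0 = ∑ v, D v * aeval ξ (pderiv v P) = D u * aeval ξ (pderiv u P) (terms v ∈ T: D v = 0, terms
v ∉ T, v ≠ u: pderiv v P = 0), so D u = 0. Hence the Ω-linear map
(Fin n → Ω) → (Fin s → Ω) × (T → Ω), D ↦ (the s sums, D restricted to T), is injective, so
n ≤ s + T.card (finrank comparison).
-/

namespace Pool.Agent.Helper97.BD

open MvPolynomial

universe u

theorem ht_generic {k : Type u} [Field k] [CharZero k] {n s : ℕ}
    (f : Fin s → MvPolynomial (Fin n) k) (J : Ideal (MvPolynomial (Fin s) k))
    {Ω : Type u} [Field Ω] [Algebra k Ω] (ξ : Fin n → Ω)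
    (hξ : ∀ P : MvPolynomial (Fin n) k, aeval ξ P = 0 ↔
      P ∈ J.map (aeval f : MvPolynomial (Fin s) k →ₐ[k] MvPolynomial (Fin n) k)) :
    HT (k := k) s ξ := by
  classical
  -- a maximal independent subset
  obtain ⟨T, hT, hmax⟩ := Finset.exists_max_image
    ((Finset.univ : Finset (Finset (Fin n))).filter
      (fun T : Finset (Fin n) => AlgebraicIndependent k (fun v : T => ξ v))) Finset.card
    ⟨(∅ : Finset (Fin n)), by
      rw [Finset.mem_filter]
      refine ⟨Finset.mem_univ _, ?_⟩
      have : IsEmpty ((∅ : Finset (Fin n)) : Type) := by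
        refine ⟨fun v => ?_⟩
        exact absurd v.2 (Finset.notMem_empty _)
      rw [algebraicIndependent_empty_type_iff]
      exact (algebraMap k Ω).injective⟩
  rw [Finset.mem_filter] at hT
  refine ⟨T, ?_, hT.2⟩
  have hdep : ∀ u, u ∉ T →
      ¬ AlgebraicIndependent k (fun v : (insert u T : Finset (Fin n)) => ξ v) := by
    intro u hu hind
    have h1 := hmax (insert u T) (Finset.mem_filter.2 ⟨Finset.mem_univ _, hind⟩)
    rw [Finset.card_insert_of_notMem hu] at h1
    omega
  have hcl : ∀ D : Fin n → Ω, (∀ j, ∑ v, D v * aeval ξ (pderiv v (f j)) = 0) →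
      (∀ v ∈ T, D v = 0) → D = 0 := by
    intro D hD hDT
    funext u
    by_cases hu : u ∈ T
    · exact hDT u hu
    obtain ⟨P, hP0, hP1, hP2⟩ := exists_sep ξ T u hu hT.2 (hdep u hu)
    have h1 := tangent f J ξ (fun P hP => (hξ P).2 hP) D hD P ((hξ P).1 hP0)
    rw [Finset.sum_eq_single u] at h1
    · rcases mul_eq_zero.1 h1 with h2 | h2
      · exact h2
      · exact absurd h2 hP1
    · intro v _ hvu
      by_cases hv : v ∈ T
      · rw [hDT v hv, zero_mul]
      · rw [hP2 v hv hvu, map_zero, mul_zero]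
    · intro h2
      exact absurd (Finset.mem_univ u) h2
  let L : (Fin n → Ω) →ₗ[Ω] (Fin s → Ω) × (T → Ω) :=
    LinearMap.prod
      (LinearMap.pi (fun j => ∑ v, (aeval ξ (pderiv v (f j))) •
        (LinearMap.proj v : (Fin n → Ω) →ₗ[Ω] Ω)))
      (LinearMap.pi (fun v : T => (LinearMap.proj (v : Fin n) : (Fin n → Ω) →ₗ[Ω] Ω)))
  have hL : Function.Injective L := by
    rw [injective_iff_map_eq_zero]
    intro D hD
    have h1 := congrArg Prod.fst hD
    have h2 := congrArg Prod.snd hD
    refine hcl D ?_ ?_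
    · intro j
      have h3 : (∑ v, (aeval ξ (pderiv v (f j))) •
        (LinearMap.proj v : (Fin n → Ω) →ₗ[Ω] Ω)) D = 0 := congrFun h1 j
      rw [LinearMap.sum_apply] at h3
      rw [← h3]
      refine Finset.sum_congr rfl fun v _ => ?_
      exact mul_comm (D v) _
    · intro v hv
      exact congrFun h2 ⟨v, hv⟩
  have h := LinearMap.finrank_le_finrank_of_injective hL
  rw [Module.finrank_prod, Module.finrank_fintype_fun_eq_card, Module.finrank_fintype_fun_eq_card,
    Module.finrank_fintype_fun_eq_card, Fintype.card_fin, Fintype.card_fin,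
    Fintype.card_coe] at h
  omega

end Pool.Agent.Helper97.BD
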