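import Mathlib
import Pool.Agent.Helper97.BD.Defs
import Pool.Agent.Helper47.Rig.Zero

/-!
Codimension of the components of a preimage (any characteristic, no reducedness).
-/

namespace Pool.Agent.Helper97.BD

open MvPolynomial

universe u

/-- a component of the common zero set of `s < m` polynomials in `m` variables through a given
point is not a point -/
theorem exists_prime_lt {Ω : Type u} [Field Ω] [IsAlgClosed Ω] {m s : ℕ} (hsm : s < m)
    (h : Fin s → MvPolynomial (Fin m) Ω) (η : Fin m → Ω) (h0 : ∀ j, eval η (h j) = 0) :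
    ∃ P : Ideal (MvPolynomial (Fin m) Ω), P.IsPrime ∧ (∀ j, h j ∈ P) ∧
      (∀ g ∈ P, eval η g = 0) ∧ ∃ g, eval η g = 0 ∧ g ∉ P := by
  set M : Ideal (MvPolynomial (Fin m) Ω) := vanishingIdeal Ω ({η} : Set (Fin m → Ω)) with hM
  haveI hMp : M.IsPrime := inferInstance
  have hmem : ∀ g, g ∈ M ↔ eval η g = 0 := by
    intro g
    rw [hM, mem_vanishingIdeal_singleton_iff, aeval_def, Algebra.algebraMap_self, eval₂_id]
  set I : Ideal (MvPolynomial (Fin m) Ω) := Ideal.span (Set.range h) with hI
  have hIM : I ≤ M := by
    rw [hI, Ideal.span_le]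
    rintro _ ⟨j, rfl⟩
    exact (hmem _).mpr (h0 j)
  obtain ⟨P, hP, hPM⟩ := Ideal.exists_minimalPrimes_le hIM
  haveI hPp : P.IsPrime := hP.1.1
  refine ⟨P, hPp, fun j => hP.1.2 (Ideal.subset_span ⟨j, rfl⟩),
    fun g hg => (hmem g).mp (hPM hg), ?_⟩
  by_contra hcon
  push Not at hcon
  have hPeq : P = M := le_antisymm hPM fun g hg => hcon g ((hmem g).mp hg)
  rw [hPeq] at hP
  have hle : M.height ≤ s := by
    refine (Ideal.height_le_card_of_mem_minimalPrimes_span (Set.finite_range h) hP).trans ?_
    have : (Set.range h).ncard ≤ s := by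
      have := Set.ncard_image_le (f := h) (Set.finite_univ)
      rw [Set.image_univ, Set.ncard_univ, Nat.card_eq_fintype_card, Fintype.card_fin] at this
      exact this
    exact_mod_cast this
  have hdim : ringKrullDim (MvPolynomial (Fin m) Ω) ≤ (s : WithBot ℕ∞) := by
    rw [ringKrullDim_le_iff_isMaximal_height_le]
    intro Q hQ
    obtain ⟨a, rfl⟩ := isMaximal_iff_eq_vanishingIdeal_singleton.1 hQ
    rw [Helper47.Rig.height_vanishing_eq, ← Helper47.Rig.height_vanishing_eq η]
    exact_mod_cast hle
  rw [MvPolynomial.ringKrullDim_of_isNoetherianRing, ringKrullDim_eq_zero_of_field, zero_add,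
    Nat.card_eq_fintype_card, Fintype.card_fin] at hdim
  have : m ≤ s := by exact_mod_cast hdim
  omega

/-- a nontrivial relation of one more coordinate -/
theorem exists_relation {k : Type u} [Field k] {n : ℕ} {Ω : Type u} [Field Ω] [Algebra k Ω]
    (ξ : Fin n → Ω) (T : Finset (Fin n)) (u : Fin n) (hu : u ∉ T)
    (hT : AlgebraicIndependent k (fun v : T => ξ v))
    (hdep : ¬ AlgebraicIndependent k (fun v : (insert u T : Finset (Fin n)) => ξ v)) :
    ∃ P : MvPolynomial (Fin n) k, aeval ξ P = 0 ∧ (P.vars ⊆ insert u T) ∧
      aeval (fun v => if v = u then (Polynomial.X : Polynomial Ω) else Polynomial.C (ξ v)) P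
        ≠ 0 := by
  classical
  rw [algebraicIndependent_iff] at hdep
  push Not at hdep
  obtain ⟨p, hp0, hpne⟩ := hdep
  refine ⟨rename Subtype.val p, ?_, ?_, ?_⟩
  · rw [aeval_rename]
    exact hp0
  · refine (vars_rename _ _).trans ?_
    intro v hv
    obtain ⟨w, -, rfl⟩ := Finset.mem_image.mp hv
    exact w.2
  · rw [aeval_rename]
    -- pass to `Option T`
    let g : ↥(insert u T : Finset (Fin n)) → Option T := fun v =>
      if hv : (v : Fin n) ∈ T then some ⟨v, hv⟩ else none
    have hg : Function.Injective g := by
      intro a b hab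
      simp only [g] at hab
      split_ifs at hab with ha hb hb
      · have := Option.some_injective _ hab
        exact Subtype.ext (congrArg (fun x : T => (x : Fin n)) this)
      · have h1 : (a : Fin n) = u := by
          rcases Finset.mem_insert.mp a.2 with h | h
          · exact h
          · exact absurd h ha
        have h2 : (b : Fin n) = u := by
          rcases Finset.mem_insert.mp b.2 with h | h
          · exact h
          · exact absurd h hb
        exact Subtype.ext (h1.trans h2.symm)
    let θ : MvPolynomial (Option T) k →ₐ[k] Polynomial Ω :=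
      (Polynomial.mapAlgHom (aeval (fun v : T => ξ v) : MvPolynomial T k →ₐ[k] Ω)).comp
        (optionEquivLeft k T).toAlgHom
    have hθ : Function.Injective θ := by
      have h8 : Function.Injective (Polynomial.mapAlgHom
          (aeval (fun v : T => ξ v) : MvPolynomial T k →ₐ[k] Ω)) :=
        Polynomial.map_injective _ hT
      exact h8.comp (optionEquivLeft k T).injective
    have hcomp : (aeval ((fun v => if v = u then (Polynomial.X : Polynomial Ω) else
        Polynomial.C (ξ v)) ∘ Subtype.val) :
        MvPolynomial (insert u T : Finset (Fin n)) k →ₐ[k] Polynomial Ω) =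
        θ.comp (rename g) := by
      apply MvPolynomial.algHom_ext
      intro v
      rw [aeval_X, AlgHom.comp_apply, rename_X]
      simp only [Function.comp_apply, g, θ, AlgHom.comp_apply]
      by_cases hv : (v : Fin n) ∈ T
      · have hvu : (v : Fin n) ≠ u := fun h => hu (h ▸ hv)
        rw [if_neg hvu, dif_pos hv]
        simp
      · have hvu : (v : Fin n) = u := by
          rcases Finset.mem_insert.mp v.2 with h | h
          · exact h
          · exact absurd h hv
        rw [if_pos hvu, dif_neg hv]
        simp
    rw [hcomp]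
    intro h0
    have h1 : θ (rename g p) = 0 := h0
    have h2 : rename g p = 0 := hθ (by rw [h1, map_zero])
    exact hpne (rename_injective g hg (by rw [h2, map_zero]))

theorem ht_minimal {k : Type u} [Field k] {n s : ℕ}
    (f : Fin s → MvPolynomial (Fin n) k) (J : Ideal (MvPolynomial (Fin s) k))
    {Ω : Type u} [Field Ω] [IsAlgClosed Ω] [Algebra k Ω] (ξ : Fin n → Ω)
    (I : Ideal (MvPolynomial (Fin n) k))
    (hI : I ∈ (J.map (aeval f : MvPolynomial (Fin s) k →ₐ[k] MvPolynomial (Fin n) k)).minimalPrimes)
    (hξ : ∀ P : MvPolynomial (Fin n) k, aeval ξ P = 0 ↔ P ∈ I) :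
    HT (k := k) s ξ := by
  classical
  -- a maximal independent set of coordinates
  have hne : ((Finset.univ : Finset (Finset (Fin n))).filter
      (fun T : Finset (Fin n) => AlgebraicIndependent k (fun v : T => ξ v))).Nonempty := by
    refine ⟨∅, ?_⟩
    rw [Finset.mem_filter]
    refine ⟨Finset.mem_univ _, ?_⟩
    exact (algebraicIndependent_empty_type_iff).mpr (algebraMap k Ω).injective
  obtain ⟨T, hTmem, hTmax⟩ := Finset.exists_max_image _ Finset.card hne
  rw [Finset.mem_filter] at hTmem
  have hT := hTmem.2
  refine ⟨T, ?_, hT⟩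
  by_contra hcon
  push Not at hcon
  set m := n - T.card with hm
  have hTn : T.card ≤ n := by
    have := T.card_le_univ
    simpa using this
  have hsm : s < m := by omega
  have hcard : Fintype.card {v // v ∉ T} = m := by
    rw [Fintype.card_subtype_compl, Fintype.card_fin, Fintype.card_coe]
  let e : {v // v ∉ T} ≃ Fin m := Fintype.equivFinOfCardEq hcard
  let η : Fin m → Ω := fun i => ξ (e.symm i)
  let φ : MvPolynomial (Fin n) k →ₐ[k] MvPolynomial (Fin m) Ω :=
    aeval (fun v => if hv : v ∈ T then C (ξ v) else X (e ⟨v, hv⟩))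
  have hφη : ∀ P, eval η (φ P) = aeval ξ P := by
    intro P
    have h1 : ((aeval η : MvPolynomial (Fin m) Ω →ₐ[Ω] Ω).restrictScalars k).comp φ = aeval ξ := by
      apply MvPolynomial.algHom_ext
      intro v
      simp only [AlgHom.comp_apply, φ, aeval_X, AlgHom.restrictScalars_apply]
      split_ifs with hv
      · simp
      · simp [η]
    have h2 := DFunLike.congr_fun h1 P
    rw [← h2]
    simp only [AlgHom.comp_apply, AlgHom.restrictScalars_apply]
    generalize φ P = g
    rw [MvPolynomial.aeval_def, Algebra.algebraMap_self, eval₂_id]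
  obtain ⟨P, hPp, hPh, hPη, g₀, hg₀, hg₀P⟩ := exists_prime_lt hsm
    (fun j => φ (f j) - C (aeval ξ (f j))) η (fun j => by
      rw [map_sub, hφη, eval_C, sub_self])
  -- pull back
  let P' : Ideal (MvPolynomial (Fin n) k) := P.comap φ
  haveI hP'p : P'.IsPrime := Ideal.IsPrime.comap _
  have hJP' : J.map (aeval f : MvPolynomial (Fin s) k →ₐ[k] MvPolynomial (Fin n) k) ≤ P' := by
    rw [Ideal.map_le_iff_le_comap]
    intro Q hQ
    rw [Ideal.mem_comap, Ideal.mem_comap]
    have h1 : aeval ξ (aeval f Q) = 0 := by
      rw [hξ]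
      exact hI.1.2 (Ideal.mem_map_of_mem _ hQ)
    -- the class of `φ (aeval f Q)` modulo `P` is the class of the constant `Q (f ξ) = 0`
    have h2 : (Ideal.Quotient.mkₐ k P).comp (φ.comp (aeval f)) =
        (Ideal.Quotient.mkₐ k P).comp (((Algebra.ofId Ω (MvPolynomial (Fin m) Ω)).restrictScalars
          k).comp ((aeval ξ : MvPolynomial (Fin n) k →ₐ[k] Ω).comp (aeval f))) := by
      apply MvPolynomial.algHom_ext
      intro j
      simp only [AlgHom.comp_apply, aeval_X]
      change Ideal.Quotient.mk P (φ (f j)) = Ideal.Quotient.mk P (C (aeval ξ (f j)))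
      rw [Ideal.Quotient.eq]
      exact hPh j
    have h3 := DFunLike.congr_fun h2 Q
    simp only [AlgHom.comp_apply] at h3
    rw [h1, map_zero, map_zero] at h3
    exact Ideal.Quotient.eq_zero_iff_mem.mp h3
  have hP'I : P' ≤ I := by
    intro Q hQ
    rw [← hξ, ← hφη]
    exact hPη _ hQ
  have hIP' : I ≤ P' := hI.2 ⟨hP'p, hJP'⟩ hP'I
  -- all `X i - C (η i)` lie in `P`
  have hlin : ∀ i : Fin m, X i - C (η i) ∈ P := by
    intro i
    set u : Fin n := ((e.symm i : {v // v ∉ T}) : Fin n) with hu
    have huT : u ∉ T := (e.symm i).2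
    have hdep : ¬ AlgebraicIndependent k (fun v : (insert u T : Finset (Fin n)) => ξ v) := by
      intro hind
      have := hTmax (insert u T) (by
        rw [Finset.mem_filter]
        exact ⟨Finset.mem_univ _, hind⟩)
      rw [Finset.card_insert_of_notMem huT] at this
      omega
    obtain ⟨R, hR0, hRv, hRne⟩ := exists_relation ξ T u huT hT hdep
    set q : Polynomial Ω := aeval (fun v => if v = u then (Polynomial.X : Polynomial Ω) else
      Polynomial.C (ξ v)) R with hq
    have h1 : φ R = Polynomial.aeval (X i : MvPolynomial (Fin m) Ω) q := by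
      have h5 : (φ : MvPolynomial (Fin n) k →+* MvPolynomial (Fin m) Ω) R =
          ((((Polynomial.aeval (X i : MvPolynomial (Fin m) Ω)).restrictScalars k).comp
            (aeval (fun v => if v = u then (Polynomial.X : Polynomial Ω) else
              Polynomial.C (ξ v))) : MvPolynomial (Fin n) k →ₐ[k] MvPolynomial (Fin m) Ω) :
              MvPolynomial (Fin n) k →+* MvPolynomial (Fin m) Ω) R := by
        apply MvPolynomial.hom_congr_vars (p₂ := R) _ _ rfl
        · ext a
          simp only [RingHom.comp_apply, RingHom.coe_coe, AlgHom.commutes,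
            ← MvPolynomial.algebraMap_eq]
        · intro v hv _
          simp only [RingHom.coe_coe, AlgHom.comp_apply, φ, aeval_X]
          rcases Finset.mem_insert.mp (hRv hv) with h | h
          · subst h
            rw [dif_neg huT, if_pos rfl]
            simp [hu]
          · have hvu : v ≠ u := fun h' => huT (h' ▸ h)
            rw [dif_pos h, if_neg hvu]
            simp
      exact h5
    have h2 : φ R ∈ P := hIP' ((hξ R).mp hR0)
    have h3 : q.Splits := IsAlgClosed.splits q
    have hq0 : q.leadingCoeff ≠ 0 := Polynomial.leadingCoeff_ne_zero.mpr hRne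
    rw [h1, h3.eq_prod_roots, map_mul, Polynomial.aeval_C, map_multiset_prod,
      Multiset.map_map] at h2
    have h6 : (Multiset.map (⇑(Polynomial.aeval (X i : MvPolynomial (Fin m) Ω)) ∘ fun a =>
        Polynomial.X - Polynomial.C a) q.roots).prod ∈ P := by
      rcases hPp.mem_or_mem h2 with h | h
      · exfalso
        apply hPp.ne_top
        apply Ideal.eq_top_of_isUnit_mem _ h
        exact (isUnit_iff_ne_zero.mpr hq0).map _
      · exact h
    rw [hPp.multiset_prod_mem_iff_exists_mem] at h6
    obtain ⟨r, hr, hrP⟩ := h6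
    obtain ⟨a, -, rfl⟩ := Multiset.mem_map.mp hr
    simp only [Function.comp_apply, map_sub, Polynomial.aeval_X, Polynomial.aeval_C] at hrP
    have h7 := hPη _ hrP
    rw [map_sub, eval_X, MvPolynomial.algebraMap_eq, eval_C, sub_eq_zero] at h7
    rw [h7]
    exact hrP
  apply hg₀P
  -- hence `P` contains every polynomial vanishing at `η`
  have h4 : ∀ g : MvPolynomial (Fin m) Ω, g - C (eval η g) ∈ P := by
    intro g
    induction g using MvPolynomial.induction_on with
    | C a => simp
    | add p q hp hq =>
      have := P.add_mem hp hq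
      convert this using 1
      simp only [map_add]
      ring
    | mul_X p i hp =>
      have := P.add_mem (P.mul_mem_right (X i) hp) (P.mul_mem_left (C (eval η p)) (hlin i))
      convert this using 1
      simp only [map_mul, eval_X]
      ring
  have := h4 g₀
  rwa [hg₀, map_zero, sub_zero] at this

end Pool.Agent.Helper97.BD
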