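import Mathlib
import Pool.Agent.Helper97.BD.Defs

/-!
BD MODULE K1: a nonzero polynomial of small degree with a nonzero derivative (MP_1dc56d_ag, bounded degree). Notation: Defs.lean.

PROOF. Strong induction on H.totalDegree. If some c in S and some p have eval c (pderiv p H) nonzero,
take H' = H. Otherwise all pderiv p H vanish on S. H is not constant (S is nonempty, eval c H = 0
and H is nonzero), so some monomial m in its support has m p > 0 for some p, and then
pderiv p H is nonzero in characteristic 0 (coefficient of m - single p 1 is (m p) * coeff m H;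
see MvPolynomial.pderiv_monomial, or use coeff_pderiv if it exists) and
totalDegree (pderiv p H) < totalDegree H (look for totalDegree_pderiv_lt or prove it on supports).
Apply the induction hypothesis to pderiv p H.
-/

namespace Pool.Agent.Helper97.BD

open MvPolynomial

universe u

theorem exists_pderiv_ne {k P : Type*} [Field k] [CharZero k] (S : Set (P → k)) (hS : S.Nonempty)
    (H : MvPolynomial P k) (hH : H ≠ 0) (hv : ∀ c ∈ S, eval c H = 0) :
    ∃ H' : MvPolynomial P k, (∀ c ∈ S, eval c H' = 0) ∧ ∃ c ∈ S, ∃ p, eval c (pderiv p H') ≠ 0 := by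
  classical
  obtain ⟨c₀, hc₀⟩ := hS
  have key : ∀ (n : ℕ) (H : MvPolynomial P k), H.totalDegree ≤ n → H ≠ 0 →
      (∀ c ∈ S, eval c H = 0) → ∃ H' : MvPolynomial P k, (∀ c ∈ S, eval c H' = 0) ∧
        ∃ c ∈ S, ∃ p, eval c (pderiv p H') ≠ 0 := by
    intro n
    induction n with
    | zero =>
      intro H hn hH hv
      exfalso
      have h1 : H = C (coeff 0 H) := totalDegree_eq_zero_iff_eq_C.1 (Nat.le_zero.1 hn)
      have h2 := hv c₀ hc₀
      rw [h1, eval_C] at h2
      rw [h2, map_zero] at h1
      exact hH h1
    | succ n ih =>
      intro H hn hH hv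
      by_cases hc : ∃ c ∈ S, ∃ p, eval c (pderiv p H) ≠ 0
      · exact ⟨H, hv, hc⟩
      push Not at hc
      obtain ⟨m, hm, hm0⟩ : ∃ m ∈ H.support, m ≠ 0 := by
        by_contra hcon
        push Not at hcon
        have h1 : H = C (coeff 0 H) := by
          ext m
          rw [coeff_C]
          split_ifs with h
          · rw [← h]
          · by_contra h0
            exact h (hcon m (mem_support_iff.2 h0)).symm
        have h2 := hv c₀ hc₀
        rw [h1, eval_C] at h2
        rw [h2, map_zero] at h1
        exact hH h1
      obtain ⟨p, hp⟩ : ∃ p, m p ≠ 0 := by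
        by_contra hcon
        push Not at hcon
        exact hm0 (Finsupp.ext hcon)
      have hle : Finsupp.single p 1 ≤ m := by
        rw [Finsupp.single_le_iff]
        omega
      have hne : pderiv p H ≠ 0 := by
        intro h0
        have h1 := coeff_pderiv (i := p) H (m - Finsupp.single p 1)
        rw [h0, coeff_zero, tsub_add_cancel_of_le hle] at h1
        have h2 : coeff m H ≠ 0 := mem_support_iff.1 hm
        have h3 : ∀ r : ℕ, (r : k) + 1 ≠ 0 := fun r => by exact_mod_cast Nat.succ_ne_zero r
        exact mul_ne_zero h2 (h3 _) h1.symm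
      refine ih (pderiv p H) ?_ hne fun c hcS => hc c hcS p
      refine Finset.sup_le fun m' hm' => ?_
      have h1 := mem_support_iff.1 hm'
      rw [coeff_pderiv] at h1
      have h2 : coeff (m' + Finsupp.single p 1) H ≠ 0 := left_ne_zero_of_mul h1
      have h3 := (le_totalDegree (mem_support_iff.2 h2)).trans hn
      rw [Finsupp.sum_add_index' (fun _ => rfl) (fun _ _ _ => rfl),
        Finsupp.sum_single_index rfl] at h3
      omega
  exact key H.totalDegree H le_rfl hH hv

end Pool.Agent.Helper97.BD
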