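import Mathlib
import Pool.Agent.Helper97.BD.Defs

/-!
BD MODULE K2: coefficient of degree D of H(c + delta) (MP_1dc56d_ag, bounded degree). Notation: Defs.lean.

PROOF. Let Phi = aeval (fun p => algebraMap (c p) + δ p). First, for every H:
(0) (Phi H).coeff 0 = algebraMap (eval c H) (induction, or: constantCoeff composed with Phi);
(1) for all e < D, (Phi H).coeff e is in 𝒜: the set of Q : Polynomial R with Q.coeff e in 𝒜 for all
e < D is closed under sums and products (Polynomial.coeff_mul, antidiagonal sums) and contains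
constants algebraMap a and all δ p (coeff 0 is 0, the others by h1).
Then the claim by MvPolynomial.induction_on H. Constants: (C a).coeff D = 0 as D is at least 1, and
pderiv = 0. Sums: clear (sub_add_sub_comm). Product H * X q:
coeff D of Phi H * (algebraMap (c q) + δ q) is
c q * coeff D (Phi H) + sum over antidiagonal D of coeff a (Phi H) * coeff b (δ q); in the last sum
b = 0 gives 0, a = 0 gives algebraMap (eval c H) * (δ q).coeff D, and the others (1 ≤ a, b < D) are
in 𝒜. On the other side pderiv p (H * X q) = pderiv p H * X q + H * (pderiv p (X q)), where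
pderiv p (X q) is 1 if p = q and 0 otherwise, so the sum over p is
c q * (sum for H) + eval c H * (δ q).coeff D. Subtract.
-/

namespace Pool.Agent.Helper97.BD

open MvPolynomial

universe u

theorem K2_coeff_zero {k R P : Type*} [Field k] [CommRing R] [Algebra k R]
    (c : P → k) (δ : P → Polynomial R) (h0 : ∀ p, (δ p).coeff 0 = 0) (H : MvPolynomial P k) :
    (aeval (fun p => algebraMap k (Polynomial R) (c p) + δ p) H).coeff 0 =
      algebraMap k R (eval c H) := by
  induction H using MvPolynomial.induction_on with
  | C a => simp [Polynomial.algebraMap_apply]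
  | add p q hp hq => rw [map_add, map_add, map_add, Polynomial.coeff_add, hp, hq]
  | mul_X p q hp =>
    rw [map_mul, map_mul, map_mul, aeval_X, eval_X, Polynomial.mul_coeff_zero, hp,
      Polynomial.coeff_add, h0, add_zero, Polynomial.algebraMap_apply, Polynomial.coeff_C_zero]

theorem K2_coeff_lt {k R P : Type*} [Field k] [CommRing R] [Algebra k R]
    (𝒜 : Subalgebra k R) (D : ℕ) (c : P → k) (δ : P → Polynomial R)
    (h0 : ∀ p, (δ p).coeff 0 = 0) (h1 : ∀ p e, 1 ≤ e → e < D → (δ p).coeff e ∈ 𝒜)
    (H : MvPolynomial P k) : ∀ e, e < D →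
    (aeval (fun p => algebraMap k (Polynomial R) (c p) + δ p) H).coeff e ∈ 𝒜 := by
  induction H using MvPolynomial.induction_on with
  | C a =>
    intro e _
    rw [aeval_C, Polynomial.algebraMap_apply, Polynomial.coeff_C]
    split_ifs
    · exact 𝒜.algebraMap_mem a
    · exact 𝒜.zero_mem
  | add p q hp hq =>
    intro e he
    rw [map_add, Polynomial.coeff_add]
    exact 𝒜.add_mem (hp e he) (hq e he)
  | mul_X p q hp =>
    intro e he
    rw [map_mul, aeval_X, Polynomial.coeff_mul]
    refine 𝒜.sum_mem fun x hx => ?_
    rw [Finset.HasAntidiagonal.mem_antidiagonal] at hx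
    refine 𝒜.mul_mem (hp x.1 (by omega)) ?_
    rw [Polynomial.coeff_add, Polynomial.algebraMap_apply, Polynomial.coeff_C]
    by_cases hx2 : x.2 = 0
    · rw [if_pos hx2, hx2, h0, add_zero]
      exact 𝒜.algebraMap_mem _
    · rw [if_neg hx2, zero_add]
      exact h1 q x.2 (by omega) (by omega)

theorem coeff_taylor {k R P : Type*} [Field k] [CommRing R] [Algebra k R] [Fintype P]
    (𝒜 : Subalgebra k R) (D : ℕ) (hD : 1 ≤ D) (c : P → k) (δ : P → Polynomial R)
    (h0 : ∀ p, (δ p).coeff 0 = 0) (h1 : ∀ p e, 1 ≤ e → e < D → (δ p).coeff e ∈ 𝒜)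
    (H : MvPolynomial P k) :
    (aeval (fun p => algebraMap k (Polynomial R) (c p) + δ p) H).coeff D -
      ∑ p, algebraMap k R (eval c (pderiv p H)) * (δ p).coeff D ∈ 𝒜 := by
  classical
  induction H using MvPolynomial.induction_on with
  | C a =>
    have h2 : (aeval (fun p => algebraMap k (Polynomial R) (c p) + δ p)
        (C a : MvPolynomial P k)).coeff D = 0 := by
      rw [aeval_C, Polynomial.algebraMap_apply, Polynomial.coeff_C, if_neg (by omega)]
    rw [h2]
    simp only [pderiv_C, map_zero, zero_mul, Finset.sum_const_zero, sub_zero]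
    exact 𝒜.zero_mem
  | add p q hp hq =>
    have h2 := 𝒜.add_mem hp hq
    rw [map_add, Polynomial.coeff_add]
    simp only [map_add, add_mul, Finset.sum_add_distrib]
    rw [← sub_add_sub_comm]
    exact h2
  | mul_X H q hp =>
    set Φ : MvPolynomial P k →ₐ[k] Polynomial R :=
      aeval (fun p => algebraMap k (Polynomial R) (c p) + δ p) with hΦ
    have hq : Φ (X q) = algebraMap k (Polynomial R) (c q) + δ q := by rw [hΦ, aeval_X]
    have hz := K2_coeff_zero c δ h0 H
    have hl := K2_coeff_lt 𝒜 D c δ h0 h1 H
    rw [← hΦ] at hz hl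
    -- the sum over the antidiagonal
    have hmem : ((0, D) : ℕ × ℕ) ∈ Finset.HasAntidiagonal.antidiagonal D := by simp
    have hsum : (Φ H * δ q).coeff D = algebraMap k R (eval c H) * (δ q).coeff D +
        ∑ x ∈ (Finset.HasAntidiagonal.antidiagonal D).erase (0, D), (Φ H).coeff x.1 * (δ q).coeff x.2 := by
      rw [Polynomial.coeff_mul, ← Finset.add_sum_erase _ _ hmem, hz]
    have hrest : ∑ x ∈ (Finset.HasAntidiagonal.antidiagonal D).erase (0, D),
        (Φ H).coeff x.1 * (δ q).coeff x.2 ∈ 𝒜 := by
      refine 𝒜.sum_mem fun x hx => ?_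
      rw [Finset.mem_erase, Finset.HasAntidiagonal.mem_antidiagonal] at hx
      by_cases hx2 : x.2 = 0
      · rw [hx2, h0, mul_zero]
        exact 𝒜.zero_mem
      · have hx1 : x.1 ≠ 0 := by
          intro h
          exact hx.1 (Prod.ext h (by simp only; omega))
        exact 𝒜.mul_mem (hl x.1 (by omega)) (h1 q x.2 (by omega) (by omega))
    have hcoef : (Φ (H * X q)).coeff D = algebraMap k R (c q) * (Φ H).coeff D +
        (algebraMap k R (eval c H) * (δ q).coeff D +
        ∑ x ∈ (Finset.HasAntidiagonal.antidiagonal D).erase (0, D), (Φ H).coeff x.1 * (δ q).coeff x.2) := by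
      rw [map_mul, hq, mul_add, Polynomial.coeff_add, hsum, Polynomial.algebraMap_apply,
        mul_comm (Φ H), Polynomial.coeff_C_mul]
    have hder : ∑ p, algebraMap k R (eval c (pderiv p (H * X q))) * (δ p).coeff D =
        algebraMap k R (c q) * ∑ p, algebraMap k R (eval c (pderiv p H)) * (δ p).coeff D +
          algebraMap k R (eval c H) * (δ q).coeff D := by
      have h2 : ∀ p, algebraMap k R (eval c (pderiv p (H * X q))) * (δ p).coeff D =
          algebraMap k R (c q) * (algebraMap k R (eval c (pderiv p H)) * (δ p).coeff D) +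
            (if p = q then algebraMap k R (eval c H) * (δ q).coeff D else 0) := by
        intro p
        rw [pderiv_mul]
        by_cases hpq : p = q
        · subst hpq
          rw [pderiv_X_self, if_pos rfl]
          simp only [map_add, map_mul, eval_X, mul_one]
          ring
        · rw [pderiv_X_of_ne (Ne.symm hpq), if_neg hpq]
          simp only [map_add, map_mul, eval_X, mul_zero, add_zero]
          ring
      rw [Finset.sum_congr rfl fun p _ => h2 p, Finset.sum_add_distrib, ← Finset.mul_sum,
        Finset.sum_ite_eq' Finset.univ q, if_pos (Finset.mem_univ q)]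
    have hfin : (Φ (H * X q)).coeff D -
        ∑ p, algebraMap k R (eval c (pderiv p (H * X q))) * (δ p).coeff D =
        algebraMap k R (c q) * ((Φ H).coeff D -
          ∑ p, algebraMap k R (eval c (pderiv p H)) * (δ p).coeff D) +
        ∑ x ∈ (Finset.HasAntidiagonal.antidiagonal D).erase (0, D), (Φ H).coeff x.1 * (δ q).coeff x.2 := by
      rw [hcoef, hder]; ring
    rw [hfin]
    exact 𝒜.add_mem (𝒜.mul_mem (𝒜.algebraMap_mem _) hp) hrest

end Pool.Agent.Helper97.BD
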