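import Mathlib
import Pool.Agent.Helper97.BD.Defs

/-!
BD MODULE K3a: the perturbed family, lower coefficients (MP_1dc56d_ag, bounded degree). Notation: Defs.lean.

PROOF. (coeff_zero) Compose pert with the map MvPolynomial.map of the ring hom
Polynomial.constantCoeff (or evalRingHom 0) : Polynomial (MvPolynomial σ k) → MvPolynomial σ k; the
result agrees with MvPolynomial.map C composed with lsub A₀ on every X v, hence everywhere
(as k-algebra homs, algHom_ext). Take coeff γ (coeff_map).
(coeff_homog) Call Q : MvPolynomial τ (Polynomial (MvPolynomial σ k)) good if for all γ and e,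
((coeff γ Q).coeff e).IsHomogeneous e. Good is closed under sums and products (coeff_mul for
MvPolynomial and Polynomial.coeff_mul: sums over antidiagonals of products of forms of degrees
adding up to e), contains constants from k (coefficient e = 0 only, homogeneous of degree 0) and
every pert A₀ t (X v) (its coefficients at X j are C (C (A₀ j v)) + X * C (C (t j) * X v): degree 0
and degree 1). Conclude by MvPolynomial.induction_on.
-/

namespace Pool.Agent.Helper97.BD

open MvPolynomial

universe u

theorem K3a_pert_X {k : Type u} [Field k] {σ τ : Type*} [Fintype τ] (A₀ : τ → σ → k)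
    (t : τ → k) (v : σ) : pert A₀ t (X v) = ∑ j, C (Polynomial.C (C (A₀ j v)) +
    Polynomial.X * Polynomial.C (C (t j) * X v)) * X j := by
  unfold pert
  rw [aeval_X]

theorem K3a_pert_C {k : Type u} [Field k] {σ τ : Type*} [Fintype τ] (A₀ : τ → σ → k)
    (t : τ → k) (a : k) : pert A₀ t (C a) = C (Polynomial.C (C a)) := by
  unfold pert
  rw [aeval_C]
  rfl

theorem pert_coeff_zero {k : Type u} [Field k] {σ τ : Type*} [Fintype τ] (A₀ : τ → σ → k)
    (t : τ → k) (F : MvPolynomial σ k) (γ : τ →₀ ℕ) :
    (coeff γ (pert A₀ t F)).coeff 0 = C (coeff γ (lsub A₀ F)) := by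
  have h : ((MvPolynomial.map (Polynomial.constantCoeff : Polynomial (MvPolynomial σ k) →+* _)).comp
      (pert A₀ t : MvPolynomial σ k →+* MvPolynomial τ (Polynomial (MvPolynomial σ k)))) =
      (MvPolynomial.map (C : k →+* MvPolynomial σ k)).comp
        (lsub A₀ : MvPolynomial σ k →+* MvPolynomial τ k) := by
    apply MvPolynomial.ringHom_ext
    · intro a
      simp only [RingHom.comp_apply, RingHom.coe_coe, K3a_pert_C, map_C]
      unfold lsub
      rw [aeval_C]
      simp
    · intro v
      simp only [RingHom.comp_apply, RingHom.coe_coe, K3a_pert_X]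
      unfold lsub
      rw [aeval_X]
      simp [map_sum]
  have h2 := congrArg (fun f => coeff γ (f F)) h
  simp only [RingHom.comp_apply, RingHom.coe_coe, coeff_map] at h2
  exact h2

theorem K3a_good_mul {k : Type u} [Field k] {σ τ : Type*}
    (Q Q' : MvPolynomial τ (Polynomial (MvPolynomial σ k)))
    (h : ∀ γ e, ((coeff γ Q).coeff e).IsHomogeneous e)
    (h' : ∀ γ e, ((coeff γ Q').coeff e).IsHomogeneous e) :
    ∀ γ e, ((coeff γ (Q * Q')).coeff e).IsHomogeneous e := by
  classical
  intro γ e
  rw [coeff_mul, Polynomial.finsetSum_coeff]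
  apply IsHomogeneous.sum
  intro x _
  rw [Polynomial.coeff_mul]
  apply IsHomogeneous.sum
  intro y hy
  rw [← Finset.HasAntidiagonal.mem_antidiagonal.1 hy]
  exact (h _ _).mul (h' _ _)

theorem K3a_good_C {k : Type u} [Field k] {σ τ : Type*} (c : Polynomial (MvPolynomial σ k))
    (hc : ∀ e, (c.coeff e).IsHomogeneous e) :
    ∀ (γ : τ →₀ ℕ) e, ((coeff γ (C c)).coeff e).IsHomogeneous e := by
  classical
  intro γ e
  rw [coeff_C]
  split_ifs
  · exact hc e
  · rw [Polynomial.coeff_zero]
    exact isHomogeneous_zero _ _ _

theorem pert_coeff_homog {k : Type u} [Field k] {σ τ : Type*} [Fintype τ] (A₀ : τ → σ → k)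
    (t : τ → k) (F : MvPolynomial σ k) (γ : τ →₀ ℕ) (e : ℕ) :
    ((coeff γ (pert A₀ t F)).coeff e).IsHomogeneous e := by
  classical
  have hall : ∀ γ e, ((coeff γ (pert A₀ t F)).coeff e).IsHomogeneous e := by
    induction F using MvPolynomial.induction_on with
    | C a =>
      rw [K3a_pert_C]
      apply K3a_good_C
      intro e
      rw [Polynomial.coeff_C]
      split_ifs with h
      · rw [h]; exact isHomogeneous_C _ _
      · exact isHomogeneous_zero _ _ _
    | add p q hp hq =>
      intro γ e
      rw [map_add, coeff_add, Polynomial.coeff_add]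
      exact (hp γ e).add (hq γ e)
    | mul_X p v hp =>
      rw [map_mul]
      apply K3a_good_mul _ _ hp
      intro γ e
      rw [K3a_pert_X, coeff_sum, Polynomial.finsetSum_coeff]
      apply IsHomogeneous.sum
      intro j _
      rw [coeff_C_mul, coeff_X]
      split_ifs
      · rw [mul_one, Polynomial.coeff_add, Polynomial.coeff_C, mul_comm, Polynomial.coeff_C_mul,
          Polynomial.coeff_X]
        apply IsHomogeneous.add
        · split_ifs with h
          · rw [h]; exact isHomogeneous_C _ _
          · exact isHomogeneous_zero _ _ _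
        · split_ifs with h
          · rw [← h, mul_one]
            have := (isHomogeneous_C σ (t j)).mul (isHomogeneous_X k v)
            simpa using this
          · rw [mul_zero]; exact isHomogeneous_zero _ _ _
      · rw [mul_zero, Polynomial.coeff_zero]; exact isHomogeneous_zero _ _ _
  exact hall γ e

end Pool.Agent.Helper97.BD
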