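import Mathlib
import Pool.Agent.Helper97.BD.Defs

/-!
BD MODULE K3b: the perturbed family, top coefficients (MP_1dc56d_ag, bounded degree). Notation: Defs.lean.

PROOF. For Q : MvPolynomial τ (Polynomial R), R = MvPolynomial σ k, n : ℕ and T : MvPolynomial τ R
let Top Q n T mean: for all γ, (coeff γ Q).natDegree ≤ n and (coeff γ Q).coeff n = coeff γ T.
Top Q n T and Top Q' n' T' give Top (Q * Q') (n + n') (T * T') (MvPolynomial.coeff_mul, a sum over
the antidiagonal of γ; Polynomial.natDegree_mul_le, natDegree_sum_le, and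
Polynomial.coeff_mul_add_eq_of_natDegree_le for the coefficient). For the generators:
Top (pert A₀ t (X v)) 1 (C (X v) * ∑ j, C (C (t j)) * X j); so for a monomial m of degree D,
Top (pert A₀ t (monomial m 1)) D (∏ v, (C (X v) * ∑ j, C (C (t j)) * X j) ^ m v), and this last
product is C (monomial m 1) * (∑ j, C (C (t j)) * X j) ^ D. By linearity (F is the sum of its
monomials, all of degree D as F is homogeneous)
Top (pert A₀ t F) D (C F * (∑ j, C (C (t j)) * X j) ^ D). Both claims follow: for e > D use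
natDegree ≤ D; for e = D, coeff γ (C F * Y) = F * coeff γ Y and
(∑ j, C (C (t j)) * X j) ^ D = MvPolynomial.map C ((∑ j, C (t j) * X j) ^ D) (coeff_map), mul_comm.
-/

namespace Pool.Agent.Helper97.BD

open MvPolynomial

universe u

theorem K3b_pert_X {k : Type u} [Field k] {σ τ : Type*} [Fintype τ] (A₀ : τ → σ → k)
    (t : τ → k) (v : σ) : pert A₀ t (X v) = ∑ j, C (Polynomial.C (C (A₀ j v)) +
    Polynomial.X * Polynomial.C (C (t j) * X v)) * X j := by
  unfold pert
  rw [aeval_X]

theorem K3b_pert_C {k : Type u} [Field k] {σ τ : Type*} [Fintype τ] (A₀ : τ → σ → k)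
    (t : τ → k) (a : k) : pert A₀ t (C a) = C (Polynomial.C (C a)) := by
  unfold pert
  rw [aeval_C]
  rfl

/-- top coefficient -/
def K3b_Top {R τ : Type*} [CommRing R] (Q : MvPolynomial τ (Polynomial R)) (n : ℕ)
    (T : MvPolynomial τ R) : Prop :=
  ∀ γ, (coeff γ Q).natDegree ≤ n ∧ (coeff γ Q).coeff n = coeff γ T

theorem K3b_Top.mul {R τ : Type*} [CommRing R] {Q Q' : MvPolynomial τ (Polynomial R)} {n n' : ℕ}
    {T T' : MvPolynomial τ R} (h : K3b_Top Q n T) (h' : K3b_Top Q' n' T') :
    K3b_Top (Q * Q') (n + n') (T * T') := by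
  classical
  intro γ
  rw [coeff_mul, coeff_mul]
  constructor
  · apply Polynomial.natDegree_sum_le_of_forall_le
    intro x _
    exact Polynomial.natDegree_mul_le.trans (add_le_add (h _).1 (h' _).1)
  · rw [Polynomial.finsetSum_coeff]
    refine Finset.sum_congr rfl fun x _ => ?_
    rw [Polynomial.coeff_mul_add_eq_of_natDegree_le (h _).1 (h' _).1, (h _).2, (h' _).2]

theorem K3b_Top.add {R τ : Type*} [CommRing R] {Q Q' : MvPolynomial τ (Polynomial R)} {n : ℕ}
    {T T' : MvPolynomial τ R} (h : K3b_Top Q n T) (h' : K3b_Top Q' n T') :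
    K3b_Top (Q + Q') n (T + T') := by
  intro γ
  rw [coeff_add, coeff_add, Polynomial.coeff_add, (h γ).2, (h' γ).2]
  exact ⟨(Polynomial.natDegree_add_le _ _).trans (max_le (h γ).1 (h' γ).1), rfl⟩

theorem K3b_Top.zero {R τ : Type*} [CommRing R] (n : ℕ) :
    K3b_Top (0 : MvPolynomial τ (Polynomial R)) n 0 := by
  intro γ
  simp

theorem K3b_Top.const {R τ : Type*} [CommRing R] (a : R) :
    K3b_Top (C (Polynomial.C a) : MvPolynomial τ (Polynomial R)) 0 (C a) := by
  classical
  intro γ
  rw [coeff_C, coeff_C]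
  split_ifs
  · simp
  · simp

theorem K3b_Top.pow {R τ : Type*} [CommRing R] {Q : MvPolynomial τ (Polynomial R)} {n : ℕ}
    {T : MvPolynomial τ R} (h : K3b_Top Q n T) (e : ℕ) : K3b_Top (Q ^ e) (e * n) (T ^ e) := by
  induction e with
  | zero =>
    have := K3b_Top.const (τ := τ) (1 : R)
    simpa using this
  | succ e ih =>
    rw [pow_succ, pow_succ, add_mul, one_mul]
    exact ih.mul h

theorem K3b_Top.sum {R τ ι : Type*} [CommRing R] (s : Finset ι)
    (Q : ι → MvPolynomial τ (Polynomial R)) (n : ℕ) (T : ι → MvPolynomial τ R)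
    (h : ∀ i ∈ s, K3b_Top (Q i) n (T i)) : K3b_Top (∑ i ∈ s, Q i) n (∑ i ∈ s, T i) := by
  classical
  induction s using Finset.induction_on with
  | empty => simpa using K3b_Top.zero n
  | insert a s ha ih =>
    rw [Finset.sum_insert ha, Finset.sum_insert ha]
    exact (h a (Finset.mem_insert_self _ _)).add
      (ih fun i hi => h i (Finset.mem_insert_of_mem hi))

/-- the linear form -/
noncomputable def K3b_L {k : Type u} [Field k] {τ : Type*} (σ : Type*) [Fintype τ] (t : τ → k) :
    MvPolynomial τ (MvPolynomial σ k) := ∑ j, C (C (t j)) * X j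

theorem K3b_top_X {k : Type u} [Field k] {σ τ : Type*} [Fintype τ] (A₀ : τ → σ → k)
    (t : τ → k) (v : σ) : K3b_Top (pert A₀ t (X v)) 1 (C (X v) * K3b_L σ t) := by
  classical
  rw [K3b_pert_X, K3b_L, Finset.mul_sum]
  apply K3b_Top.sum
  intro j _ γ
  have e : (C (X v) * (C (C (t j)) * X j) : MvPolynomial τ (MvPolynomial σ k)) =
      C (C (t j) * X v) * X j := by
    rw [C_mul]
    ring
  rw [e, coeff_C_mul, coeff_C_mul, coeff_X, coeff_X]
  split_ifs
  · rw [mul_one, mul_one]
    constructor
    · refine (Polynomial.natDegree_add_le _ _).trans (max_le ?_ ?_)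
      · rw [Polynomial.natDegree_C]; omega
      · refine Polynomial.natDegree_mul_le.trans ?_
        rw [Polynomial.natDegree_C]
        exact Polynomial.natDegree_X_le
    · rw [Polynomial.coeff_add, Polynomial.coeff_C, if_neg one_ne_zero, zero_add]
      have := Polynomial.coeff_X_mul (Polynomial.C (C (t j) * X v : MvPolynomial σ k)) 0
      rw [zero_add] at this
      rw [this, Polynomial.coeff_C_zero]
  · rw [mul_zero, mul_zero]
    simp

theorem K3b_top_monomial {k : Type u} [Field k] {σ τ : Type*} [Fintype τ] (A₀ : τ → σ → k)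
    (t : τ → k) (m : σ →₀ ℕ) : ∀ a : k,
    K3b_Top (pert A₀ t (monomial m a)) m.degree (C (monomial m a) * K3b_L σ t ^ m.degree) := by
  classical
  induction m using Finsupp.induction_linear with
  | zero =>
    intro a
    have h : (monomial 0 a : MvPolynomial σ k) = C a := rfl
    rw [h, K3b_pert_C]
    simpa using K3b_Top.const (τ := τ) (C a : MvPolynomial σ k)
  | add f g hf hg =>
    intro a
    have h : (monomial (f + g) a : MvPolynomial σ k) = monomial f a * monomial g 1 := by
      rw [monomial_mul, mul_one]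
    rw [h, map_mul, Finsupp.degree.map_add, pow_add, C_mul]
    have h2 := (hf a).mul (hg 1)
    have e : (C (monomial f a) * C (monomial g 1) * (K3b_L σ t ^ f.degree * K3b_L σ t ^ g.degree) :
        MvPolynomial τ (MvPolynomial σ k)) =
        C (monomial f a) * K3b_L σ t ^ f.degree * (C (monomial g 1) * K3b_L σ t ^ g.degree) := by
      ring
    rw [e]
    exact h2
  | single v n =>
    intro a
    have h : (monomial (Finsupp.single v n) a : MvPolynomial σ k) = C a * X v ^ n := by
      rw [C_mul_X_pow_eq_monomial]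
    have hdeg : (Finsupp.single v n).degree = n := Finsupp.degree_single v n
    rw [hdeg, h, map_mul, map_pow, K3b_pert_C, C_mul, map_pow]
    have h2 := (K3b_Top.const (τ := τ) (C a : MvPolynomial σ k)).mul ((K3b_top_X A₀ t v).pow n)
    rw [mul_one, zero_add, mul_pow, ← mul_assoc] at h2
    exact h2

theorem K3b_top {k : Type u} [Field k] {σ τ : Type*} [Fintype τ] (A₀ : τ → σ → k)
    (t : τ → k) (F : MvPolynomial σ k) {D : ℕ} (hF : F.IsHomogeneous D) :
    K3b_Top (pert A₀ t F) D (C F * K3b_L σ t ^ D) := by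
  classical
  have h : ∀ m ∈ F.support, K3b_Top (pert A₀ t (monomial m (coeff m F))) D
      (C (monomial m (coeff m F)) * K3b_L σ t ^ D) := by
    intro m hm
    have hdeg : m.degree = D := by
      rw [Finsupp.degree_eq_weight_one]
      exact hF (mem_support_iff.1 hm)
    rw [← hdeg]
    exact K3b_top_monomial A₀ t m _
  have h2 := K3b_Top.sum F.support _ D _ h
  rw [← Finset.sum_mul, ← map_sum, ← map_sum, support_sum_monomial_coeff] at h2
  exact h2

theorem pert_coeff_gt {k : Type u} [Field k] {σ τ : Type*} [Fintype τ] (A₀ : τ → σ → k)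
    (t : τ → k) (F : MvPolynomial σ k) {D : ℕ} (hF : F.IsHomogeneous D) (γ : τ →₀ ℕ) (e : ℕ)
    (he : D < e) : (coeff γ (pert A₀ t F)).coeff e = 0 :=
  Polynomial.coeff_eq_zero_of_natDegree_lt (lt_of_le_of_lt (K3b_top A₀ t F hF γ).1 he)

theorem pert_coeff_top {k : Type u} [Field k] {σ τ : Type*} [Fintype τ] (A₀ : τ → σ → k)
    (t : τ → k) (F : MvPolynomial σ k) {D : ℕ} (hF : F.IsHomogeneous D) (γ : τ →₀ ℕ) :
    (coeff γ (pert A₀ t F)).coeff D = C (coeff γ ((∑ j, C (t j) * X j) ^ D)) * F := by
  rw [(K3b_top A₀ t F hF γ).2, coeff_C_mul, mul_comm]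
  congr 1
  have e : K3b_L σ t ^ D = MvPolynomial.map (C : k →+* MvPolynomial σ k) ((∑ j, C (t j) * X j) ^ D) := by
    rw [map_pow, map_sum, K3b_L]
    congr 1
    refine Finset.sum_congr rfl fun j _ => ?_
    rw [map_mul, map_C, map_X]
  rw [e, coeff_map]

end Pool.Agent.Helper97.BD
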