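import Mathlib
import Pool.Agent.Helper97.BD.Defs

/-!
BD MODULE K4: a relation between coefficients holds for the generic matrix (MP_1dc56d_ag, bounded degree). Notation: Defs.lean.

PROOF. Let gen : MvPolynomial σ k →ₐ MvPolynomial τ (MvPolynomial (τ × σ) k) be
aeval (fun v => ∑ j, C (X (j, v)) * X j). For a matrix A, MvPolynomial.map (eval (fun q => A q.1 q.2))
(gen F) = lsub A F (compare ring homs on X v and on constants). So the polynomial
Q = aeval (fun p => coeff p.1.2 (gen (F p.1.1))) H in MvPolynomial (τ × σ) k has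
eval (fun q => A q.1 q.2) Q = eval (fun p => coeff p.1.2 (lsub A (F p.1.1))) H = 0 for all A, so
Q = 0 (MvPolynomial.funext, k infinite, τ × σ finite; if funext wants Fintype or nothing, adapt).
Let φ : MvPolynomial (τ × σ) k →ₐ Polynomial (MvPolynomial σ k) send X (j, v) to
Polynomial.C (C (A₀ j v)) + Polynomial.X * Polynomial.C (C (t j) * X v). Then
MvPolynomial.map φ (gen F) = pert A₀ t F, coeff commutes with map, and so
aeval (fun p => coeff p.1.2 (pert A₀ t (F p.1.1))) H = φ Q = 0 (comp_aeval).
-/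

namespace Pool.Agent.Helper97.BD

open MvPolynomial

universe u

/-- the generic substitution -/
noncomputable def K4_gen (k : Type u) [Field k] (σ τ : Type*) [Fintype τ] :
    MvPolynomial σ k →ₐ[k] MvPolynomial τ (MvPolynomial (τ × σ) k) :=
  aeval (fun v => ∑ j, C (X (j, v)) * X j)

theorem K4_eval {k : Type u} [Field k] {σ τ : Type*} [Fintype τ] (A : τ → σ → k)
    (F : MvPolynomial σ k) :
    MvPolynomial.map (eval (fun q : τ × σ => A q.1 q.2)) (K4_gen k σ τ F) = lsub A F := by
  unfold K4_gen lsub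
  induction F using MvPolynomial.induction_on with
  | C a =>
    rw [aeval_C, aeval_C, MvPolynomial.algebraMap_apply, MvPolynomial.algebraMap_apply, map_C]
    simp
  | add p q hp hq => rw [map_add, map_add, map_add, hp, hq]
  | mul_X p q hp =>
    rw [map_mul, map_mul, map_mul, hp, aeval_X, aeval_X, map_sum]
    simp only [map_mul, map_C, map_X, eval_X]

/-- the specialisation of the generic matrix -/
noncomputable def K4_phi {k : Type u} [Field k] {σ τ : Type*} (A₀ : τ → σ → k) (t : τ → k) :
    MvPolynomial (τ × σ) k →ₐ[k] Polynomial (MvPolynomial σ k) :=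
  aeval (fun q : τ × σ => Polynomial.C (C (A₀ q.1 q.2)) +
      Polynomial.X * Polynomial.C (C (t q.1) * X q.2))

theorem K4_pert {k : Type u} [Field k] {σ τ : Type*} [Fintype τ] (A₀ : τ → σ → k) (t : τ → k)
    (F : MvPolynomial σ k) :
    MvPolynomial.map (K4_phi A₀ t : MvPolynomial (τ × σ) k →+* Polynomial (MvPolynomial σ k))
      (K4_gen k σ τ F) = pert A₀ t F := by
  unfold K4_gen pert
  induction F using MvPolynomial.induction_on with
  | C a =>
    rw [aeval_C, aeval_C, MvPolynomial.algebraMap_apply, map_C]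
    change C (K4_phi A₀ t (C a)) = C (algebraMap k (Polynomial (MvPolynomial σ k)) a)
    exact congrArg C ((K4_phi A₀ t).commutes a)
  | add p q hp hq => rw [map_add, map_add, map_add, hp, hq]
  | mul_X p q hp =>
    rw [map_mul, map_mul, map_mul, hp, aeval_X, aeval_X, map_sum]
    congr 1
    refine Finset.sum_congr rfl fun j _ => ?_
    rw [map_mul, map_C, map_X]
    congr 2
    exact aeval_X _ _

theorem pert_identity {k : Type u} [Field k] [Infinite k] {ι σ τ : Type*} [Finite σ] [Fintype τ]
    (d : ι → ℕ) (F : ι → MvPolynomial σ k) (H : MvPolynomial (Idx d τ) k)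
    (hv : ∀ A : τ → σ → k, eval (fun p : Idx d τ => coeff p.1.2 (lsub A (F p.1.1))) H = 0)
    (A₀ : τ → σ → k) (t : τ → k) :
    aeval (fun p : Idx d τ => coeff p.1.2 (pert A₀ t (F p.1.1))) H = 0 := by
  set Q : MvPolynomial (τ × σ) k :=
    aeval (fun p : Idx d τ => coeff p.1.2 (K4_gen k σ τ (F p.1.1))) H with hQ
  have hQ0 : Q = 0 := by
    apply MvPolynomial.funext
    intro x
    rw [map_zero, ← hv (fun j v => x (j, v)), hQ]
    have h1 : (fun q : τ × σ => (fun j v => x (j, v)) q.1 q.2) = x := by
      funext q; rfl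
    have h2 : ∀ p : Idx d τ, coeff p.1.2 (lsub (fun j v => x (j, v)) (F p.1.1)) =
        eval x (coeff p.1.2 (K4_gen k σ τ (F p.1.1))) := by
      intro p
      rw [← K4_eval, coeff_map]
    simp only [h2]
    have h3 := MvPolynomial.map_aeval
      (fun p : Idx d τ => coeff p.1.2 (K4_gen k σ τ (F p.1.1))) (eval x) H
    rw [h3]
    have h4 : (eval x).comp (algebraMap k (MvPolynomial (τ × σ) k)) = RingHom.id k := by
      ext a
      simp [MvPolynomial.algebraMap_eq]
    rw [h4]
    rfl
  set φ : MvPolynomial (τ × σ) k →ₐ[k] Polynomial (MvPolynomial σ k) := K4_phi A₀ t with hφ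
  have h5 : ∀ p : Idx d τ, coeff p.1.2 (pert A₀ t (F p.1.1)) =
      φ (coeff p.1.2 (K4_gen k σ τ (F p.1.1))) := by
    intro p
    rw [← K4_pert, coeff_map]
    rfl
  simp only [h5]
  have h6 : aeval (fun p : Idx d τ => φ (coeff p.1.2 (K4_gen k σ τ (F p.1.1)))) H = φ Q := by
    rw [hQ]
    exact (comp_aeval_apply (f := fun p : Idx d τ => coeff p.1.2 (K4_gen k σ τ (F p.1.1))) φ H).symm
  rw [h6, hQ0, map_zero]

end Pool.Agent.Helper97.BD
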