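import Mathlib
import Pool.Agent.Helper97.BD.Defs

/-!
BD MODULE K6: powers of linear forms span (MP_1dc56d_ag, bounded degree). Notation: Defs.lean.

PROOF. For t : τ → k and γ of degree D, coeff γ ((∑ j, C (t j) * X j) ^ D) =
(multinomial coefficient of γ) * ∏ j, t j ^ γ j: use Finset.sum_pow_eq_sum_piAntidiag (or another
multinomial theorem), (C (t j) * X j) ^ m = C (t j ^ m) * X j ^ m, and compare monomials. The
multinomial coefficient is a positive natural number, so nonzero in k (characteristic 0). Hence the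
polynomial Q = ∑ γ ∈ S, monomial γ (a γ * multinomial γ) of MvPolynomial τ k is nonzero (its
coefficient at γ₀ is nonzero), and there is t with eval t Q nonzero (MvPolynomial.funext, k is
infinite). eval t Q is the sum in the statement.
-/

namespace Pool.Agent.Helper97.BD

open MvPolynomial

universe u

theorem K6_coeff {k : Type u} [Field k] {τ : Type*} [Fintype τ] (t : τ → k) (γ : τ →₀ ℕ) :
    coeff γ ((∑ j, C (t j) * X j : MvPolynomial τ k) ^ γ.degree) =
      (γ.multinomial : k) * γ.prod (fun j m => t j ^ m) := by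
  classical
  have h1 := coeff_linearCombination_X_pow (Finsupp.equivFunOnFinite.symm t) γ γ.degree
  have h2 : (Finsupp.equivFunOnFinite.symm t).linearCombination k (X : τ → MvPolynomial τ k) =
      ∑ j, C (t j) * X j := by
    rw [Finsupp.linearCombination_apply, Finsupp.sum_fintype _ _ (by intro i; rw [zero_smul])]
    refine Finset.sum_congr rfl fun j _ => ?_
    rw [smul_eq_C_mul]
    rfl
  have h3 : (γ.sum fun _ m => m) = γ.degree := rfl
  rw [← h2, h1, if_pos h3]
  rfl

theorem exists_pow_ne {k : Type u} [Field k] [CharZero k] {τ : Type*} [Fintype τ] (D : ℕ)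
    (S : Finset (τ →₀ ℕ)) (hS : ∀ γ ∈ S, γ.degree = D) (a : (τ →₀ ℕ) → k) (γ₀ : τ →₀ ℕ)
    (h₀ : γ₀ ∈ S) (ha : a γ₀ ≠ 0) :
    ∃ t : τ → k, ∑ γ ∈ S, a γ * coeff γ ((∑ j, C (t j) * X j : MvPolynomial τ k) ^ D) ≠ 0 := by
  classical
  have hinf : Infinite k := CharZero.infinite k
  by_contra hcon
  push Not at hcon
  have hQ : (∑ γ ∈ S, monomial γ (a γ * (γ.multinomial : k)) : MvPolynomial τ k) = 0 := by
    apply MvPolynomial.funext
    intro t
    rw [map_zero, map_sum, ← hcon t]
    refine Finset.sum_congr rfl fun γ hγ => ?_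
    rw [eval_monomial, mul_assoc, ← hS γ hγ, K6_coeff]
  have h1 := congrArg (coeff γ₀) hQ
  rw [coeff_sum, Finset.sum_eq_single γ₀, coeff_monomial, if_pos rfl, coeff_zero] at h1
  · have h2 : (γ₀.multinomial : k) ≠ 0 := by
      exact_mod_cast (Nat.multinomial_pos _ _).ne'
    exact mul_ne_zero ha h2 h1
  · intro γ _ hne
    rw [coeff_monomial, if_neg hne]
  · intro h
    exact absurd h₀ h

end Pool.Agent.Helper97.BD
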