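import Mathlib
import Pool.Agent.Helper97.BD.K1
import Pool.Agent.Helper97.BD.K2
import Pool.Agent.Helper97.BD.K3a
import Pool.Agent.Helper97.BD.K3b
import Pool.Agent.Helper97.BD.K4
import Pool.Agent.Helper97.BD.K6

/-!
BD MODULE K5: the key lemma (MP_1dc56d_ag, bounded degree). Notation: Defs.lean.

PROOF. Let S be the set of all c_A = (fun p => coeff p.1.2 (lsub A (F p.1.1))). By K1
(exists_pderiv_ne) there is H' vanishing on S and a matrix A₀ such that, with c = c_{A₀}, some
eval c (pderiv p H') is nonzero. Let D be the maximum of d p.1.1 over all p with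
eval c (pderiv p H') nonzero (finitely many p; Idx d τ is finite, get a Fintype by
Fintype.ofFinite), attained at p₁ = (i₁, γ₁). By K6 applied to a γ = eval c (pderiv (i₁, γ) H') on the
set of all γ of degree D there is t with
∑ over γ of degree D of eval c (pderiv (i₁, γ) H') * coeff γ ((∑ j, C (t j) * X j) ^ D) nonzero.
Put R = MvPolynomial σ k, q p = coeff p.1.2 (pert A₀ t (F p.1.1)) : Polynomial R,
δ p = q p - algebraMap (c p). By K3a (δ p).coeff 0 = 0 and (δ p).coeff e = (q p).coeff e for e ≥ 1.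
Let 𝒜 be the subalgebra generated by all (q p).coeff e, 1 ≤ e < D. K4 for H' gives
aeval (fun p => algebraMap (c p) + δ p) H' = 0, so K2 gives
∑ p, algebraMap (eval c (pderiv p H')) * (q p).coeff D ∈ 𝒜. Here for d p.1.1 > D the factor
eval c (pderiv p H') is 0; for d p.1.1 < D, (q p).coeff D = 0 by K3b; for d p.1.1 = D,
(q p).coeff D = C (coeff p.1.2 ((∑ j, C (t j) * X j) ^ D)) * F p.1.1. So with
c' i = if d i = D then ∑ over p with p.1.1 = i of
eval c (pderiv p H') * coeff p.1.2 ((∑ j, C (t j) * X j) ^ D) else 0 we have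
∑ i, C (c' i) * F i ∈ 𝒜 and c' i₁ is nonzero. The Θ: number the elements of Idx d τ by
Fin (Nat.card (Idx d τ)) (Finite.equivFin) and put Θ l e = (q p).coeff e, homogeneous of degree e by K3a.
Remarks: Idx d τ is the type of pairs with degree condition; pderiv needs DecidableEq only through
classical. CharZero gives Infinite k.
-/

namespace Pool.Agent.Helper97.BD

open MvPolynomial

universe u

theorem key {k : Type u} [Field k] [CharZero k] {ι τ σ : Type*} [Fintype ι] [Fintype τ] [Finite σ]
    (d : ι → ℕ) (hd : ∀ i, 1 ≤ d i) (F : ι → MvPolynomial σ k)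
    (hF : ∀ i, (F i).IsHomogeneous (d i)) (H : MvPolynomial (Idx d τ) k) (hH : H ≠ 0)
    (hv : ∀ A : τ → σ → k, eval (fun p : Idx d τ => coeff p.1.2 (lsub A (F p.1.1))) H = 0) :
    Low d F (Nat.card (Idx d τ)) := by
  classical
  haveI : Fintype (Idx d τ) := Fintype.ofFinite _
  haveI : Infinite k := Infinite.of_injective ((↑) : ℕ → k) Nat.cast_injective
  set cA : (τ → σ → k) → (Idx d τ → k) := fun A p => coeff p.1.2 (lsub A (F p.1.1)) with hcA
  obtain ⟨H', hv', c, ⟨A₀, hA₀⟩, p0, hp0⟩ := exists_pderiv_ne (Set.range cA) (Set.range_nonempty _) H hH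
    (by rintro c ⟨A, rfl⟩; exact hv A)
  -- a maximal degree
  set P := Finset.univ.filter (fun p : Idx d τ => eval c (pderiv p H') ≠ 0) with hP
  have hPne : P.Nonempty := ⟨p0, by rw [hP, Finset.mem_filter]; exact ⟨Finset.mem_univ _, hp0⟩⟩
  obtain ⟨p₁, hp₁, hmax⟩ := P.exists_max_image (fun p => d p.1.1) hPne
  have hp₁' : eval c (pderiv p₁ H') ≠ 0 := (Finset.mem_filter.1 hp₁).2
  obtain ⟨i₁, hi₁⟩ : ∃ i₁, i₁ = p₁.1.1 := ⟨_, rfl⟩
  obtain ⟨D, hD⟩ : ∃ D, D = d i₁ := ⟨_, rfl⟩
  have hD1 : 1 ≤ D := hD ▸ hd i₁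
  have hmax' : ∀ p : Idx d τ, D < d p.1.1 → eval c (pderiv p H') = 0 := by
    intro p hp
    by_contra hne
    have := hmax p (by rw [hP, Finset.mem_filter]; exact ⟨Finset.mem_univ _, hne⟩)
    rw [← hi₁, ← hD] at this
    omega
  -- the vector `t`
  set T : Finset (τ →₀ ℕ) := (Finset.univ.filter (fun p : Idx d τ => p.1.1 = i₁)).image
    (fun p => p.1.2) with hT
  set a : (τ →₀ ℕ) → k := fun γ => if h : γ.degree = d i₁ then
    eval c (pderiv (⟨(i₁, γ), h⟩ : Idx d τ) H') else 0 with ha
  have hafun : ∀ p : Idx d τ, p.1.1 = i₁ → a p.1.2 = eval c (pderiv p H') := by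
    rintro ⟨⟨i, γ⟩, h⟩ hi
    simp only at hi
    subst hi
    simp only [ha]
    rw [dif_pos h]
  obtain ⟨t, ht⟩ := exists_pow_ne D T (by
      intro γ hγ
      rw [hT, Finset.mem_image] at hγ
      obtain ⟨p, hp, rfl⟩ := hγ
      rw [hD, ← (Finset.mem_filter.1 hp).2]
      exact p.2) a p₁.1.2 (by
      rw [hT, Finset.mem_image]
      exact ⟨p₁, Finset.mem_filter.2 ⟨Finset.mem_univ _, hi₁.symm⟩, rfl⟩)
      (by rw [hafun p₁ hi₁.symm]; exact hp₁')
  set Y : MvPolynomial τ k := (∑ j, C (t j) * X j) ^ D with hY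
  have hsumT : ∑ γ ∈ T, a γ * coeff γ Y =
      ∑ p ∈ Finset.univ.filter (fun p : Idx d τ => p.1.1 = i₁),
        eval c (pderiv p H') * coeff p.1.2 Y := by
    rw [hT, Finset.sum_image]
    · refine Finset.sum_congr rfl fun p hp => ?_
      rw [hafun p (Finset.mem_filter.1 hp).2]
    · intro p hp p' hp' h
      have h1 := (Finset.mem_filter.1 (Finset.mem_coe.1 hp)).2
      have h2 := (Finset.mem_filter.1 (Finset.mem_coe.1 hp')).2
      apply Subtype.ext
      exact Prod.ext (h1.trans h2.symm) h
  set q : Idx d τ → Polynomial (MvPolynomial σ k) := fun p => coeff p.1.2 (pert A₀ t (F p.1.1))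
    with hq
  have hcp : ∀ p : Idx d τ, c p = coeff p.1.2 (lsub A₀ (F p.1.1)) := by
    intro p
    rw [← hA₀]
  set e₀ := Finite.equivFin (Idx d τ) with he₀
  set Θ : Fin (Nat.card (Idx d τ)) → ℕ → MvPolynomial σ k := fun l e => (q (e₀.symm l)).coeff e
    with hΘ
  set 𝒜 : Subalgebra k (MvPolynomial σ k) :=
    Algebra.adjoin k {f | ∃ l e, 1 ≤ e ∧ e < D ∧ f = Θ l e} with h𝒜
  have halg : ∀ a : k, algebraMap k (Polynomial (MvPolynomial σ k)) a = Polynomial.C (C a) := by
    intro a; rfl
  have hδ : ∀ (p : Idx d τ) (e : ℕ), 1 ≤ e →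
      (q p - algebraMap k (Polynomial (MvPolynomial σ k)) (c p)).coeff e = (q p).coeff e := by
    intro p e he
    rw [Polynomial.coeff_sub, halg, Polynomial.coeff_C, if_neg (by omega), sub_zero]
  have hK2 := coeff_taylor 𝒜 D hD1 c
    (fun p => q p - algebraMap k (Polynomial (MvPolynomial σ k)) (c p))
    (fun p => by
      rw [Polynomial.coeff_sub, halg, Polynomial.coeff_C, if_pos rfl, hq]
      simp only []
      rw [pert_coeff_zero, hcp, sub_self])
    (fun p e he1 heD => by
      rw [hδ p e he1]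
      apply Algebra.subset_adjoin
      exact ⟨e₀ p, e, he1, heD, by simp only [hΘ, Equiv.symm_apply_apply]⟩) H'
  have haev : (aeval (fun p => algebraMap k (Polynomial (MvPolynomial σ k)) (c p) +
      (q p - algebraMap k (Polynomial (MvPolynomial σ k)) (c p))) H') = 0 := by
    have h1 : (fun p => algebraMap k (Polynomial (MvPolynomial σ k)) (c p) +
      (q p - algebraMap k (Polynomial (MvPolynomial σ k)) (c p))) = q := by
      funext p; ring
    rw [h1]
    exact pert_identity d F H' (fun A => hv' _ ⟨A, rfl⟩) A₀ t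
  rw [haev, Polynomial.coeff_zero, zero_sub] at hK2
  have hK2' := neg_mem hK2
  rw [neg_neg] at hK2'
  set c' : ι → k := fun i => if d i = D then
    ∑ p ∈ Finset.univ.filter (fun p : Idx d τ => p.1.1 = i), eval c (pderiv p H') * coeff p.1.2 Y
    else 0 with hc'
  refine ⟨D, c', Θ, ⟨i₁, ?_⟩, ?_, ?_, ?_⟩
  · simp only [hc']
    rw [if_pos hD.symm, ← hsumT]
    exact ht
  · intro i hi
    by_contra hne
    apply hi
    simp only [hc']
    rw [if_neg hne]
  · intro l e
    exact pert_coeff_homog A₀ t _ _ e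
  · have hsum : ∑ i, C (c' i) * F i = ∑ p, algebraMap k (MvPolynomial σ k) (eval c (pderiv p H')) *
        (q p - algebraMap k (Polynomial (MvPolynomial σ k)) (c p)).coeff D := by
      rw [← Finset.sum_fiberwise (Finset.univ : Finset (Idx d τ)) (fun p => p.1.1)]
      refine Finset.sum_congr rfl fun i _ => ?_
      rcases lt_trichotomy (d i) D with h | h | h
      · simp only [hc']
        rw [if_neg (by omega), C_0, zero_mul]
        symm
        apply Finset.sum_eq_zero
        intro p hp
        have hpi := (Finset.mem_filter.1 hp).2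
        rw [hδ p D hD1, hq]
        simp only []
        rw [pert_coeff_gt A₀ t (F p.1.1) (hF p.1.1) p.1.2 D (by rw [hpi]; exact h), mul_zero]
      · simp only [hc']
        rw [if_pos h, map_sum, Finset.sum_mul]
        refine Finset.sum_congr rfl fun p hp => ?_
        have hpi := (Finset.mem_filter.1 hp).2
        have hFp : (F p.1.1).IsHomogeneous D := by
          have := hF p.1.1
          rwa [hpi, h, ← hpi] at this
        rw [hδ p D hD1, hq]
        simp only []
        rw [pert_coeff_top A₀ t (F p.1.1) hFp p.1.2, hpi, C_mul, mul_assoc]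
        rfl
      · simp only [hc']
        rw [if_neg (by omega), C_0, zero_mul]
        symm
        apply Finset.sum_eq_zero
        intro p hp
        have hpi := (Finset.mem_filter.1 hp).2
        rw [hmax' p (by rw [hpi]; exact h), map_zero, zero_mul]
    rw [hsum]
    exact hK2'

end Pool.Agent.Helper97.BD
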