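import Mathlib
import Pool.Agent.Helper97.BD.Defs

/-!
BD MODULE Mac: Macaulay determinant (MP_1dc56d_ag, bounded degree). Notation: Defs.lean.

PROOF. Let D = ∑ i, (d i - 1) + 1 and let N be the (finite) type of γ : ι →₀ ℕ with γ.degree = D.
For γ in N there is i with d i ≤ γ i (otherwise γ i ≤ d i - 1 for all i and the degree is < D);
choose one, i(γ), and put γ* = γ - single (i(γ)) (d (i(γ))), of degree D - d (i(γ)). Let M be the
N × N matrix over MvPolynomial (Idx d ι) k with entry M γ γ' = X ⟨(i(γ), γ' - γ*), _⟩ if γ* ≤ γ' and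
0 otherwise (note that then γ' - γ* has degree d (i(γ))). Take H = det M.
For a tuple h of forms, the evaluation of M at the coefficients of h is the matrix
M(h) γ γ' = coeff γ' (monomial γ* 1 * h (i(γ))) (it is coeff (γ' - γ*) (h (i(γ))) if γ* ≤ γ' and 0
otherwise). eval of det is det of the mapped matrix (RingHom.map_det). For a common zero x of all h i
and v γ' = ∏ i, x i ^ γ' i we get, as monomial γ* 1 * h (i(γ)) is homogeneous of degree D,
(M(h) v) γ = eval x (monomial γ* 1 * h (i(γ))) = 0, so v = 0 if det M(h) is nonzero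
(Matrix.eq_zero_of_mulVec_eq_zero), in particular x i ^ D = 0 for all i (γ' = single i D), x = 0.
H is nonzero: for h i = X i ^ d i we have M(h) = 1 (monomial γ* 1 * X (i(γ)) ^ d (i(γ)) is the
monomial γ), so det = 1 and H cannot be 0.
(If ι is empty then D = 1, N is empty, H = 1, fine.)
-/

namespace Pool.Agent.Helper97.BD

open MvPolynomial

universe u

theorem Mac_exists_le {ι : Type*} [Fintype ι] (d : ι → ℕ) (hd : ∀ i, 1 ≤ d i) (γ : ι →₀ ℕ)
    (hγ : γ.degree = ∑ i, (d i - 1) + 1) : ∃ i, d i ≤ γ i := by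
  by_contra h
  push Not at h
  have h1 : γ.degree ≤ ∑ i, (d i - 1) := by
    rw [Finsupp.degree_eq_sum]
    refine Finset.sum_le_sum fun i _ => ?_
    have := h i
    omega
  omega

theorem Mac_degree_sub {ι : Type*} (a b : ι →₀ ℕ) (h : a ≤ b) :
    (b - a).degree + a.degree = b.degree := by
  have : b = (b - a) + a := (tsub_add_cancel_of_le h).symm
  conv_rhs => rw [this]
  rw [Finsupp.degree.map_add]

/-- exponents of degree `D` -/
abbrev Mac_N (ι : Type*) (D : ℕ) := {γ : ι →₀ ℕ // γ.degree = D}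

instance Mac_finite (ι : Type*) [Finite ι] (D : ℕ) : Finite (Mac_N ι D) := by
  have h : Set.Finite {γ : ι →₀ ℕ | γ.degree = D} :=
    (Finsupp.finite_of_degree_le D).subset (fun γ h => le_of_eq h)
  exact h.to_subtype

theorem Mac_eval {k : Type*} [Field k] {ι : Type*} [Fintype ι] (D : ℕ) [Fintype (Mac_N ι D)]
    (g : MvPolynomial ι k) (hg : g.IsHomogeneous D) (x : ι → k) :
    eval x g = ∑ γ : Mac_N ι D, coeff γ.1 g * ∏ i, x i ^ γ.1 i := by
  classical
  rw [eval_eq']
  have h1 : g.support ⊆ (Finset.univ : Finset (Mac_N ι D)).map ⟨Subtype.val, Subtype.val_injective⟩ := by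
    intro m hm
    rw [Finset.mem_map]
    refine ⟨⟨m, ?_⟩, Finset.mem_univ _, rfl⟩
    rw [Finsupp.degree_eq_weight_one]
    exact hg (mem_support_iff.1 hm)
  rw [Finset.sum_subset h1]
  · rw [Finset.sum_map]
    rfl
  · intro m _ hm
    rw [notMem_support_iff.1 hm, zero_mul]

theorem exists_macaulay (k : Type u) [Field k] {ι : Type*} [Fintype ι] (d : ι → ℕ)
    (hd : ∀ i, 1 ≤ d i) :
    ∃ H : MvPolynomial (Idx d ι) k, H ≠ 0 ∧
      ∀ h : ι → MvPolynomial ι k, (∀ i, (h i).IsHomogeneous (d i)) →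
        eval (fun p : Idx d ι => coeff p.1.2 (h p.1.1)) H ≠ 0 →
        ∀ x : ι → k, (∀ i, eval x (h i) = 0) → x = 0 := by
  classical
  obtain ⟨D, hD⟩ : ∃ D, D = ∑ i, (d i - 1) + 1 := ⟨_, rfl⟩
  letI : Fintype (Mac_N ι D) := Fintype.ofFinite _
  have hex : ∀ γ : Mac_N ι D, ∃ i, d i ≤ γ.1 i := fun γ => Mac_exists_le d hd γ.1 (γ.2.trans hD)
  choose I hI using hex
  set st : Mac_N ι D → (ι →₀ ℕ) := fun γ => γ.1 - Finsupp.single (I γ) (d (I γ)) with hst
  have hsle : ∀ γ : Mac_N ι D, Finsupp.single (I γ) (d (I γ)) ≤ γ.1 := by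
    intro γ
    rw [Finsupp.single_le_iff]
    exact hI γ
  have hstadd : ∀ γ : Mac_N ι D, st γ + Finsupp.single (I γ) (d (I γ)) = γ.1 := fun γ =>
    tsub_add_cancel_of_le (hsle γ)
  have hstdeg : ∀ γ : Mac_N ι D, (st γ).degree + d (I γ) = D := by
    intro γ
    have h1 := congrArg Finsupp.degree (hstadd γ)
    rw [Finsupp.degree.map_add, Finsupp.degree_single, γ.2] at h1
    exact h1
  have hsub : ∀ γ γ' : Mac_N ι D, st γ ≤ γ'.1 → (γ'.1 - st γ).degree = d (I γ) := by
    intro γ γ' h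
    have h1 := Mac_degree_sub _ _ h
    have h2 := hstdeg γ
    rw [γ'.2] at h1
    omega
  set M : Matrix (Mac_N ι D) (Mac_N ι D) (MvPolynomial (Idx d ι) k) := fun γ γ' =>
    if h : st γ ≤ γ'.1 then X ⟨(I γ, γ'.1 - st γ), hsub γ γ' h⟩ else 0 with hM
  have hev : ∀ h : ι → MvPolynomial ι k,
      M.map (eval (fun p : Idx d ι => coeff p.1.2 (h p.1.1))) =
      fun γ γ' => coeff γ'.1 (monomial (st γ) 1 * h (I γ)) := by
    intro h
    ext γ γ'
    rw [Matrix.map_apply, coeff_monomial_mul']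
    simp only [hM]
    split_ifs with h1
    · rw [eval_X, one_mul]
    · rw [map_zero]
  have hdet : ∀ h : ι → MvPolynomial ι k,
      eval (fun p : Idx d ι => coeff p.1.2 (h p.1.1)) M.det =
      Matrix.det (fun γ γ' : Mac_N ι D => coeff γ'.1 (monomial (st γ) 1 * h (I γ))) := by
    intro h
    rw [RingHom.map_det, RingHom.mapMatrix_apply]
    rw [hev h]
  refine ⟨M.det, ?_, ?_⟩
  · intro h0
    have h1 := hdet (fun i => X i ^ d i)
    rw [h0, map_zero] at h1
    have h2 : (fun γ γ' : Mac_N ι D => coeff γ'.1 (monomial (st γ) (1 : k) * X (I γ) ^ d (I γ))) =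
        (1 : Matrix (Mac_N ι D) (Mac_N ι D) k) := by
      ext γ γ'
      have h3 : (monomial (st γ) (1 : k) * X (I γ) ^ d (I γ) : MvPolynomial ι k) = monomial γ.1 1 := by
        rw [X_pow_eq_monomial, monomial_mul, hstadd, one_mul]
      rw [h3, coeff_monomial, Matrix.one_apply]
      by_cases h4 : γ = γ'
      · rw [if_pos h4, if_pos (congrArg Subtype.val h4)]
      · rw [if_neg h4, if_neg (fun h5 => h4 (Subtype.ext h5))]
    rw [h2, Matrix.det_one] at h1
    exact zero_ne_one h1
  · intro h hh hne x hx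
    rw [hdet h] at hne
    have hmul : Matrix.mulVec (fun γ γ' : Mac_N ι D => coeff γ'.1 (monomial (st γ) 1 * h (I γ)))
        (fun γ' : Mac_N ι D => ∏ i, x i ^ γ'.1 i) = 0 := by
      funext γ
      have hg : (monomial (st γ) 1 * h (I γ) : MvPolynomial ι k).IsHomogeneous D := by
        rw [← hstdeg γ]
        exact (isHomogeneous_monomial _ rfl).mul (hh _)
      have h1 := Mac_eval D _ hg x
      rw [map_mul, hx, mul_zero] at h1
      exact h1.symm
    have hv := Matrix.eq_zero_of_mulVec_eq_zero hne hmul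
    funext i
    have h1 := congrFun hv ⟨Finsupp.single i D, Finsupp.degree_single i D⟩
    have h2 : ∏ j, x j ^ (Finsupp.single i D) j = x i ^ D := by
      rw [Finset.prod_eq_single i]
      · rw [Finsupp.single_eq_same]
      · intro j _ hj
        rw [Finsupp.single_eq_of_ne hj, pow_zero]
      · intro h; exact absurd (Finset.mem_univ _) h
    simp only [Pi.zero_apply] at h1 ⊢
    rw [h2] at h1
    exact pow_eq_zero_iff (by omega) |>.1 h1

end Pool.Agent.Helper97.BD
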