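import Mathlib
import Pool.Agent.Helper97.BD.K5
import Pool.Agent.Helper97.BD.Mac
import Pool.Agent.Helper97.QW.Coords2

/-!
BD MODULE Surj: surjectivity or lowness (MP_1dc56d_ag, bounded degree). Notation: Defs.lean.

PROOF. Take H from exists_macaulay (variables indexed by ι itself). If
eval (fun p => coeff p.1.2 (lsub A (F p.1.1))) H = 0 for all A : ι → σ → k, then key gives Low. Else
fix A with a nonzero value; the forms h i = lsub A (F i) (homogeneous of degree d i: aeval of a
homogeneous polynomial at forms of degree 1, see IsHomogeneous.aeval or similar) have only the trivial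
common zero. Given a : ι → k, consider in the variables Option ι the polynomials
q i = rename some (h i) - C (a i) * X none ^ d i. They vanish at 0 (d i ≥ 1) and there are
card ι < card (Option ι) of them, so by QW.exists_common_zero' there is z nonzero with
eval z (q i) = 0 for all i. If z none = 0 then eval (z ∘ some) (h i) = 0 for all i, so z ∘ some = 0 and
z = 0, contradiction. So z none is nonzero; put w t = z (some t) / z none. By homogeneity
eval w (h i) = (z none)⁻¹ ^ d i * eval (z ∘ some) (h i) = a i (IsHomogeneous.eval₂ or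
eval_smul type lemma). And eval w (lsub A (F i)) = eval (fun v => ∑ t, w t * A t v) (F i).
-/

namespace Pool.Agent.Helper97.BD

open MvPolynomial

universe u

theorem lsub_homog {k : Type u} [Field k] {σ τ : Type*} [Fintype τ] (A : τ → σ → k)
    {F : MvPolynomial σ k} {D : ℕ} (hF : F.IsHomogeneous D) : (lsub A F).IsHomogeneous D := by
  have h := hF.aeval (n := 1) (fun v => ∑ t, C (A t v) * X t) (fun v =>
    IsHomogeneous.sum _ _ 1 fun t _ => by
      have := (isHomogeneous_C τ (A t v)).mul (isHomogeneous_X k t)
      rwa [zero_add] at this)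
  rw [one_mul] at h
  exact h

theorem eval_lsub {k : Type u} [Field k] {σ τ : Type*} [Fintype τ] (A : τ → σ → k)
    (F : MvPolynomial σ k) (w : τ → k) :
    eval w (lsub A F) = eval (fun v => ∑ t, w t * A t v) F := by
  have h : (aeval w : MvPolynomial τ k →ₐ[k] k).comp (lsub A) =
      (aeval (fun v => ∑ t, w t * A t v) : MvPolynomial σ k →ₐ[k] k) := by
    refine algHom_ext fun v => ?_
    rw [AlgHom.comp_apply]
    unfold lsub
    rw [aeval_X, aeval_X, map_sum]
    refine Finset.sum_congr rfl fun t _ => ?_
    rw [map_mul, aeval_X, aeval_C, mul_comm]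
    rfl
  have h2 := DFunLike.congr_fun h F
  rw [AlgHom.comp_apply] at h2
  exact h2

theorem Surj_eval_homog {k : Type u} [Field k] {τ : Type*} {h : MvPolynomial τ k} {D : ℕ}
    (hh : h.IsHomogeneous D) (c : k) (w : τ → k) :
    eval (fun t => c * w t) h = c ^ D * eval w h := by
  rw [eval_eq, eval_eq, Finset.mul_sum]
  refine Finset.sum_congr rfl fun m hm => ?_
  have hD : ∑ i ∈ m.support, m i = D := by
    have h1 := hh (mem_support_iff.1 hm)
    rw [Finsupp.weight_apply] at h1
    simpa [Finsupp.sum] using h1
  simp_rw [mul_pow]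
  rw [Finset.prod_mul_distrib, Finset.prod_pow_eq_pow_sum, hD]
  ring

theorem surj_or_low {k : Type u} [Field k] [IsAlgClosed k] [CharZero k] {ι σ : Type*} [Fintype ι]
    [Finite σ] (d : ι → ℕ) (hd : ∀ i, 1 ≤ d i) (F : ι → MvPolynomial σ k)
    (hF : ∀ i, (F i).IsHomogeneous (d i)) :
    Low d F (Nat.card (Idx d ι)) ∨ ∀ a : ι → k, ∃ x : σ → k, ∀ i, eval x (F i) = a i := by
  obtain ⟨H, hH, hmac⟩ := exists_macaulay k d hd
  by_cases hv : ∀ A : ι → σ → k, eval (fun p : Idx d ι => coeff p.1.2 (lsub A (F p.1.1))) H = 0
  · exact Or.inl (key d hd F hF H hH hv)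
  · right
    push Not at hv
    obtain ⟨A, hA⟩ := hv
    have htriv := hmac (fun i => lsub A (F i)) (fun i => lsub_homog A (hF i)) hA
    intro a
    obtain ⟨z, hz0, hz⟩ := QW.exists_common_zero' (k := k) (σ := Option ι) (ι := ι)
      (by rw [Fintype.card_option]; exact Nat.lt_succ_self _)
      (fun i => rename some (lsub A (F i)) - C (a i) * X none ^ d i) (fun i => by
        rw [map_sub, eval_rename, map_mul, map_pow, eval_X, eval_C, Pi.zero_apply,
          zero_pow (by have := hd i; omega), mul_zero, sub_zero]
        have := Surj_eval_homog (lsub_homog A (hF i)) 0 (fun _ => (0 : k))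
        rw [zero_pow (by have := hd i; omega), zero_mul] at this
        simpa using this)
    have hz' : ∀ i, eval (fun t => z (some t)) (lsub A (F i)) = a i * z none ^ d i := by
      intro i
      have := hz i
      rw [map_sub, eval_rename, map_mul, map_pow, eval_X, eval_C, sub_eq_zero] at this
      exact this
    have hn : z none ≠ 0 := by
      intro h0
      have h1 := htriv (fun t => z (some t)) (fun i => by
        rw [hz' i, h0, zero_pow (by have := hd i; omega), mul_zero])
      apply hz0
      funext o
      cases o with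
      | none => exact h0
      | some t => exact congrFun h1 t
    refine ⟨fun v => ∑ t, ((z none)⁻¹ * z (some t)) * A t v, fun i => ?_⟩
    rw [← eval_lsub A (F i) (fun t => (z none)⁻¹ * z (some t)),
      Surj_eval_homog (lsub_homog A (hF i)) (z none)⁻¹ (fun t => z (some t)), hz' i]
    rw [inv_pow, mul_comm (a i), ← mul_assoc, inv_mul_cancel₀ (pow_ne_zero _ hn), one_mul]

end Pool.Agent.Helper97.BD
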