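import Mathlib
import Pool.Agent.Helper97.BD.UgA

/-!
BD MODULE T2a: the model tuple (MP_1dc56d_ag, bounded degree). Notation: Defs.lean.

The model tuple of type d built from a tuple h' of derived type: variables u (ρ), y (τ'), w (Der).
PROOF. (model_homog) each term has degree β.degree + (d i - β.degree) = d i. For a tuple F with
lsub A (F i) = model ... i the following hold, with e = A ∘ inl, A' = A ∘ inr ∘ inl, A'' = A ∘ inr ∘ inr.
(iso) lsub e F = the model at y = 0, w = 0 (compose with aeval (Sum.elim X 0)): 0, since h' p and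
X ^ (d - degree) vanish at 0 (positive degrees).
(y and w) The general fact, to be proved first: for B : κ → Fin n → k (κ finite)
lsub B (ug e F β) = coeff β (aeval (fun v => C (∑ t, C (B t v) * X t) + ∑ r, C (C (e r v)) * X r) F),
a polynomial in u (ρ) over k[κ] (compare the algebra homs MvPolynomial.map (lsub B) ∘ ue e and this
aeval). With B = A' the polynomial in u on the right is the image of lsub A (F i) = model under
u ↦ X r, y ↦ C (X y), w ↦ 0, that is ∑ over p with p.1.1 = i of monomial p.1.2 (h' p); its coefficient at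
β = p.1.2 is h' p. Similarly with B = A'': y ↦ 0, w ↦ C (X w) gives X p ^ (d p.1.1 - p.1.2.degree).
-/

namespace Pool.Agent.Helper97.BD

open MvPolynomial

universe u

/-- the model tuple -/
noncomputable def model {k : Type u} [Field k] {ι ρ τ' : Type} [DecidableEq ι] (d : ι → ℕ) (i₀ : ι)
    [Fintype ρ] [Fintype (Der d i₀ ρ)] (h' : Der d i₀ ρ → MvPolynomial τ' k) (i : ι) :
    MvPolynomial (ρ ⊕ (τ' ⊕ Der d i₀ ρ)) k :=
  ∑ p : Der d i₀ ρ, if p.1.1 = i then
    monomial (p.1.2.mapDomain Sum.inl) 1 * (rename (Sum.inr ∘ Sum.inl) (h' p) +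
      X (Sum.inr (Sum.inr p)) ^ (d p.1.1 - p.1.2.degree)) else 0

theorem T2a_mapDomain_degree {ρ κ : Type*} (f : ρ → κ) (β : ρ →₀ ℕ) :
    (β.mapDomain f).degree = β.degree := by
  induction β using Finsupp.induction_linear with
  | zero => rw [Finsupp.mapDomain_zero, map_zero, map_zero]
  | add a b ha hb => rw [Finsupp.mapDomain_add, map_add, map_add, ha, hb]
  | single a n => rw [Finsupp.mapDomain_single, Finsupp.degree_single, Finsupp.degree_single]

theorem T2a_aeval_lsub {k : Type u} [Field k] {σ τ : Type*} [Fintype τ] {S : Type*} [CommRing S]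
    [Algebra k S] (A : τ → σ → k) (g : τ → S) (F : MvPolynomial σ k) :
    aeval g (lsub A F) = aeval (fun v => ∑ t, algebraMap k S (A t v) * g t) F := by
  have h : (aeval g : MvPolynomial τ k →ₐ[k] S).comp (lsub A) =
      (aeval (fun v => ∑ t, algebraMap k S (A t v) * g t) : MvPolynomial σ k →ₐ[k] S) := by
    refine algHom_ext fun v => ?_
    rw [AlgHom.comp_apply]
    unfold lsub
    rw [aeval_X, aeval_X, map_sum]
    refine Finset.sum_congr rfl fun t _ => ?_
    rw [map_mul, aeval_X, aeval_C]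
  exact DFunLike.congr_fun h F

theorem T2a_aeval_zero {k : Type u} [Field k] {σ : Type*} {S : Type*} [CommRing S]
    [Algebra k S] {F : MvPolynomial σ k} {D : ℕ} (hF : F.IsHomogeneous D) (hD : 0 < D) :
    aeval (fun _ : σ => (0 : S)) F = 0 := by
  have h0 : constantCoeff F = 0 := by
    rw [constantCoeff_eq]
    by_contra hne
    have := hF hne
    rw [map_zero] at this
    omega
  have h1 : (aeval (fun _ : σ => (0 : S)) : MvPolynomial σ k →ₐ[k] S) F =
      algebraMap k S (constantCoeff F) := by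
    have := MvPolynomial.aeval_zero' F (S₁ := S)
    exact this
  rw [h1, h0, map_zero]

theorem T2a_monomial {k : Type u} [Field k] {ρ : Type*} {S : Type*} [CommRing S]
    [Algebra k S] (β : ρ →₀ ℕ) :
    aeval (fun r : ρ => (X r : MvPolynomial ρ S)) (monomial β (1 : k)) = monomial β (1 : S) := by
  rw [aeval_monomial, monomial_eq (a := (1 : S)), map_one, map_one]

theorem T2a_aeval_model {k : Type u} [Field k] {ι ρ τ' : Type} [DecidableEq ι] (d : ι → ℕ) (i₀ : ι)
    [Fintype ρ] [Fintype (Der d i₀ ρ)] (h' : Der d i₀ ρ → MvPolynomial τ' k) (i : ι)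
    {S : Type*} [CommRing S] [Algebra k S] (gy : τ' → S) (gw : Der d i₀ ρ → S) :
    aeval (Sum.elim (fun r : ρ => (X r : MvPolynomial ρ S))
      (Sum.elim (fun t => C (gy t)) (fun q => C (gw q)))) (model d i₀ h' i) =
    ∑ p : Der d i₀ ρ, if p.1.1 = i then
      monomial p.1.2 (aeval gy (h' p) + gw p ^ (d p.1.1 - p.1.2.degree)) else 0 := by
  unfold model
  rw [map_sum]
  refine Finset.sum_congr rfl fun p _ => ?_
  split_ifs with h
  · rw [map_mul, map_add, map_pow, aeval_X, ← rename_monomial, aeval_rename, aeval_rename]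
    have h1 : (Sum.elim (fun r : ρ => (X r : MvPolynomial ρ S))
      (Sum.elim (fun t => C (gy t)) (fun q => C (gw q)))) ∘ Sum.inl = fun r => X r := rfl
    have h2 : (Sum.elim (fun r : ρ => (X r : MvPolynomial ρ S))
      (Sum.elim (fun t => C (gy t)) (fun q => C (gw q)))) ∘ (Sum.inr ∘ Sum.inl) =
        fun t => C (gy t) := rfl
    rw [h1, h2, T2a_monomial]
    have h3 : aeval (fun t => (C (gy t) : MvPolynomial ρ S)) (h' p) = C (aeval gy (h' p)) := by
      have h : (aeval (fun t => (C (gy t) : MvPolynomial ρ S)) : MvPolynomial τ' k →ₐ[k] _) =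
          (IsScalarTower.toAlgHom k S (MvPolynomial ρ S)).comp (aeval gy) := by
        refine algHom_ext fun v => ?_
        rw [AlgHom.comp_apply, aeval_X, aeval_X]
        rfl
      rw [h]
      rfl
    rw [h3]
    simp only [Sum.elim_inr]
    rw [← map_pow, ← map_add, mul_comm, C_mul_monomial, mul_one]
  · rw [map_zero]

theorem T2a_coeff_model {k : Type u} [Field k] {ι ρ τ' : Type} [DecidableEq ι] (d : ι → ℕ) (i₀ : ι)
    [Fintype ρ] [Fintype (Der d i₀ ρ)] (h' : Der d i₀ ρ → MvPolynomial τ' k)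
    {S : Type*} [CommRing S] [Algebra k S] (gy : τ' → S) (gw : Der d i₀ ρ → S) (p : Der d i₀ ρ) :
    coeff p.1.2 (aeval (Sum.elim (fun r : ρ => (X r : MvPolynomial ρ S))
      (Sum.elim (fun t => C (gy t)) (fun q => C (gw q)))) (model d i₀ h' p.1.1)) =
    aeval gy (h' p) + gw p ^ (d p.1.1 - p.1.2.degree) := by
  classical
  rw [T2a_aeval_model, coeff_sum, Finset.sum_eq_single p]
  · rw [if_pos rfl, coeff_monomial, if_pos rfl]
  · intro q _ hq
    split_ifs with h
    · rw [coeff_monomial, if_neg]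
      intro h2
      exact hq (Subtype.ext (Prod.ext h h2))
    · rw [coeff_zero]
  · intro h
    exact absurd (Finset.mem_univ p) h

/-- the general fact -/
theorem T2a_lsub_ug {k : Type u} [Field k] {σ ρ κ : Type*} [Fintype ρ] [Fintype κ]
    (e : ρ → σ → k) (B : κ → σ → k) (F : MvPolynomial σ k) (β : ρ →₀ ℕ) :
    lsub B (ug e F β) = coeff β (aeval (fun v => C (∑ t, C (B t v) * X t) +
      ∑ r, C (C (e r v)) * X r) F : MvPolynomial ρ (MvPolynomial κ k)) := by
  have h : (mapAlgHom (lsub B) : MvPolynomial ρ (MvPolynomial σ k) →ₐ[k] _).comp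
      (aeval (fun v => C (X v) + ∑ r, C (C (e r v)) * X r)) =
      (aeval (fun v => C (∑ t, C (B t v) * X t) + ∑ r, C (C (e r v)) * X r) :
        MvPolynomial σ k →ₐ[k] MvPolynomial ρ (MvPolynomial κ k)) := by
    refine algHom_ext fun v => ?_
    rw [AlgHom.comp_apply, aeval_X, aeval_X, map_add, map_sum]
    congr 1
    · rw [mapAlgHom_apply, map_C]
      unfold lsub
      rw [RingHom.coe_coe, aeval_X]
    · refine Finset.sum_congr rfl fun r _ => ?_
      rw [map_mul, mapAlgHom_apply, mapAlgHom_apply, map_C, map_X]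
      unfold lsub
      rw [RingHom.coe_coe, aeval_C]
      rfl
  rw [← h]
  unfold ug ue
  rw [AlgHom.comp_apply, mapAlgHom_apply, coeff_map]
  rfl

theorem T2a_sub {k : Type u} [Field k] {ρ τ' δ σ : Type*} [Fintype ρ] [Fintype τ'] [Fintype δ]
    {S : Type*} [CommRing S] [Algebra k S] (A : ρ ⊕ (τ' ⊕ δ) → σ → k) (gy : τ' → S) (gw : δ → S)
    (F : MvPolynomial σ k) :
    aeval (Sum.elim (fun r : ρ => (X r : MvPolynomial ρ S))
      (Sum.elim (fun t => C (gy t)) (fun q => C (gw q)))) (lsub A F) =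
    aeval (fun v => C (∑ t, algebraMap k S (A (Sum.inr (Sum.inl t)) v) * gy t +
      ∑ q, algebraMap k S (A (Sum.inr (Sum.inr q)) v) * gw q) +
      ∑ r, C (algebraMap k S (A (Sum.inl r) v)) * X r) F := by
  rw [T2a_aeval_lsub]
  congr 1
  congr 1
  funext v
  rw [Fintype.sum_sum_type, Fintype.sum_sum_type, add_comm]
  simp only [Sum.elim_inl, Sum.elim_inr, map_add, map_sum, map_mul]
  rfl

theorem model_homog {k : Type u} [Field k] {ι ρ τ' : Type} [DecidableEq ι] (d : ι → ℕ) (i₀ : ι)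
    [Fintype ρ] [Fintype (Der d i₀ ρ)] (h' : Der d i₀ ρ → MvPolynomial τ' k)
    (hh : ∀ p, (h' p).IsHomogeneous (d p.1.1 - p.1.2.degree)) (i : ι) :
    (model d i₀ h' i).IsHomogeneous (d i) := by
  unfold model
  refine IsHomogeneous.sum _ _ _ fun p _ => ?_
  split_ifs with h
  · have hlt : p.1.2.degree < d p.1.1 := p.2.1
    have h1 : (monomial (p.1.2.mapDomain (Sum.inl : ρ → ρ ⊕ (τ' ⊕ Der d i₀ ρ))) (1 : k)).IsHomogeneous
        p.1.2.degree := isHomogeneous_monomial _ (T2a_mapDomain_degree _ _)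
    have h2 : (rename (Sum.inr ∘ Sum.inl) (h' p) +
        (X (Sum.inr (Sum.inr p)) : MvPolynomial (ρ ⊕ (τ' ⊕ Der d i₀ ρ)) k) ^
          (d p.1.1 - p.1.2.degree)).IsHomogeneous (d p.1.1 - p.1.2.degree) := by
      refine IsHomogeneous.add ((hh p).rename_isHomogeneous) ?_
      have := (isHomogeneous_X k (Sum.inr (Sum.inr p) : ρ ⊕ (τ' ⊕ Der d i₀ ρ))).pow
        (d p.1.1 - p.1.2.degree)
      rwa [one_mul] at this
    have h3 := h1.mul h2
    rw [Nat.add_sub_cancel' hlt.le] at h3
    rw [← h]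
    exact h3
  · exact isHomogeneous_zero _ _ _

theorem model_iso {k : Type u} [Field k] {ι ρ τ' : Type} [DecidableEq ι] (d : ι → ℕ) (i₀ : ι)
    [Fintype ρ] [Fintype τ'] [Fintype (Der d i₀ ρ)] (h' : Der d i₀ ρ → MvPolynomial τ' k)
    (hh : ∀ p, (h' p).IsHomogeneous (d p.1.1 - p.1.2.degree)) {n : ℕ} (i : ι)
    (F : MvPolynomial (Fin n) k) (A : ρ ⊕ (τ' ⊕ Der d i₀ ρ) → Fin n → k)
    (hA : lsub A F = model d i₀ h' i) : lsub (fun r => A (Sum.inl r)) F = 0 := by
  have h1 := T2a_sub (S := k) A (fun _ => 0) (fun _ => 0) F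
  rw [hA, T2a_aeval_model] at h1
  have h2 : (∑ p : Der d i₀ ρ, if p.1.1 = i then
      monomial p.1.2 (aeval (fun _ : τ' => (0 : k)) (h' p) + (0 : k) ^ (d p.1.1 - p.1.2.degree))
        else 0) = 0 := by
    refine Finset.sum_eq_zero fun p _ => ?_
    have hlt : p.1.2.degree < d p.1.1 := p.2.1
    rw [T2a_aeval_zero (hh p) (by omega), zero_pow (by omega), add_zero, map_zero, ite_self]
  rw [h2] at h1
  rw [h1]
  unfold lsub
  congr 2
  funext v
  simp

theorem model_y {k : Type u} [Field k] {ι ρ τ' : Type} [DecidableEq ι] (d : ι → ℕ) (i₀ : ι)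
    [Fintype ρ] [Fintype τ'] [Fintype (Der d i₀ ρ)] (h' : Der d i₀ ρ → MvPolynomial τ' k)
    (hh : ∀ p, (h' p).IsHomogeneous (d p.1.1 - p.1.2.degree)) {n : ℕ}
    (F : ι → MvPolynomial (Fin n) k) (A : ρ ⊕ (τ' ⊕ Der d i₀ ρ) → Fin n → k)
    (hA : ∀ i, lsub A (F i) = model d i₀ h' i) (p : Der d i₀ ρ) :
    lsub (fun t => A (Sum.inr (Sum.inl t))) (ug (fun r => A (Sum.inl r)) (F p.1.1) p.1.2) = h' p := by
  have h1 := T2a_sub (S := MvPolynomial τ' k) A (fun t => X t) (fun _ => 0) (F p.1.1)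
  have h2 := T2a_coeff_model d i₀ h' (fun t => (X t : MvPolynomial τ' k)) (fun _ => 0) p
  have hlt : p.1.2.degree < d p.1.1 := p.2.1
  simp only [mul_zero, Finset.sum_const_zero, add_zero, algebraMap_eq] at h1
  rw [← hA, h1, zero_pow (by omega), add_zero, aeval_X_left_apply] at h2
  rw [T2a_lsub_ug]
  exact h2

theorem model_w {k : Type u} [Field k] {ι ρ τ' : Type} [DecidableEq ι] (d : ι → ℕ) (i₀ : ι)
    [Fintype ρ] [Fintype τ'] [Fintype (Der d i₀ ρ)] (h' : Der d i₀ ρ → MvPolynomial τ' k)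
    (hh : ∀ p, (h' p).IsHomogeneous (d p.1.1 - p.1.2.degree)) {n : ℕ}
    (F : ι → MvPolynomial (Fin n) k) (A : ρ ⊕ (τ' ⊕ Der d i₀ ρ) → Fin n → k)
    (hA : ∀ i, lsub A (F i) = model d i₀ h' i) (p : Der d i₀ ρ) :
    lsub (fun q => A (Sum.inr (Sum.inr q))) (ug (fun r => A (Sum.inl r)) (F p.1.1) p.1.2) =
      X p ^ (d p.1.1 - p.1.2.degree) := by
  have h1 := T2a_sub (S := MvPolynomial (Der d i₀ ρ) k) A (fun _ => 0) (fun q => X q) (F p.1.1)
  have h2 := T2a_coeff_model d i₀ h' (fun _ => (0 : MvPolynomial (Der d i₀ ρ) k)) (fun q => X q) p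
  have hlt : p.1.2.degree < d p.1.1 := p.2.1
  simp only [mul_zero, Finset.sum_const_zero, zero_add, algebraMap_eq] at h1
  rw [← hA, h1, T2a_aeval_zero (hh p) (by omega), zero_add] at h2
  rw [T2a_lsub_ug]
  exact h2

end Pool.Agent.Helper97.BD
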