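import Mathlib
import Pool.Agent.Helper97.BD.A5
import Pool.Agent.Helper97.BD.A6
import Pool.Agent.Helper97.BD.A7
import Pool.Agent.Helper97.BD.A8
import Pool.Agent.Helper97.BD.T2a

namespace Pool.Agent.Helper97.BD

open MvPolynomial

universe u

theorem type_thm_aux {k : Type u} [Field k] (c : ℕ) (μ : Multiset ℕ) :
    ∀ {ι : Type} [Fintype ι] (d : ι → ℕ) (_ : ∀ i, 1 ≤ d i)
      (_ : (Finset.univ : Finset ι).val.map d = μ),
    ∃ (τ : Type) (_ : Fintype τ) (h : ι → MvPolynomial τ k), (∀ i, (h i).IsHomogeneous (d i)) ∧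
      ∀ (n : ℕ) (F : ι → MvPolynomial (Fin n) k), (∀ i, (F i).IsHomogeneous (d i)) →
        (∃ A : τ → Fin n → k, ∀ i, lsub A (F i) = h i) → LP c F := by
  classical
  refine Multiset.wellFounded_isDershowitzMannaLT.induction (C := fun μ =>
    ∀ {ι : Type} [Fintype ι] (d : ι → ℕ) (_ : ∀ i, 1 ≤ d i)
      (_ : (Finset.univ : Finset ι).val.map d = μ),
    ∃ (τ : Type) (_ : Fintype τ) (h : ι → MvPolynomial τ k), (∀ i, (h i).IsHomogeneous (d i)) ∧
      ∀ (n : ℕ) (F : ι → MvPolynomial (Fin n) k), (∀ i, (F i).IsHomogeneous (d i)) →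
        (∃ A : τ → Fin n → k, ∀ i, lsub A (F i) = h i) → LP c F) μ ?_
  intro μ ih ι _ d hd hμ
  by_cases hlin : ∀ i, d i ≤ 1
  · have h1 : ∀ i, d i = 1 := fun i => le_antisymm (hlin i) (hd i)
    refine ⟨ι, inferInstance, fun i => X i, fun i => ?_, ?_⟩
    · rw [h1]
      exact isHomogeneous_X k i
    · rintro n F hF ⟨A, hA⟩
      exact lp_linear F (fun i => by rw [← h1 i]; exact hF i) A hA
  · push Not at hlin
    obtain ⟨i₁, hi₁⟩ := hlin
    haveI : Nonempty ι := ⟨i₁⟩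
    obtain ⟨i₀, hi₀⟩ := Finite.exists_max d
    have h2 : 2 ≤ d i₀ := le_trans hi₁ (hi₀ i₁)
    set R := ∑ i, d i + 1 with hR
    letI : Fintype (Der d i₀ (Fin (c + 1) × Fin R)) := Fintype.ofFinite _
    obtain ⟨τ', _, h', hh', hLP⟩ := ih _ (by
        rw [← hμ]
        exact der_lt (ρ := Fin (c + 1) × Fin R) d hd i₀ hi₀)
      (fun p : Der d i₀ (Fin (c + 1) × Fin R) => d p.1.1 - p.1.2.degree)
      (fun p => by have := p.2.1; omega) rfl
    refine ⟨(Fin (c + 1) × Fin R) ⊕ (τ' ⊕ Der d i₀ (Fin (c + 1) × Fin R)), inferInstance,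
      model d i₀ h', model_homog d i₀ h' hh', ?_⟩
    rintro n F hF ⟨A, hA⟩
    refine lp_step d hd i₀ h2 F hF (fun r => A (Sum.inl r))
      (fun i => model_iso d i₀ h' hh' i (F i) A (hA i)) ?_ ?_
    · exact hLP n _ (fun p => ug_homog _ _ (hF p.1.1) _ p.2.1.le)
        ⟨fun t => A (Sum.inr (Sum.inl t)), fun p => model_y d i₀ h' hh' F A hA p⟩
    · intro Ω _ _ _ ξ hξ
      exact exists_dir d hd i₀ h2 (by rw [hR]; exact Nat.lt_succ_self _) F hF
        (fun r => A (Sum.inl r)) (fun i => model_iso d i₀ h' hh' i (F i) A (hA i))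
        (fun q => A (Sum.inr (Sum.inr q))) (fun p => model_w d i₀ h' hh' F A hA p) ξ hξ

/-- for every type there is a model tuple whose occurrence as a linear restriction of `F` implies
the lifting property of `F` -/
theorem type_thm {k : Type u} [Field k] (c : ℕ) {ι : Type} [Fintype ι] (d : ι → ℕ)
    (hd : ∀ i, 1 ≤ d i) :
    ∃ (τ : Type) (_ : Fintype τ) (h : ι → MvPolynomial τ k), (∀ i, (h i).IsHomogeneous (d i)) ∧
      ∀ (n : ℕ) (F : ι → MvPolynomial (Fin n) k), (∀ i, (F i).IsHomogeneous (d i)) →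
        (∃ A : τ → Fin n → k, ∀ i, lsub A (F i) = h i) → LP c F :=
  type_thm_aux c _ d hd rfl

end Pool.Agent.Helper97.BD
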