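import Mathlib
import Pool.Agent.Helper97.BD.Defs

/-!
BD MODULE T3a: replacing a form by forms of lower degree (MP_1dc56d_ag, bounded degree). Notation: Defs.lean.

PROOF. From Low: D, c, Θ. Take i₀ with c i₀ nonzero, so d i₀ = D. F' (inl i) = F i,
F' (inr (l, e)) = Θ l (e + 1). For i ≠ i₀, F i is in the range of F'. The combination
∑ i, C (c i) * F i is in the subalgebra generated by the Θ l e with 1 ≤ e < D, which is contained in
adjoin k (range F') (e = (e - 1) + 1 with e - 1 < d i₀ - 1); so C (c i₀) * F i₀ is in it and, c i₀ being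
invertible, F i₀ too.
-/

namespace Pool.Agent.Helper97.BD

open MvPolynomial

universe u

theorem replace_step {k : Type u} [Field k] {σ : Type*} {ι : Type} [Fintype ι] [DecidableEq ι]
    (d : ι → ℕ) (F : ι → MvPolynomial σ k) (hF : ∀ i, (F i).IsHomogeneous (d i)) (b : ℕ)
    (hlow : Low d F b) :
    ∃ (i₀ : ι) (F' : {i // i ≠ i₀} ⊕ (Fin b × Fin (d i₀ - 1)) → MvPolynomial σ k),
      (∀ j, (F' j).IsHomogeneous (Sum.elim (fun i => d i.1) (fun p => p.2.1 + 1) j)) ∧
      ∀ i, F i ∈ Algebra.adjoin k (Set.range F') := by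
  obtain ⟨D, c, Θ, ⟨i₀, hi₀⟩, hD, hΘ, hmem⟩ := hlow
  set F' : {i // i ≠ i₀} ⊕ (Fin b × Fin (d i₀ - 1)) → MvPolynomial σ k :=
    Sum.elim (fun i => F i.1) (fun p => Θ p.1 (p.2.1 + 1)) with hF'
  have hother : ∀ i, i ≠ i₀ → F i ∈ Algebra.adjoin k (Set.range F') := by
    intro i hi
    exact Algebra.subset_adjoin ⟨Sum.inl ⟨i, hi⟩, rfl⟩
  refine ⟨i₀, F', ?_, ?_⟩
  · rintro (i | ⟨l, e⟩)
    · exact hF i.1
    · exact hΘ l (e.1 + 1)
  · intro i
    by_cases hi : i = i₀
    · subst hi
      have h1 : (∑ j, C (c j) * F j) ∈ Algebra.adjoin k (Set.range F') := by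
        refine Algebra.adjoin_mono ?_ hmem
        rintro f ⟨l, e, he1, he2, rfl⟩
        have h2 : d i = D := hD i hi₀
        refine ⟨Sum.inr (l, ⟨e - 1, by omega⟩), ?_⟩
        show Θ l (e - 1 + 1) = Θ l e
        rw [Nat.sub_add_cancel he1]
      have h2 : (∑ j, C (c j) * F j) = C (c i) * F i +
          ∑ j ∈ Finset.univ.erase i, C (c j) * F j := by
        exact (Finset.add_sum_erase _ (fun j => C (c j) * F j) (Finset.mem_univ i)).symm
      have h3 : ∑ j ∈ Finset.univ.erase i, C (c j) * F j ∈ Algebra.adjoin k (Set.range F') := by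
        refine Subalgebra.sum_mem _ fun j hj => ?_
        exact Subalgebra.mul_mem _ (Subalgebra.algebraMap_mem _ (c j))
          (hother j (Finset.ne_of_mem_erase hj))
      have h4 : C (c i) * F i ∈ Algebra.adjoin k (Set.range F') := by
        have : C (c i) * F i = (∑ j, C (c j) * F j) -
            ∑ j ∈ Finset.univ.erase i, C (c j) * F j := by rw [h2]; ring
        rw [this]
        exact Subalgebra.sub_mem _ h1 h3
      have h5 : F i = C (c i)⁻¹ * (C (c i) * F i) := by
        rw [← mul_assoc, ← C_mul, inv_mul_cancel₀ hi₀, C_1, one_mul]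
      rw [h5]
      exact Subalgebra.mul_mem _ (Subalgebra.algebraMap_mem _ (c i)⁻¹) h4
    · exact hother i hi

end Pool.Agent.Helper97.BD
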