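import Mathlib
import Pool.Agent.Helper97.BD.Surj
import Pool.Agent.Helper97.BD.Cf
import Pool.Agent.Helper97.BD.K6

/-!
BD MODULE Univ: universality or lowness (MP_1dc56d_ag, bounded degree). Notation: Defs.lean.

PROOF. Let C = Idx d τ (finite; Fintype.ofFinite) with degrees d' p = d p.1.1 and take
b = Nat.card (Idx d' C). For F consider the tuple 𝔽 p = cf (F p.1.1) p.1.2 in the variables τ × σ,
homogeneous of degree d' p by cf_homog. Apply surj_or_low.
(1) If 𝔽 is surjective: given h, take a p = coeff p.1.2 (h p.1.1); get x : τ × σ → k with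
eval x (𝔽 p) = a p; put A j v = x (j, v). By cf_eval, coeff γ (lsub A (F i)) = coeff γ (h i) for all
γ of degree d i; for other γ both are 0 (both are homogeneous of degree d i, lsub_homog). So
lsub A (F i) = h i.
(2) If Low d' 𝔽 b: there are D, c : C → k, Θ. Some c p₁ is nonzero, p₁ = (i₁, γ₁), d i₁ = D. By K6
(exists_pow_ne) with a γ = c (i₁, γ) for γ of degree D (0 otherwise) there is t with
∑ γ, c (i₁, γ) * coeff γ ((∑ j, C (t j) * X j) ^ D) nonzero. Apply the algebra hom
φ = aeval (fun q => C (t q.1) * X q.2) : MvPolynomial (τ × σ) k → MvPolynomial σ k to the relation: by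
cf_rank_one the left side becomes ∑ i, C (c' i) * F i with
c' i = ∑ over p with p.1.1 = i of c p * coeff p.1.2 ((∑ j, C (t j) * X j) ^ (d i)), supported on
d i = D (c p nonzero forces d p.1.1 = D) and c' i₁ nonzero; the right side lies in the subalgebra generated
by the φ (Θ l e), 1 ≤ e < D, homogeneous of degree e (φ sends variables to forms of degree 1). So
Low d F b with Θ' l e = φ (Θ l e).
-/

namespace Pool.Agent.Helper97.BD

open MvPolynomial

universe u

theorem univ_or_low {k : Type u} [Field k] [IsAlgClosed k] [CharZero k] {ι τ : Type*} [Fintype ι]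
    [Fintype τ] (d : ι → ℕ) (hd : ∀ i, 1 ≤ d i) :
    ∃ b, ∀ (σ : Type) [Finite σ] (F : ι → MvPolynomial σ k)
      (_ : ∀ i, (F i).IsHomogeneous (d i)), Low d F b ∨
      ∀ h : ι → MvPolynomial τ k, (∀ i, (h i).IsHomogeneous (d i)) →
        ∃ A : τ → σ → k, ∀ i, lsub A (F i) = h i := by
  classical
  haveI : Fintype (Idx d τ) := Fintype.ofFinite _
  set d' : Idx d τ → ℕ := fun p => d p.1.1 with hd'
  refine ⟨Nat.card (Idx d' (Idx d τ)), ?_⟩
  intro σ _ F hF
  set G : Idx d τ → MvPolynomial (τ × σ) k := fun p => cf (F p.1.1) p.1.2 with hG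
  rcases surj_or_low d' (fun p => hd p.1.1) G (fun p => cf_homog (hF p.1.1) p.1.2) with hlow | hsurj
  · left
    obtain ⟨D, c, Θ, ⟨p₁, hp₁⟩, hD, hΘ, hmem⟩ := hlow
    set i₁ := p₁.1.1 with hi₁
    have hDi : d i₁ = D := hD p₁ hp₁
    set S : Finset (τ →₀ ℕ) :=
      ((Finset.univ : Finset (Idx d τ)).filter (fun p => p.1.1 = i₁)).image (fun p => p.1.2) with hS
    set a : (τ →₀ ℕ) → k := fun γ => if h : γ.degree = d i₁ then c ⟨(i₁, γ), h⟩ else 0 with ha
    have hSdeg : ∀ γ ∈ S, γ.degree = D := by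
      intro γ hγ
      rw [hS, Finset.mem_image] at hγ
      obtain ⟨p, hp, rfl⟩ := hγ
      rw [Finset.mem_filter] at hp
      rw [p.2, hp.2, hDi]
    have ha₁ : a p₁.1.2 = c p₁ := by
      have h1 : p₁.1.2.degree = d i₁ := p₁.2
      show (if h : p₁.1.2.degree = d i₁ then c ⟨(i₁, p₁.1.2), h⟩ else 0) = c p₁
      rw [dif_pos h1]
    obtain ⟨t, ht⟩ := exists_pow_ne (k := k) D S hSdeg a p₁.1.2
      (by rw [hS, Finset.mem_image]; exact ⟨p₁, by simp [hi₁], rfl⟩) (by rw [ha₁]; exact hp₁)
    set T : MvPolynomial τ k := ∑ j, C (t j) * X j with hT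
    set c' : ι → k := fun i => ∑ p ∈ (Finset.univ : Finset (Idx d τ)).filter (fun p => p.1.1 = i),
      c p * coeff p.1.2 (T ^ d i) with hc'
    set φ : MvPolynomial (τ × σ) k →ₐ[k] MvPolynomial σ k :=
      aeval (fun q : τ × σ => C (t q.1) * X q.2) with hφ
    have hsum : φ (∑ p, C (c p) * G p) = ∑ i, C (c' i) * F i := by
      rw [map_sum]
      have h1 : ∀ p : Idx d τ, φ (C (c p) * G p) =
          C (c p * coeff p.1.2 (T ^ d p.1.1)) * F p.1.1 := by
        intro p
        rw [map_mul, hφ, hG, cf_rank_one (hF p.1.1), aeval_C, C_mul]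
        show C (c p) * _ = _
        ring
      simp_rw [h1]
      rw [← Finset.sum_fiberwise (s := Finset.univ) (g := fun p : Idx d τ => p.1.1)]
      refine Finset.sum_congr rfl fun i _ => ?_
      rw [hc', map_sum, Finset.sum_mul]
      refine Finset.sum_congr rfl fun p hp => ?_
      rw [Finset.mem_filter] at hp
      rw [hp.2]
    have hc₁ : c' i₁ ≠ 0 := by
      have h1 : c' i₁ = ∑ γ ∈ S, a γ * coeff γ (T ^ D) := by
        rw [hS, Finset.sum_image]
        · rw [hc']
          refine Finset.sum_congr rfl fun p hp => ?_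
          rw [Finset.mem_filter] at hp
          have h2 : p.1.2.degree = d i₁ := by rw [p.2, hp.2]
          have h3 : a p.1.2 = c p := by
            show (if h : p.1.2.degree = d i₁ then c ⟨(i₁, p.1.2), h⟩ else 0) = c p
            rw [dif_pos h2]
            congr 1
            apply Subtype.ext
            exact Prod.ext hp.2.symm rfl
          rw [h3, hDi]
        · intro p hp q hq hpq
          have hp' : p.1.1 = i₁ := by simpa using hp
          have hq' : q.1.1 = i₁ := by simpa using hq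
          apply Subtype.ext
          exact Prod.ext (hp'.trans hq'.symm) hpq
      rw [h1]
      exact ht
    refine ⟨D, c', fun l e => φ (Θ l e), ⟨i₁, hc₁⟩, ?_, ?_, ?_⟩
    · intro i hi
      obtain ⟨p, hp, hpne⟩ := Finset.exists_ne_zero_of_sum_ne_zero hi
      rw [Finset.mem_filter] at hp
      have h1 : d p.1.1 = D := hD p (left_ne_zero_of_mul hpne)
      rw [← hp.2]; exact h1
    · intro l e
      have h1 := (hΘ l e).aeval (fun q : τ × σ => C (t q.1) * X q.2) (n := 1) (fun q => by
        have := (isHomogeneous_C σ (t q.1)).mul (isHomogeneous_X k q.2)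
        simpa using this)
      rw [one_mul] at h1
      exact h1
    · rw [← hsum]
      have h1 : φ (∑ p, C (c p) * G p) ∈
          (Algebra.adjoin k {f | ∃ l e, 1 ≤ e ∧ e < D ∧ f = Θ l e}).map φ := ⟨_, hmem, rfl⟩
      rw [AlgHom.map_adjoin] at h1
      refine Algebra.adjoin_mono ?_ h1
      rintro f ⟨g, ⟨l, e, h2, h3, rfl⟩, rfl⟩
      exact ⟨l, e, h2, h3, rfl⟩
  · right
    intro h hh
    obtain ⟨x, hx⟩ := hsurj (fun p => coeff p.1.2 (h p.1.1))
    refine ⟨fun j v => x (j, v), ?_⟩
    intro i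
    ext γ
    by_cases hγ : γ.degree = d i
    · rw [← cf_eval]
      exact hx ⟨(i, γ), hγ⟩
    · rw [(lsub_homog _ (hF i)).coeff_eq_zero hγ, (hh i).coeff_eq_zero hγ]

end Pool.Agent.Helper97.BD
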