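import Mathlib
import Pool.Agent.Helper97.BD.T2
import Pool.Agent.Helper97.BD.T3a
import Pool.Agent.Helper97.BD.Univ

namespace Pool.Agent.Helper97.BD

open MvPolynomial

universe u

theorem LP.reindex {k : Type u} [Field k] {n c : ℕ} {ι ι' : Type} (e : ι' ≃ ι)
    (F : ι → MvPolynomial (Fin n) k) (h : LP c F) : LP c (fun j => F (e j)) := by
  intro Ω _ _ _ ξ hξ O _ _ π hπ hloc p hp
  obtain ⟨x, hx1, hx2⟩ := h Ω ξ hξ O π hπ hloc (fun i => p (e.symm i)) (fun i => by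
    rw [hp]
    simp)
  exact ⟨x, fun j => by rw [hx1, Equiv.symm_apply_apply], hx2⟩

theorem kernel_aux {k : Type u} [Field k] [IsAlgClosed k] [CharZero k] (c : ℕ) (μ : Multiset ℕ) :
    ∀ {ι : Type} [Fintype ι] (d : ι → ℕ) (_ : ∀ i, 1 ≤ d i)
      (_ : (Finset.univ : Finset ι).val.map d = μ),
    ∃ N : ℕ, ∀ (n : ℕ) (F : ι → MvPolynomial (Fin n) k), (∀ i, (F i).IsHomogeneous (d i)) →
      ∃ (M : ℕ) (d' : Fin M → ℕ) (G : Fin M → MvPolynomial (Fin n) k), M ≤ N ∧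
        (∀ i, ∃ j, d' i ≤ d j) ∧
        (∀ i, (G i).IsHomogeneous (d' i)) ∧ (∀ i, F i ∈ Algebra.adjoin k (Set.range G)) ∧
        LP c G := by
  classical
  refine Multiset.wellFounded_isDershowitzMannaLT.induction (C := fun μ =>
    ∀ {ι : Type} [Fintype ι] (d : ι → ℕ) (_ : ∀ i, 1 ≤ d i)
      (_ : (Finset.univ : Finset ι).val.map d = μ),
    ∃ N : ℕ, ∀ (n : ℕ) (F : ι → MvPolynomial (Fin n) k), (∀ i, (F i).IsHomogeneous (d i)) →
      ∃ (M : ℕ) (d' : Fin M → ℕ) (G : Fin M → MvPolynomial (Fin n) k), M ≤ N ∧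
        (∀ i, ∃ j, d' i ≤ d j) ∧
        (∀ i, (G i).IsHomogeneous (d' i)) ∧ (∀ i, F i ∈ Algebra.adjoin k (Set.range G)) ∧
        LP c G) μ ?_
  intro μ ih ι _ d hd hμ
  obtain ⟨τ, _, h, hh, hLP⟩ := type_thm (k := k) c d hd
  obtain ⟨b, hb⟩ := univ_or_low (k := k) (τ := τ) d hd
  have key : ∀ i₀ : ι, ∃ N : ℕ, ∀ (n : ℕ)
      (F : {i // i ≠ i₀} ⊕ (Fin b × Fin (d i₀ - 1)) → MvPolynomial (Fin n) k),
      (∀ j, (F j).IsHomogeneous (Sum.elim (fun i => d i.1) (fun p => p.2.1 + 1) j)) →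
      ∃ (M : ℕ) (d' : Fin M → ℕ) (G : Fin M → MvPolynomial (Fin n) k), M ≤ N ∧
        (∀ i, ∃ j : {i // i ≠ i₀} ⊕ (Fin b × Fin (d i₀ - 1)), d' i ≤
          Sum.elim (fun i => d i.1) (fun p => p.2.1 + 1) j) ∧
        (∀ i, (G i).IsHomogeneous (d' i)) ∧ (∀ i, F i ∈ Algebra.adjoin k (Set.range G)) ∧
        LP c G := by
    intro i₀
    refine ih _ (by rw [← hμ]; exact replace_lt d i₀ b)
      (Sum.elim (fun i : {i // i ≠ i₀} => d i.1)
        (fun p : Fin b × Fin (d i₀ - 1) => p.2.1 + 1)) ?_ rfl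
    rintro (i | p)
    · exact hd i.1
    · simp
  choose N hN using key
  refine ⟨Fintype.card ι + ∑ i, N i, ?_⟩
  intro n F hF
  rcases hb (Fin n) F hF with hlow | huniv
  · obtain ⟨i₀, F', hF', hadj⟩ := replace_step d F hF b hlow
    obtain ⟨M, d', G, hM, hd', hG, hFG, hLPG⟩ := hN i₀ n F' hF'
    refine ⟨M, d', G, ?_, ?_, hG, ?_, hLPG⟩
    · refine hM.trans (le_trans ?_ (Nat.le_add_left _ _))
      exact Finset.single_le_sum (f := N) (fun _ _ => Nat.zero_le _) (Finset.mem_univ i₀)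
    · intro i
      obtain ⟨j, hj⟩ := hd' i
      rcases j with j | p
      · exact ⟨j.1, hj⟩
      · refine ⟨i₀, hj.trans ?_⟩
        simp only [Sum.elim_inr]
        have := p.2.2
        omega
    · intro i
      have h1 : Algebra.adjoin k (Set.range F') ≤ Algebra.adjoin k (Set.range G) := by
        rw [Algebra.adjoin_le_iff]
        rintro _ ⟨j, rfl⟩
        exact hFG j
      exact h1 (hadj i)
  · obtain ⟨A, hA⟩ := huniv h hh
    let e := Fintype.equivFin ι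
    refine ⟨Fintype.card ι, fun j => d (e.symm j), fun j => F (e.symm j), Nat.le_add_right _ _,
      fun i => ⟨_, le_rfl⟩, fun i => hF _, ?_, ?_⟩
    · intro i
      exact Algebra.subset_adjoin ⟨e i, by simp⟩
    · exact LP.reindex e.symm F (hLP n F hF ⟨A, hA⟩)

/-- T3 -/
theorem kernel {k : Type u} [Field k] [IsAlgClosed k] [CharZero k] (c : ℕ) {ι : Type} [Fintype ι]
    (d : ι → ℕ) (hd : ∀ i, 1 ≤ d i) :
    ∃ N : ℕ, ∀ (n : ℕ) (F : ι → MvPolynomial (Fin n) k), (∀ i, (F i).IsHomogeneous (d i)) →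
      ∃ (M : ℕ) (d' : Fin M → ℕ) (G : Fin M → MvPolynomial (Fin n) k), M ≤ N ∧
        (∀ i, ∃ j, d' i ≤ d j) ∧
        (∀ i, (G i).IsHomogeneous (d' i)) ∧ (∀ i, F i ∈ Algebra.adjoin k (Set.range G)) ∧
        LP c G :=
  kernel_aux c _ d hd rfl

end Pool.Agent.Helper97.BD
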