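import Mathlib
import Pool.Agent.Helper97.BD.Defs

namespace Pool.Agent.Helper97.BD

open MvPolynomial

universe u

/-- from the lifting property to a rational point over a purely transcendental extension -/
theorem lift_point {k : Type u} [Field k] {n M c : ℕ} (G : Fin M → MvPolynomial (Fin n) k)
    (hLP : LP c G) {A' : Type u} [CommRing A'] [IsDomain A'] [Algebra k A'] (w : Fin M → A')
    {Ω : Type u} [Field Ω] [IsAlgClosed Ω] [Algebra k Ω] (ξ : Fin n → Ω) (hξ : HT (k := k) c ξ)
    (γ : A' →ₐ[k] Ω) (hw : ∀ i, γ (w i) = aeval ξ (G i)) :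
    ∃ (e : ℕ) (x' : Fin n → FractionRing (MvPolynomial (Fin e) A')),
      (∀ i, aeval x' (G i) = algebraMap (MvPolynomial (Fin e) A') _ (C (w i))) ∧
      ∀ P : MvPolynomial (Fin n) k, aeval x' P = 0 → aeval ξ P = 0 := by
  classical
  let B := MvPolynomial Ω A'
  let ev : B →ₐ[k] Ω :=
    { (eval₂Hom (γ : A' →+* Ω) id : B →+* Ω) with
      commutes' := fun a => by
        change eval₂Hom (γ : A' →+* Ω) id (algebraMap k B a) = _
        rw [IsScalarTower.algebraMap_apply k A' B, MvPolynomial.algebraMap_eq, eval₂Hom_C]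
        exact γ.commutes a }
  have hevX : ∀ ω : Ω, ev (X ω) = ω := fun ω => eval₂Hom_X' _ _ _
  have hevC : ∀ a : A', ev (C a) = γ a := fun a => eval₂Hom_C _ _ _
  let 𝔮 : Ideal B := RingHom.ker (ev : B →+* Ω)
  haveI h𝔮 : 𝔮.IsPrime := RingHom.ker_isPrime _
  let O := Localization.AtPrime 𝔮
  have hunit : ∀ y : 𝔮.primeCompl, IsUnit (ev y) := by
    intro y
    rw [isUnit_iff_ne_zero]
    exact y.2
  let π : O →ₐ[k] Ω := IsLocalization.liftAlgHom (M := 𝔮.primeCompl) (f := ev) hunit
  have hπ : ∀ b : B, π (algebraMap B O b) = ev b := fun b => IsLocalization.lift_eq _ b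
  have hπs : Function.Surjective π := fun ω => ⟨algebraMap B O (X ω), by rw [hπ, hevX]⟩
  have hloc : ∀ a : O, π a ≠ 0 → IsUnit a := by
    intro a ha
    obtain ⟨⟨b, s⟩, hbs⟩ := IsLocalization.surj 𝔮.primeCompl a
    have hs : IsUnit (algebraMap B O s) := IsLocalization.map_units O s
    have h1 : π a * ev s = ev b := by
      rw [← hπ, ← hπ, ← map_mul, hbs]
    have hb : b ∈ 𝔮.primeCompl := by
      intro hb
      have : ev b = 0 := hb
      rw [this] at h1
      rcases mul_eq_zero.mp h1 with h | h
      · exact ha h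
      · exact s.2 h
    have hb' : IsUnit (algebraMap B O b) := IsLocalization.map_units O ⟨b, hb⟩
    rw [← hbs] at hb'
    exact isUnit_of_mul_isUnit_left hb'
  obtain ⟨x, hx1, hx2⟩ := hLP Ω ξ hξ O π hπs hloc (fun i => algebraMap B O (C (w i))) (fun i => by
    rw [hπ, hevC, hw])
  -- denominators
  have hsurj : ∀ v, ∃ bs : B × 𝔮.primeCompl, x v * algebraMap B O bs.2 = algebraMap B O bs.1 :=
    fun v => IsLocalization.surj 𝔮.primeCompl (x v)
  choose bs hbs using hsurj
  let V : Finset Ω := Finset.univ.biUnion fun v => (bs v).1.vars ∪ ((bs v).2 : B).vars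
  have hb : ∀ v, ∃ b' : MvPolynomial V A', rename ((↑) : V → Ω) b' = (bs v).1 := by
    intro v
    apply MvPolynomial.exists_rename_eq_of_vars_subset_range _ _ Subtype.val_injective
    rw [Subtype.range_coe]
    intro u hu
    exact Finset.mem_coe.mpr (Finset.mem_biUnion.mpr ⟨v, Finset.mem_univ _,
      Finset.mem_union_left _ hu⟩)
  have hs : ∀ v, ∃ s' : MvPolynomial V A', rename ((↑) : V → Ω) s' = ((bs v).2 : B) := by
    intro v
    apply MvPolynomial.exists_rename_eq_of_vars_subset_range _ _ Subtype.val_injective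
    rw [Subtype.range_coe]
    intro u hu
    exact Finset.mem_coe.mpr (Finset.mem_biUnion.mpr ⟨v, Finset.mem_univ _,
      Finset.mem_union_right _ hu⟩)
  choose b' hb' using hb
  choose s' hs' using hs
  let eV : V ≃ Fin V.card := V.equivFin
  let E := MvPolynomial (Fin V.card) A'
  let ren : E →ₐ[A'] B := rename (fun i => ((eV.symm i : V) : Ω))
  have hren : Function.Injective ren :=
    rename_injective _ (Subtype.val_injective.comp eV.symm.injective)
  let K := FractionRing E
  let K' := FractionRing B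
  let f0 : E →ₐ[k] K' := ((Algebra.ofId B K').restrictScalars k).comp (ren.restrictScalars k)
  have hf0 : Function.Injective f0 := (IsFractionRing.injective B K').comp hren
  let ρ : K →ₐ[k] K' := IsFractionRing.liftAlgHom (R := k) (A := E) (K := K) hf0
  have hρ : ∀ a : E, ρ (algebraMap E K a) = algebraMap B K' (ren a) := by
    intro a
    exact IsFractionRing.lift_algebraMap (A := E) (K := K) (g := (f0 : E →+* K')) hf0 a
  have hρinj : Function.Injective ρ := ρ.toRingHom.injective
  -- from `O` to `K'`
  have hunit' : ∀ y : 𝔮.primeCompl, IsUnit (((Algebra.ofId B K').restrictScalars k) y) := by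
    intro y
    rw [isUnit_iff_ne_zero]
    intro h0
    have h1 : (y : B) = 0 := IsFractionRing.injective B K' (by rw [map_zero]; exact h0)
    exact y.2 (by rw [h1]; exact 𝔮.zero_mem)
  let τ : O →ₐ[k] K' := IsLocalization.liftAlgHom (M := 𝔮.primeCompl)
    (f := (Algebra.ofId B K').restrictScalars k) hunit'
  have hτ : ∀ b : B, τ (algebraMap B O b) = algebraMap B K' b := fun b => IsLocalization.lift_eq _ b
  have hτinj : ∀ a : O, τ a = 0 → a = 0 := by
    intro a ha
    obtain ⟨⟨b, s⟩, hbs⟩ := IsLocalization.surj 𝔮.primeCompl a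
    have h1 : algebraMap B K' b = 0 := by
      rw [← hτ, ← hbs, map_mul, ha, zero_mul]
    have h2 : b = 0 := IsFractionRing.injective B K' (by rw [map_zero]; exact h1)
    rw [h2, map_zero] at hbs
    exact (IsUnit.mul_left_eq_zero (IsLocalization.map_units O s)).mp hbs
  let r : MvPolynomial V A' →ₐ[A'] E := rename eV
  have hr : ∀ a, ren (r a) = rename ((↑) : V → Ω) a := by
    intro a
    have h1 : ren.comp r = rename ((↑) : V → Ω) := by
      apply MvPolynomial.algHom_ext
      intro i
      change rename _ (rename _ (X i)) = rename _ (X i)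
      rw [rename_X, rename_X, rename_X, Equiv.symm_apply_apply]
    rw [← h1]
    rfl
  have hs0 : ∀ v, r (s' v) ≠ 0 := by
    intro v h0
    have h1 : ren (r (s' v)) = 0 := by rw [h0, map_zero]
    rw [hr, hs'] at h1
    exact (bs v).2.2 (by rw [h1]; exact 𝔮.zero_mem)
  let x' : Fin n → K := fun v => algebraMap E K (r (b' v)) / algebraMap E K (r (s' v))
  have hx' : ∀ v, ρ (x' v) = τ (x v) := by
    intro v
    simp only [x']
    rw [map_div₀, hρ, hρ, hr, hr, hb', hs']
    rw [div_eq_iff]
    · rw [← hτ, ← hτ, ← map_mul, hbs]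
    · intro h0
      have h1 : ((bs v).2 : B) = 0 := IsFractionRing.injective B K' (by rw [map_zero]; exact h0)
      exact (bs v).2.2 (by rw [h1]; exact 𝔮.zero_mem)
  have key : ∀ P : MvPolynomial (Fin n) k, ρ (aeval x' P) = τ (aeval x P) := by
    intro P
    have h1 : ρ.comp (aeval x') = τ.comp (aeval x) := by
      ext v
      simp only [AlgHom.comp_apply, aeval_X]
      exact hx' v
    exact DFunLike.congr_fun h1 P
  refine ⟨V.card, x', ?_, ?_⟩
  · intro i
    apply hρinj
    rw [key, hx1, hτ, hρ]
    congr 1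
    exact (rename_C _ _).symm
  · intro P hP
    have h1 : τ (aeval x P) = 0 := by rw [← key, hP, map_zero]
    have h2 := hτinj _ h1
    have h3 : π (aeval x P) = aeval ξ P := by
      have h4 : π.comp (aeval x) = (aeval ξ : MvPolynomial (Fin n) k →ₐ[k] Ω) := by
        ext v
        simp only [AlgHom.comp_apply, aeval_X]
        exact hx2 v
      exact DFunLike.congr_fun h4 P
    rw [← h3, h2, map_zero]

end Pool.Agent.Helper97.BD
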