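import Mathlib
import Pool.Agent.Helper97.BD.T3
import Pool.Agent.Helper97.BD.T4a
import Pool.Agent.Helper97.BD.Jd
import Pool.Agent.Helper97.QW.Final

namespace Pool.Agent.Helper97.BD

open MvPolynomial
open Pool.Agent.Helper97.QW

universe u

/-- relative unirationality from the lifting property -/
theorem relative {k : Type u} [Field k] {n M s : ℕ}
    (f : Fin s → MvPolynomial (Fin n) k) (J : Ideal (MvPolynomial (Fin s) k))
    (G : Fin M → MvPolynomial (Fin n) k) (hLP : LP s G)
    (P : Fin s → MvPolynomial (Fin M) k) (hP : ∀ j, aeval G (P j) = f j)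
    (I : Ideal (MvPolynomial (Fin n) k)) [hIp : I.IsPrime]
    (hI : I ∈ (J.map (aeval f : MvPolynomial (Fin s) k →ₐ[k]
      MvPolynomial (Fin n) k)).minimalPrimes)
    (J' : Ideal (MvPolynomial (Fin M) k)) [hJ'p : J'.IsPrime]
    (hJ' : J' = I.comap (aeval G : MvPolynomial (Fin M) k →ₐ[k] MvPolynomial (Fin n) k)) :
    ∃ (e : ℕ) (ψ : FractionRing (MvPolynomial (Fin n) k ⧸ I) →ₐ[k]
      FractionRing (MvPolynomial (Fin e) (MvPolynomial (Fin M) k ⧸ J'))),
      ∀ i, ψ (algebraMap (MvPolynomial (Fin n) k ⧸ I) _ (Ideal.Quotient.mk I (G i))) =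
        algebraMap (MvPolynomial (Fin e) (MvPolynomial (Fin M) k ⧸ J')) _
          (C (Ideal.Quotient.mk J' (X i))) := by
  classical
  let A := MvPolynomial (Fin n) k ⧸ I
  let A' := MvPolynomial (Fin M) k ⧸ J'
  let FA := FractionRing A
  let Ω := AlgebraicClosure FA
  -- the point
  let jΩ : A →ₐ[k] Ω := ((Algebra.ofId FA Ω).restrictScalars k).comp
    ((Algebra.ofId A FA).restrictScalars k)
  have hjΩ : Function.Injective jΩ :=
    (algebraMap FA Ω).injective.comp (IsFractionRing.injective A FA)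
  let ξ : Fin n → Ω := fun v => jΩ (Ideal.Quotient.mk I (X v))
  have hξ : ∀ P : MvPolynomial (Fin n) k, aeval ξ P = jΩ (Ideal.Quotient.mk I P) := by
    intro P
    have : (aeval ξ : MvPolynomial (Fin n) k →ₐ[k] Ω) = jΩ.comp (Ideal.Quotient.mkₐ k I) := by
      apply MvPolynomial.algHom_ext
      intro v
      rw [aeval_X]
      rfl
    rw [this]
    rfl
  have hξ0 : ∀ P : MvPolynomial (Fin n) k, aeval ξ P = 0 ↔ P ∈ I := by
    intro P
    rw [hξ, ← Ideal.Quotient.eq_zero_iff_mem]
    exact map_eq_zero_iff jΩ hjΩ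
  have hHT : HT (k := k) s ξ := ht_minimal f J ξ I hI hξ0
  -- the inclusion of coordinate rings
  let g : A' →ₐ[k] A := Ideal.quotientMapₐ I
    (aeval G : MvPolynomial (Fin M) k →ₐ[k] MvPolynomial (Fin n) k) (le_of_eq hJ')
  have hgX : ∀ i, g (Ideal.Quotient.mk J' (X i)) = Ideal.Quotient.mk I (G i) := by
    intro i
    change Ideal.Quotient.mk I ((aeval G : MvPolynomial (Fin M) k →ₐ[k] _) (X i)) = _
    rw [aeval_X]
  obtain ⟨e, x', hx1, hx2⟩ := lift_point (A' := A') G hLP (fun i => Ideal.Quotient.mk J' (X i))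
    ξ hHT (jΩ.comp g) (fun i => by
      rw [hξ]
      change jΩ (g _) = _
      rw [hgX])
  let K := FractionRing (MvPolynomial (Fin e) A')
  let θ : MvPolynomial (Fin n) k →ₐ[k] K := aeval x'
  have h2 : θ.comp (aeval G : MvPolynomial (Fin M) k →ₐ[k] MvPolynomial (Fin n) k) =
      ((Algebra.ofId (MvPolynomial (Fin e) A') K).restrictScalars k).comp
        (((Algebra.ofId A' (MvPolynomial (Fin e) A')).restrictScalars k).comp
          (Ideal.Quotient.mkₐ k J')) := by
    apply MvPolynomial.algHom_ext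
    intro i
    simp only [AlgHom.comp_apply, aeval_X]
    exact hx1 i
  have hcomp : ∀ Q : MvPolynomial (Fin s) k,
      (aeval G : MvPolynomial (Fin M) k →ₐ[k] MvPolynomial (Fin n) k) (aeval P Q) =
      aeval f Q := by
    intro Q
    have h3 : (aeval G : MvPolynomial (Fin M) k →ₐ[k] MvPolynomial (Fin n) k).comp (aeval P) =
        aeval f := by
      apply MvPolynomial.algHom_ext
      intro j
      rw [AlgHom.comp_apply, aeval_X, aeval_X, hP]
    rw [← h3]
    rfl
  have hker : I ≤ RingHom.ker (θ : MvPolynomial (Fin n) k →+* K) := by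
    apply hI.2 ⟨RingHom.ker_isPrime _, ?_⟩
    · intro Q hQ
      exact (hξ0 Q).mp (hx2 Q hQ)
    · rw [Ideal.map_le_iff_le_comap]
      intro Q hQ
      rw [Ideal.mem_comap, RingHom.mem_ker]
      change θ (aeval f Q) = 0
      have h3 : θ (aeval G (aeval P Q)) = algebraMap (MvPolynomial (Fin e) A') K
          (algebraMap A' _ (Ideal.Quotient.mk J' (aeval P Q))) := DFunLike.congr_fun h2 _
      have h4 : (aeval P Q : MvPolynomial (Fin M) k) ∈ J' := by
        rw [hJ', Ideal.mem_comap]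
        change (aeval G : MvPolynomial (Fin M) k →ₐ[k] _) (aeval P Q) ∈ I
        rw [hcomp]
        exact hI.1.2 (Ideal.mem_map_of_mem _ hQ)
      rw [← hcomp, h3, Ideal.Quotient.eq_zero_iff_mem.mpr h4, map_zero, map_zero]
  have hθ : ∀ P, θ P = 0 ↔ P ∈ I := fun P =>
    ⟨fun h => (hξ0 P).mp (hx2 P h), fun h => hker h⟩
  let φ : A →ₐ[k] K := Ideal.Quotient.liftₐ I θ (fun P hP => (hθ P).mpr hP)
  have hφ : Function.Injective φ := by
    rw [injective_iff_map_eq_zero]
    intro a ha
    obtain ⟨P, rfl⟩ := Ideal.Quotient.mk_surjective a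
    have : θ P = 0 := ha
    exact Ideal.Quotient.eq_zero_iff_mem.mpr ((hθ P).mp this)
  refine ⟨e, IsFractionRing.liftAlgHom (R := k) (A := A) (K := FA) hφ, ?_⟩
  intro i
  have h1 : (IsFractionRing.liftAlgHom (R := k) (A := A) (K := FA) hφ)
      (algebraMap A FA (Ideal.Quotient.mk I (G i))) = φ (Ideal.Quotient.mk I (G i)) :=
    IsFractionRing.lift_algebraMap (A := A) (K := FA) (g := (φ : A →+* K)) hφ _
  refine h1.trans ?_
  change θ (G i) = _
  exact hx1 i

theorem unirational_of_hom {k F F' : Type*} [Field k] [CommRing F] [Algebra k F] [CommRing F']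
    [Algebra k F'] (e : F →ₐ[k] F') (h : Unirational k F') : Unirational k F := by
  obtain ⟨m, ⟨g⟩⟩ := h
  exact ⟨m, ⟨g.comp e⟩⟩

/-- the homogeneous components -/
theorem adjoin_components {k : Type u} [Field k] {n d : ℕ} (f : MvPolynomial (Fin n) k)
    (hf : f.totalDegree ≤ d) (𝒜 : Subalgebra k (MvPolynomial (Fin n) k))
    (h : ∀ e : Fin d, homogeneousComponent (e + 1) f ∈ 𝒜) : f ∈ 𝒜 := by
  rw [← MvPolynomial.sum_homogeneousComponent f]
  refine Subalgebra.sum_mem _ fun i hi => ?_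
  rcases Nat.eq_zero_or_pos i with h0 | h0
  · subst h0
    rw [homogeneousComponent_zero]
    exact 𝒜.algebraMap_mem _
  · have hi' : i ≤ d := by
      have := Finset.mem_range.mp hi
      omega
    have := h ⟨i - 1, by omega⟩
    simp only at this
    rwa [Nat.sub_add_cancel h0] at this

/-- the main theorem -/
theorem bounded {k : Type u} [Field k] [IsAlgClosed k] [CharZero k] (d s : ℕ) :
    ∃ N : ℕ, ∀ (n : ℕ) (f : Fin s → MvPolynomial (Fin n) k) (_ : ∀ j, (f j).totalDegree ≤ d)
      (J : Ideal (MvPolynomial (Fin s) k))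
      (I : Ideal (MvPolynomial (Fin n) k))
      (_ : I ∈ (J.map (aeval f : MvPolynomial (Fin s) k →ₐ[k]
        MvPolynomial (Fin n) k)).minimalPrimes),
      ∃ (M : ℕ) (G : Fin M → MvPolynomial (Fin n) k)
        (P : Fin s → MvPolynomial (Fin M) k) (J' : Ideal (MvPolynomial (Fin M) k)),
        M ≤ N ∧ (∀ i, (G i).totalDegree ≤ d) ∧ (∀ j, aeval G (P j) = f j) ∧
        J' = I.comap (aeval G : MvPolynomial (Fin M) k →ₐ[k] MvPolynomial (Fin n) k) ∧
        I ∈ (J'.map (aeval G : MvPolynomial (Fin M) k →ₐ[k]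
          MvPolynomial (Fin n) k)).minimalPrimes ∧
        (∃ (e : ℕ) (ψ : FractionRing (MvPolynomial (Fin n) k ⧸ I) →ₐ[k]
          FractionRing (MvPolynomial (Fin e) (MvPolynomial (Fin M) k ⧸ J'))),
          ∀ i, ψ (algebraMap (MvPolynomial (Fin n) k ⧸ I) _ (Ideal.Quotient.mk I (G i))) =
            algebraMap (MvPolynomial (Fin e) (MvPolynomial (Fin M) k ⧸ J')) _
              (C (Ideal.Quotient.mk J' (X i)))) ∧
        (Unirational k (FractionRing (MvPolynomial (Fin n) k ⧸ I)) ↔
          Unirational k (FractionRing (MvPolynomial (Fin M) k ⧸ J'))) := by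
  classical
  obtain ⟨N, hN⟩ := kernel (k := k) s (ι := Fin s × Fin d) (fun p => p.2 + 1) (fun p => by simp)
  refine ⟨N, ?_⟩
  intro n f hf J I hI
  haveI hIp : I.IsPrime := hI.1.1
  obtain ⟨M, d', G, hM, hd', hG, hadj, hLP⟩ := hN n
    (fun p => homogeneousComponent (p.2 + 1) (f p.1))
    (fun p => homogeneousComponent_isHomogeneous _ _)
  have hmem : ∀ j, f j ∈ Algebra.adjoin k (Set.range G) := fun j =>
    adjoin_components (f j) (hf j) _ fun e => hadj (j, e)
  have hP : ∀ j, ∃ P : MvPolynomial (Fin M) k, aeval G P = f j := by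
    intro j
    have := hmem j
    rw [Algebra.adjoin_range_eq_range_aeval] at this
    exact this
  choose P hP using hP
  have hcomp : (aeval f : MvPolynomial (Fin s) k →ₐ[k] MvPolynomial (Fin n) k) =
      (aeval G : MvPolynomial (Fin M) k →ₐ[k] MvPolynomial (Fin n) k).comp (aeval P) := by
    apply MvPolynomial.algHom_ext
    intro j
    rw [AlgHom.comp_apply, aeval_X, aeval_X, hP]
  set J' : Ideal (MvPolynomial (Fin M) k) :=
    I.comap (aeval G : MvPolynomial (Fin M) k →ₐ[k] MvPolynomial (Fin n) k) with hJ'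
  haveI hJ'p : J'.IsPrime := Ideal.IsPrime.comap _
  have hmap : J'.map (aeval G : MvPolynomial (Fin M) k →ₐ[k] MvPolynomial (Fin n) k) ≤ I := by
    rw [Ideal.map_le_iff_le_comap]
  have hmap' : J.map (aeval f : MvPolynomial (Fin s) k →ₐ[k] MvPolynomial (Fin n) k) ≤
      J'.map (aeval G : MvPolynomial (Fin M) k →ₐ[k] MvPolynomial (Fin n) k) := by
    rw [Ideal.map_le_iff_le_comap]
    intro Q hQ
    rw [Ideal.mem_comap, hcomp]
    change (aeval G : MvPolynomial (Fin M) k →ₐ[k] _) (aeval P Q) ∈ _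
    apply Ideal.mem_map_of_mem
    rw [hJ', Ideal.mem_comap]
    change (aeval G : MvPolynomial (Fin M) k →ₐ[k] _) (aeval P Q) ∈ _
    have h1 : (aeval G : MvPolynomial (Fin M) k →ₐ[k] MvPolynomial (Fin n) k) (aeval P Q) =
        aeval f Q := by
      rw [hcomp]
      rfl
    rw [h1]
    exact hI.1.2 (Ideal.mem_map_of_mem _ hQ)
  obtain ⟨e, ψ, hψ⟩ := relative f J G hLP P hP I hI J' rfl
  refine ⟨M, G, P, J', hM, ?_, hP, rfl, ⟨⟨hIp, hmap⟩, fun Q hQ hQI =>
    hI.2 ⟨hQ.1, hmap'.trans hQ.2⟩ hQI⟩, ⟨e, ψ, hψ⟩, ?_, ?_⟩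
  · intro i
    refine (hG i).totalDegree_le.trans ?_
    obtain ⟨j, hj⟩ := hd' i
    exact hj.trans j.2.2
  · let A := MvPolynomial (Fin n) k ⧸ I
    let A' := MvPolynomial (Fin M) k ⧸ J'
    let g : A' →ₐ[k] A := Ideal.quotientMapₐ I
      (aeval G : MvPolynomial (Fin M) k →ₐ[k] MvPolynomial (Fin n) k) le_rfl
    have hg : Function.Injective g := Ideal.quotientMap_injective
    have hg' : Function.Injective (((Algebra.ofId A (FractionRing A)).restrictScalars k).comp g) :=
      (IsFractionRing.injective A (FractionRing A)).comp hg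
    exact unirational_of_hom (IsFractionRing.liftAlgHom (R := k) (A := A')
      (K := FractionRing A') hg')
  · intro h
    exact unirational_of_hom ψ ((Unirational.mvPoly e).mpr h)

end Pool.Agent.Helper97.BD
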